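import Pool.Agent.Helper55.MG.Defs

/-! # Basic facts on m-groups and varieties -/

namespace Pool.Helper55.MG

/-! ## Generalities -/

section general

theorem isMVariety_mgen (K : Set MGrp) : IsMVariety (mgen K) :=
  ⟨{e | ∀ G' ∈ K, MHolds G'.carrier e}, rfl⟩

theorem isLVariety_lgen (K : Set LGrp) : IsLVariety (lgen K) :=
  ⟨{e | ∀ G' ∈ K, LHolds G'.carrier e}, rfl⟩

theorem subset_mgen (K : Set MGrp) : K ⊆ mgen K := fun _ hG _ h => h _ hG

theorem subset_lgen (K : Set LGrp) : K ⊆ lgen K := fun _ hG _ h => h _ hG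

theorem mgen_le {K X : Set MGrp} (hX : IsMVariety X) (h : K ⊆ X) : mgen K ⊆ X := by
  obtain ⟨E, rfl⟩ := hX
  intro G hG e he
  exact hG e fun G' hG' => h hG' e he

theorem lgen_le {K X : Set LGrp} (hX : IsLVariety X) (h : K ⊆ X) : lgen K ⊆ X := by
  obtain ⟨E, rfl⟩ := hX
  intro G hG e he
  exact hG e fun G' hG' => h hG' e he

theorem isMVariety_MAb : IsMVariety MAb := by
  refine ⟨{(.mul (.var 0) (.var 1), .mul (.var 1) (.var 0))}, ?_⟩
  ext G
  constructor
  · intro h e he v
    rw [Set.mem_singleton_iff] at he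
    subst he
    exact h _ _
  · intro h x y
    have := h _ rfl (fun n => if n = 0 then x else y)
    simpa [MTerm.eval] using this

theorem isLVariety_LAb : IsLVariety LAb := by
  refine ⟨{(.mul (.var 0) (.var 1), .mul (.var 1) (.var 0))}, ?_⟩
  ext G
  constructor
  · intro h e he v
    rw [Set.mem_singleton_iff] at he
    subst he
    exact h _ _
  · intro h x y
    have := h _ rfl (fun n => if n = 0 then x else y)
    simpa [LTerm.eval] using this

end general

/-! ## Consequences of the axioms of m-groups -/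

section mgroup

variable {G : Type*} [MGroup G]

theorem st_one : st (1 : G) = 1 := by
  have h := MGroup.st_mul (1 : G) 1
  rw [mul_one] at h
  exact (left_eq_mul.1 h)

theorem st_inv (x : G) : st x⁻¹ = (st x)⁻¹ := by
  rw [eq_inv_iff_mul_eq_one, ← MGroup.st_mul, inv_mul_cancel, st_one]

theorem st_inj {x y : G} (h : st x = st y) : x = y := by
  rw [← MGroup.st_st x, h, MGroup.st_st]

theorem st_anti {x y : G} (h : x ≤ y) : st y ≤ st x := by
  have := MGroup.st_sup x y
  rw [sup_eq_right.2 h] at this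
  rw [this]; exact inf_le_left

/-- The order preserving involutory anti-automorphism `φ x = (x*)⁻¹`. -/
def phi (x : G) : G := (st x)⁻¹

theorem phi_phi (x : G) : phi (phi x) = x := by
  unfold phi; rw [st_inv, inv_inv, MGroup.st_st]

theorem phi_mul (x y : G) : phi (x * y) = phi y * phi x := by
  unfold phi; rw [MGroup.st_mul, mul_inv_rev]

theorem phi_one : phi (1 : G) = 1 := by unfold phi; rw [st_one, inv_one]

theorem phi_inv (x : G) : phi x⁻¹ = (phi x)⁻¹ := by
  unfold phi; rw [st_inv]

theorem phi_mono {x y : G} (h : x ≤ y) : phi x ≤ phi y := by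
  unfold phi; exact inv_le_inv_iff.2 (st_anti h)

theorem phi_sup (x y : G) : phi (x ⊔ y) = phi x ⊔ phi y := by
  unfold phi; rw [MGroup.st_sup, inv_inf]

theorem phi_inf (x y : G) : phi (x ⊓ y) = phi x ⊓ phi y := by
  unfold phi; rw [MGroup.st_inf, inv_sup]

theorem phi_inj {x y : G} (h : phi x = phi y) : x = y := by
  rw [← phi_phi x, h, phi_phi]

theorem phi_zpow (x : G) (n : ℤ) : phi (x ^ n) = phi x ^ n := by
  let f : G →* Gᵐᵒᵖ := ⟨⟨fun x => MulOpposite.op (phi x), by simp [phi_one]⟩, fun x y => by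
    simp [phi_mul]⟩
  have := map_zpow f x n
  exact MulOpposite.op_injective (by simpa [f] using this)

theorem phi_pow (x : G) (n : ℕ) : phi (x ^ n) = phi x ^ n := by
  exact_mod_cast phi_zpow x n

end mgroup

/-! ## The transfer lemma -/

/-- If a relation between an m-group `A` and an m-group `B` respects all operations, is
functional towards `B` and is surjective onto `B`, then every identity of `A` holds in `B`. -/
theorem transfer {A B : Type*} [MGroup A] [MGroup B] (R : A → B → Prop)
    (hone : R 1 1)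
    (hmul : ∀ a b a' b', R a b → R a' b' → R (a * a') (b * b'))
    (hinv : ∀ a b, R a b → R a⁻¹ b⁻¹)
    (hsup : ∀ a b a' b', R a b → R a' b' → R (a ⊔ a') (b ⊔ b'))
    (hst : ∀ a b, R a b → R (st a) (st b))
    (hfun : ∀ a b b', R a b → R a b' → b = b')
    (htot : ∀ b, ∃ a, R a b) {e : MTerm × MTerm} (he : MHolds A e) : MHolds B e := by
  intro v
  choose u hu using fun n => htot (v n)
  have hinf : ∀ a b a' b', R a b → R a' b' → R (a ⊓ a') (b ⊓ b') := by
    intro a b a' b' h h'
    have := hinv _ _ (hsup _ _ _ _ (hinv _ _ h) (hinv _ _ h'))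
    rw [inv_sup, inv_sup, inv_inv, inv_inv, inv_inv, inv_inv] at this
    exact this
  have key : ∀ t : MTerm, R (t.eval u) (t.eval v) := by
    intro t
    induction t with
    | var n => exact hu n
    | one => exact hone
    | mul s t hs ht => exact hmul _ _ _ _ hs ht
    | inv s hs => exact hinv _ _ hs
    | sup s t hs ht => exact hsup _ _ _ _ hs ht
    | inf s t hs ht => exact hinf _ _ _ _ hs ht
    | st s hs => exact hst _ _ hs
  have h1 := key e.1
  rw [he u] at h1
  exact hfun _ _ _ h1 (key e.2)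

/-- The transfer lemma for lattice-ordered groups. -/
theorem ltransfer {A B : Type*} [LGroup A] [LGroup B] (R : A → B → Prop)
    (hone : R 1 1)
    (hmul : ∀ a b a' b', R a b → R a' b' → R (a * a') (b * b'))
    (hinv : ∀ a b, R a b → R a⁻¹ b⁻¹)
    (hsup : ∀ a b a' b', R a b → R a' b' → R (a ⊔ a') (b ⊔ b'))
    (hfun : ∀ a b b', R a b → R a b' → b = b')
    (htot : ∀ b, ∃ a, R a b) {e : LTerm × LTerm} (he : LHolds A e) : LHolds B e := by
  intro v
  choose u hu using fun n => htot (v n)
  have hinf : ∀ a b a' b', R a b → R a' b' → R (a ⊓ a') (b ⊓ b') := by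
    intro a b a' b' h h'
    have := hinv _ _ (hsup _ _ _ _ (hinv _ _ h) (hinv _ _ h'))
    rw [inv_sup, inv_sup, inv_inv, inv_inv, inv_inv, inv_inv] at this
    exact this
  have key : ∀ t : LTerm, R (t.eval u) (t.eval v) := by
    intro t
    induction t with
    | var n => exact hu n
    | one => exact hone
    | mul s t hs ht => exact hmul _ _ _ _ hs ht
    | inv s hs => exact hinv _ _ hs
    | sup s t hs ht => exact hsup _ _ _ _ hs ht
    | inf s t hs ht => exact hinf _ _ _ _ hs ht
  have h1 := key e.1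
  rw [he u] at h1
  exact hfun _ _ _ h1 (key e.2)

/-! ## Products -/

instance instLGroupPi {ι : Type*} (G : ι → Type*) [∀ i, LGroup (G i)] :
    LGroup (∀ i, G i) :=
  { (inferInstance : Group (∀ i, G i)), (inferInstance : Lattice (∀ i, G i)) with
    mul_le_l := fun _ _ _ h i => LGroup.mul_le_l _ _ _ (h i)
    mul_le_r := fun _ _ _ h i => LGroup.mul_le_r _ _ _ (h i) }

instance instMGroupPi {ι : Type*} (G : ι → Type*) [∀ i, MGroup (G i)] :
    MGroup (∀ i, G i) :=
  { instLGroupPi G with
    st := fun x i => st (x i)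
    st_st := fun x => funext fun i => MGroup.st_st (x i)
    st_mul := fun x y => funext fun i => MGroup.st_mul (x i) (y i)
    st_sup := fun x y => funext fun i => MGroup.st_sup (x i) (y i)
    st_inf := fun x y => funext fun i => MGroup.st_inf (x i) (y i) }

theorem eval_pi {ι : Type*} (G : ι → Type*) [∀ i, MGroup (G i)] (v : ℕ → ∀ i, G i)
    (t : MTerm) (i : ι) : t.eval v i = t.eval (fun n => v n i) := by
  induction t with
  | var n => rfl
  | one => rfl
  | mul s t hs ht => exact congrArg₂ (· * ·) hs ht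
  | inv s hs => exact congrArg (·⁻¹) hs
  | sup s t hs ht => exact congrArg₂ (· ⊔ ·) hs ht
  | inf s t hs ht => exact congrArg₂ (· ⊓ ·) hs ht
  | st s hs => exact congrArg st hs

theorem MHolds.pi {ι : Type*} {G : ι → Type*} [∀ i, MGroup (G i)] {e : MTerm × MTerm}
    (h : ∀ i, MHolds (G i) e) : MHolds (∀ i, G i) e := by
  intro v
  funext i
  rw [eval_pi, eval_pi]
  exact h i _

/-- The asymptotic transfer lemma. -/
theorem transfer_seq {A : ℕ → Type*} {B : Type*} [∀ m, MGroup (A m)] [MGroup B]
    (R : (∀ m, A m) → B → Prop)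
    (hone : R 1 1)
    (hmul : ∀ a b a' b', R a b → R a' b' → R (a * a') (b * b'))
    (hinv : ∀ a b, R a b → R a⁻¹ b⁻¹)
    (hsup : ∀ a b a' b', R a b → R a' b' → R (a ⊔ a') (b ⊔ b'))
    (hst : ∀ a b, R a b → R (st a) (st b))
    (hfun : ∀ a b b', R a b → R a b' → b = b')
    (htot : ∀ b, ∃ a, R a b) {e : MTerm × MTerm} (he : ∀ m, MHolds (A m) e) :
    MHolds B e :=
  transfer R hone hmul hinv hsup hst hfun htot (MHolds.pi he)

end Pool.Helper55.MG
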