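import Pool.Agent.Helper55.MG.Defs

/-! # Constructions of m-groups: doubles, substructures, totally ordered groups from cones -/

set_option linter.unusedVariables false

namespace Pool.Helper55.MG

/-! ## The double of a lattice-ordered group -/

/-- The double `D(H)` of a lattice-ordered group `H`: the group `H × H`, the order being that of
`H` on the first coordinate and the reversed one on the second; `*` swaps the coordinates. -/
@[ext] structure Dbl (H : Type*) where
  fst : H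
  snd : H

namespace Dbl

variable {H : Type*} [LGroup H]

instance : Mul (Dbl H) := ⟨fun x y => ⟨x.fst * y.fst, x.snd * y.snd⟩⟩
instance : One (Dbl H) := ⟨⟨1, 1⟩⟩
instance : Inv (Dbl H) := ⟨fun x => ⟨x.fst⁻¹, x.snd⁻¹⟩⟩
instance : LE (Dbl H) := ⟨fun x y => x.fst ≤ y.fst ∧ y.snd ≤ x.snd⟩
instance : Max (Dbl H) := ⟨fun x y => ⟨x.fst ⊔ y.fst, x.snd ⊓ y.snd⟩⟩
instance : Min (Dbl H) := ⟨fun x y => ⟨x.fst ⊓ y.fst, x.snd ⊔ y.snd⟩⟩

@[simp] theorem mul_fst (x y : Dbl H) : (x * y).fst = x.fst * y.fst := rfl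
@[simp] theorem mul_snd (x y : Dbl H) : (x * y).snd = x.snd * y.snd := rfl
@[simp] theorem one_fst : (1 : Dbl H).fst = 1 := rfl
@[simp] theorem one_snd : (1 : Dbl H).snd = 1 := rfl
@[simp] theorem inv_fst (x : Dbl H) : (x⁻¹).fst = x.fst⁻¹ := rfl
@[simp] theorem inv_snd (x : Dbl H) : (x⁻¹).snd = x.snd⁻¹ := rfl
theorem le_def (x y : Dbl H) : x ≤ y ↔ x.fst ≤ y.fst ∧ y.snd ≤ x.snd := Iff.rfl

instance : LGroup (Dbl H) :=
  { Group.ofLeftAxioms (G := Dbl H)
      (fun a b c => Dbl.ext (mul_assoc _ _ _) (mul_assoc _ _ _))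
      (fun a => Dbl.ext (one_mul _) (one_mul _))
      (fun a => Dbl.ext (inv_mul_cancel _) (inv_mul_cancel _)) with
    le := fun x y => x.fst ≤ y.fst ∧ y.snd ≤ x.snd
    le_refl := fun x => ⟨le_refl _, le_refl _⟩
    le_trans := fun x y z h1 h2 => ⟨h1.1.trans h2.1, h2.2.trans h1.2⟩
    le_antisymm := fun x y h1 h2 => Dbl.ext (le_antisymm h1.1 h2.1) (le_antisymm h2.2 h1.2)
    sup := fun x y => ⟨x.fst ⊔ y.fst, x.snd ⊓ y.snd⟩
    le_sup_left := fun x y => ⟨le_sup_left, inf_le_left⟩
    le_sup_right := fun x y => ⟨le_sup_right, inf_le_right⟩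
    sup_le := fun x y z h1 h2 => ⟨sup_le h1.1 h2.1, le_inf h1.2 h2.2⟩
    inf := fun x y => ⟨x.fst ⊓ y.fst, x.snd ⊔ y.snd⟩
    inf_le_left := fun x y => ⟨inf_le_left, le_sup_left⟩
    inf_le_right := fun x y => ⟨inf_le_right, le_sup_right⟩
    le_inf := fun x y z h1 h2 => ⟨le_inf h1.1 h2.1, sup_le h1.2 h2.2⟩
    mul_le_l := fun a b c h =>
      ⟨LGroup.mul_le_l _ _ _ h.1, LGroup.mul_le_l _ _ _ h.2⟩
    mul_le_r := fun a b c h =>
      ⟨LGroup.mul_le_r _ _ _ h.1, LGroup.mul_le_r _ _ _ h.2⟩ }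

instance : MGroup (Dbl H) :=
  { (inferInstance : LGroup (Dbl H)) with
    st := fun x => ⟨x.snd, x.fst⟩
    st_st := fun x => rfl
    st_mul := fun x y => rfl
    st_sup := fun x y => rfl
    st_inf := fun x y => rfl }

@[simp] theorem sup_fst (x y : Dbl H) : (x ⊔ y).fst = x.fst ⊔ y.fst := rfl
@[simp] theorem sup_snd (x y : Dbl H) : (x ⊔ y).snd = x.snd ⊓ y.snd := rfl
@[simp] theorem inf_fst (x y : Dbl H) : (x ⊓ y).fst = x.fst ⊓ y.fst := rfl
@[simp] theorem inf_snd (x y : Dbl H) : (x ⊓ y).snd = x.snd ⊔ y.snd := rfl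
@[simp] theorem st_fst (x : Dbl H) : (st x).fst = x.snd := rfl
@[simp] theorem st_snd (x : Dbl H) : (st x).snd = x.fst := rfl

end Dbl

/-! ## The reversed order -/

instance instLGroupDual (H : Type*) [LGroup H] : LGroup Hᵒᵈ :=
  { (inferInstance : Group Hᵒᵈ), (inferInstance : Lattice Hᵒᵈ) with
    mul_le_l := fun a b c h => LGroup.mul_le_l (G := H) b a c h
    mul_le_r := fun a b c h => LGroup.mul_le_r (G := H) b a c h }

/-! ## Substructures -/

/-- A sub-m-group. -/
structure MSub (G : Type*) [MGroup G] where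
  S : Set G
  one : (1 : G) ∈ S
  mul : ∀ x ∈ S, ∀ y ∈ S, x * y ∈ S
  inv : ∀ x ∈ S, x⁻¹ ∈ S
  sup : ∀ x ∈ S, ∀ y ∈ S, x ⊔ y ∈ S
  st : ∀ x ∈ S, st x ∈ S

namespace MSub

variable {G : Type*} [MGroup G] (M : MSub G)

theorem inf : ∀ x ∈ M.S, ∀ y ∈ M.S, x ⊓ y ∈ M.S := by
  intro x hx y hy
  have := M.inv _ (M.sup _ (M.inv _ hx) _ (M.inv _ hy))
  rwa [inv_sup, inv_inv, inv_inv] at this

/-- The type of elements of a sub-m-group. -/
@[ext] structure El (M : MSub G) where
  val : G
  mem : val ∈ M.S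

instance : Mul M.El := ⟨fun x y => ⟨x.val * y.val, M.mul _ x.mem _ y.mem⟩⟩
instance : One M.El := ⟨⟨1, M.one⟩⟩
instance : Inv M.El := ⟨fun x => ⟨x.val⁻¹, M.inv _ x.mem⟩⟩

instance : LGroup M.El :=
  { Group.ofLeftAxioms (G := M.El)
      (fun a b c => El.ext (mul_assoc _ _ _))
      (fun a => El.ext (one_mul _))
      (fun a => El.ext (inv_mul_cancel _)) with
    le := fun x y => x.val ≤ y.val
    le_refl := fun x => le_refl _
    le_trans := fun x y z h1 h2 => le_trans h1 h2
    le_antisymm := fun x y h1 h2 => El.ext (le_antisymm h1 h2)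
    sup := fun x y => ⟨x.val ⊔ y.val, M.sup _ x.mem _ y.mem⟩
    le_sup_left := fun x y => le_sup_left (α := G)
    le_sup_right := fun x y => le_sup_right (α := G)
    sup_le := fun x y z h1 h2 => sup_le (α := G) h1 h2
    inf := fun x y => ⟨x.val ⊓ y.val, M.inf _ x.mem _ y.mem⟩
    inf_le_left := fun x y => inf_le_left (α := G)
    inf_le_right := fun x y => inf_le_right (α := G)
    le_inf := fun x y z h1 h2 => le_inf (α := G) h1 h2
    mul_le_l := fun a b c h => LGroup.mul_le_l (G := G) _ _ _ h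
    mul_le_r := fun a b c h => LGroup.mul_le_r (G := G) _ _ _ h }

instance : MGroup M.El :=
  { (inferInstance : LGroup M.El) with
    st := fun x => ⟨MGroup.st x.val, M.st _ x.mem⟩
    st_st := fun x => El.ext (MGroup.st_st _)
    st_mul := fun x y => El.ext (MGroup.st_mul _ _)
    st_sup := fun x y => El.ext (MGroup.st_sup _ _)
    st_inf := fun x y => El.ext (MGroup.st_inf _ _) }

@[simp] theorem val_mul (x y : M.El) : (x * y).val = x.val * y.val := rfl
@[simp] theorem val_one : (1 : M.El).val = 1 := rfl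
@[simp] theorem val_inv (x : M.El) : (x⁻¹).val = x.val⁻¹ := rfl
@[simp] theorem val_sup (x y : M.El) : (x ⊔ y).val = x.val ⊔ y.val := rfl
@[simp] theorem val_inf (x y : M.El) : (x ⊓ y).val = x.val ⊓ y.val := rfl
@[simp] theorem val_st (x : M.El) : (MGroup.st x).val = MGroup.st x.val := rfl

end MSub

/-! ## Totally ordered groups -/

/-- `Tot H` : the lattice-ordered group `H` is totally ordered. -/
def Tot (H : Type*) [LGroup H] : Prop := ∀ x y : H, x ≤ y ∨ y ≤ x

/-- The linear order defined by a positive cone `P`: `x ≤ y` iff `P (x⁻¹ * y)`. -/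
@[reducible] noncomputable def coneOrder (H : Type*) [Group H] (P : H → Prop) (one : P 1)
    (mul : ∀ x y, P x → P y → P (x * y))
    (anti : ∀ x, P x → P x⁻¹ → x = 1) (tot : ∀ x, P x ∨ P x⁻¹) : LinearOrder H where
  le := fun x y => P (x⁻¹ * y)
  le_refl := fun x => by simpa using one
  le_trans := fun x y z h1 h2 => by
    have := mul _ _ h1 h2
    simpa [mul_assoc] using this
  le_antisymm := fun x y h1 h2 => by
    have := anti _ h1 (by simpa using h2)
    exact (inv_mul_eq_one.1 this)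
  le_total := fun x y => by
    rcases tot (x⁻¹ * y) with h | h
    · exact Or.inl h
    · exact Or.inr (by simpa using h)
  toDecidableLE := Classical.decRel _

/-- The totally ordered group defined by a positive cone. -/
@[reducible] noncomputable def LGroup.ofCone (H : Type*) [Group H] (P : H → Prop)
    (one : P 1)
    (mul : ∀ x y, P x → P y → P (x * y)) (conj : ∀ x y, P x → P (y * x * y⁻¹))
    (anti : ∀ x, P x → P x⁻¹ → x = 1) (tot : ∀ x, P x ∨ P x⁻¹) : LGroup H :=
  { (inferInstance : Group H), (coneOrder H P one mul anti tot).toLattice with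
    mul_le_l := fun a b c h => by
      change P ((c * a)⁻¹ * (c * b))
      have h' : P (a⁻¹ * b) := h
      simpa [mul_assoc] using h'
    mul_le_r := fun a b c h => by
      change P ((a * c)⁻¹ * (b * c))
      have h' : P (a⁻¹ * b) := h
      have := conj _ c⁻¹ h'
      simpa [mul_assoc] using this }

end Pool.Helper55.MG
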