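import Pool.Agent.Helper55.MG.Solv

/-! # The covers of the variety of abelian m-groups -/

set_option linter.unusedVariables false

namespace Pool.Helper55.MG

/-! ### General facts on covers -/

theorem nonab_of_ssubset {X : Set MGrp} (h : MAb ⊂ X) :
    ∃ G ∈ X, ∃ x y : G.carrier, x * y ≠ y * x := by
  obtain ⟨G, hG, hG'⟩ := Set.exists_of_ssubset h
  refine ⟨G, hG, ?_⟩
  by_contra hcon
  apply hG'
  intro x y
  by_contra h'
  exact hcon ⟨x, y, h'⟩

theorem lnonab_of_ssubset {X : Set LGrp} (h : LAb ⊂ X) :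
    ∃ G ∈ X, ∃ x y : G.carrier, x * y ≠ y * x := by
  obtain ⟨G, hG, hG'⟩ := Set.exists_of_ssubset h
  refine ⟨G, hG, ?_⟩
  by_contra hcon
  apply hG'
  intro x y
  by_contra h'
  exact hcon ⟨x, y, h'⟩

theorem ssubset_of_nonab {X : Set MGrp} (h : MAb ⊆ X) {G : MGrp} (hG : G ∈ X)
    (hnc : ∃ x y : G.carrier, x * y ≠ y * x) : MAb ⊂ X := by
  refine ⟨h, fun h' => ?_⟩
  obtain ⟨x, y, hxy⟩ := hnc
  exact hxy (h' hG x y)

theorem lssubset_of_nonab {X : Set LGrp} (h : LAb ⊆ X) {G : LGrp} (hG : G ∈ X)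
    (hnc : ∃ x y : G.carrier, x * y ≠ y * x) : LAb ⊂ X := by
  refine ⟨h, fun h' => ?_⟩
  obtain ⟨x, y, hxy⟩ := hnc
  exact hxy (h' hG x y)

theorem eq_of_cover {X Z : Set MGrp} (hX : MCovers X MAb) (hZ : IsMVariety Z) (h : MAb ⊂ Z)
    (h' : Z ⊆ X) : X = Z := by
  by_contra hne
  exact hX.2.2.2 Z hZ h (ssubset_of_subset_of_ne h' (Ne.symm hne))

theorem leq_of_cover {X Z : Set LGrp} (hX : LCovers X LAb) (hZ : IsLVariety Z) (h : LAb ⊂ Z)
    (h' : Z ⊆ X) : X = Z := by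
  by_contra hne
  exact hX.2.2.2 Z hZ h (ssubset_of_subset_of_ne h' (Ne.symm hne))

theorem cover_eq_mgen {X : Set MGrp} (hX : MCovers X MAb) {B : MGrp} (hB : B ∈ X)
    (hnc : ∃ x y : B.carrier, x * y ≠ y * x) : X = mgen (MAb ∪ {B}) := by
  refine eq_of_cover hX (isMVariety_mgen _) ?_ ?_
  · exact ssubset_of_nonab (fun G hG => subset_mgen _ (Or.inl hG)) (subset_mgen _ (Or.inr rfl)) hnc
  · refine mgen_le hX.1 ?_
    rintro G (hG | hG)
    · exact hX.2.2.1.1 hG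
    · rw [Set.mem_singleton_iff] at hG
      rw [hG]; exact hB

theorem cover_eq_lgen {X : Set LGrp} (hX : LCovers X LAb) {B : LGrp} (hB : B ∈ X)
    (hnc : ∃ x y : B.carrier, x * y ≠ y * x) : X = lgen (LAb ∪ {B}) := by
  refine leq_of_cover hX (isLVariety_lgen _) ?_ ?_
  · exact lssubset_of_nonab (fun G hG => subset_lgen _ (Or.inl hG)) (subset_lgen _ (Or.inr rfl)) hnc
  · refine lgen_le hX.1 ?_
    rintro G (hG | hG)
    · exact hX.2.2.1.1 hG
    · rw [Set.mem_singleton_iff] at hG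
      rw [hG]; exact hB

/-- A criterion for `mgen (MAb ∪ {B})` to cover `MAb`. -/
theorem covers_of {B : MGrp} (hB : ∃ x y : B.carrier, x * y ≠ y * x)
    (h : ∀ E : Set (MTerm × MTerm), (∀ G : MGrp, InV E G.carrier → G ∈ mgen (MAb ∪ {B})) →
      (∃ G : MGrp, InV E G.carrier ∧ ∃ x y : G.carrier, x * y ≠ y * x) → InV E B.carrier) :
    MCovers (mgen (MAb ∪ {B})) MAb := by
  refine ⟨isMVariety_mgen _, isMVariety_MAb, ?_, ?_⟩
  · exact ssubset_of_nonab (fun G hG => subset_mgen _ (Or.inl hG)) (subset_mgen _ (Or.inr rfl)) hB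
  · rintro Z hZ hAZ hZX
    obtain ⟨E, rfl⟩ := hZ
    obtain ⟨G, hG, hnc⟩ := nonab_of_ssubset hAZ
    have h1 := h E (fun G hG => hZX.1 hG) ⟨G, hG, hnc⟩
    apply hZX.2
    refine mgen_le ⟨E, rfl⟩ ?_
    rintro G (hG | hG)
    · exact hAZ.1 hG
    · rw [Set.mem_singleton_iff] at hG
      rw [hG]; exact h1

/-- Identities of `mgen (MAb ∪ {B})`. -/
theorem mem_mgen_holds {B C : MGrp} (hC : C ∈ mgen (MAb ∪ {B})) {e : MTerm × MTerm}
    (hA : ∀ G ∈ MAb, MHolds G.carrier e) (hB : MHolds B.carrier e) : MHolds C.carrier e := by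
  apply hC
  rintro G (hG | hG)
  · exact hA G hG
  · rw [Set.mem_singleton_iff] at hG
    rw [hG]; exact hB

theorem cov_Sp {p : ℕ} (hp : p.Prime) : MCovers (mgen (MAb ∪ {gS p 0})) MAb := by
  refine covers_of (sc_noncomm hp.two_le) ?_
  rintro E hE ⟨G, hG, hnc⟩
  have hpow : ∀ C : MGrp, InV E C.carrier → MHolds C.carrier (idPow p) := fun C hC =>
    mem_mgen_holds (hE C hC) (fun G hG => comm_idPow hG p) Sc.holds_pow
  rcases main_T1 hG hnc with ⟨q, hq, h⟩ | h | h | h | ⟨K, _, hT, hM, h⟩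
  · by_cases hqp : q = p
    · subst hqp; exact h
    · exfalso
      refine Sc.not_holds_pow hp.ne_zero ?_ (hpow ⟨_⟩ h)
      intro hdvd
      exact hqp ((Nat.prime_dvd_prime_iff_eq hq hp).1 hdvd)
  · exfalso
    by_cases h2 : p = 2
    · subst h2
      exact Sc.not_holds_K0 (mem_mgen_holds (hE ⟨_⟩ h) (fun G hG => comm_idK0 hG) Sc.holds_K0)
    · refine Sc.not_holds_pow hp.ne_zero ?_ (hpow ⟨_⟩ h)
      intro hdvd
      exact h2 ((Nat.prime_dvd_prime_iff_eq Nat.prime_two hp).1 hdvd).symm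
  · exact absurd (hpow ⟨_⟩ h) (N_not_pow hp.ne_zero)
  · exact absurd (hpow ⟨_⟩ h) (W_not_pow hp.ne_zero)
  · exact absurd (hpow ⟨_⟩ h) (dbl_not_pow hT hM hp.ne_zero)

theorem cov_S21 : MCovers (mgen (MAb ∪ {gS 2 1})) MAb := by
  refine covers_of (sc_noncomm le_rfl) ?_
  rintro E hE ⟨G, hG, hnc⟩
  have hpow : ∀ C : MGrp, InV E C.carrier → MHolds C.carrier (idPow 2) := fun C hC =>
    mem_mgen_holds (hE C hC) (fun G hG => comm_idPow hG 2) Sc.holds_pow
  rcases main_T1 hG hnc with ⟨q, hq, h⟩ | h | h | h | ⟨K, _, hT, hM, h⟩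
  · exfalso
    by_cases hqp : q = 2
    · subst hqp
      exact Sc.not_holds_K1 (mem_mgen_holds (hE ⟨_⟩ h) (fun G hG => comm_idK1 hG) Sc.holds_K1)
    · refine Sc.not_holds_pow two_ne_zero ?_ (hpow ⟨_⟩ h)
      intro hdvd
      exact hqp ((Nat.prime_dvd_prime_iff_eq hq Nat.prime_two).1 hdvd)
  · exact h
  · exact absurd (hpow ⟨_⟩ h) (N_not_pow two_ne_zero)
  · exact absurd (hpow ⟨_⟩ h) (W_not_pow two_ne_zero)
  · exact absurd (hpow ⟨_⟩ h) (dbl_not_pow hT hM two_ne_zero)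

theorem cov_N : MCovers (mgen (MAb ∪ {gN})) MAb := by
  refine covers_of N_noncomm ?_
  rintro E hE ⟨G, hG, hnc⟩
  have hnil : ∀ C : MGrp, InV E C.carrier → MHolds C.carrier idNil := fun C hC =>
    mem_mgen_holds (hE C hC) (fun G hG => comm_idNil hG) N_nil
  rcases main_T1 hG hnc with ⟨q, hq, h⟩ | h | h | h | ⟨K, _, hT, hM, h⟩
  · exact absurd (hnil ⟨_⟩ h) (Sc.not_holds_nil hq.two_le)
  · exact absurd (hnil ⟨_⟩ h) (Sc.not_holds_nil le_rfl)
  · exact h
  · exact absurd (hnil ⟨_⟩ h) W_not_nil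
  · exact absurd (dbl_nil (hnil ⟨_⟩ h)) hM

theorem cov_W : MCovers (mgen (MAb ∪ {gW})) MAb := by
  refine covers_of W_noncomm ?_
  rintro E hE ⟨G, hG, hnc⟩
  have hW : ∀ C : MGrp, InV E C.carrier → MHolds C.carrier idW := fun C hC =>
    mem_mgen_holds (hE C hC) (fun G hG => comm_idW hG) W_W
  have hmet : ∀ C : MGrp, InV E C.carrier → MHolds C.carrier idMet := fun C hC =>
    mem_mgen_holds (hE C hC) (fun G hG => comm_idMet hG) W_met
  rcases main_T1 hG hnc with ⟨q, hq, h⟩ | h | h | h | ⟨K, _, hT, hM, h⟩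
  · exact absurd (hW ⟨_⟩ h) (Sc.not_holds_W hq.two_le)
  · exact absurd (hW ⟨_⟩ h) (Sc.not_holds_W le_rfl)
  · exact absurd (hW ⟨_⟩ h) N_not_W
  · exact h
  · exact absurd (dbl_met (hmet ⟨_⟩ h)) hM

/-! ### Doubles -/

/-- An m-group embeds into the double of its underlying lattice-ordered group. -/
theorem holds_of_dbl {G : Type*} [MGroup G] {e : MTerm × MTerm} (h : MHolds (Dbl G) e) :
    MHolds G e := by
  refine transfer (fun (a : Dbl G) (b : G) => a = ⟨b, st b⟩) ?_ ?_ ?_ ?_ ?_ ?_ ?_ h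
  · apply Dbl.ext
    · rfl
    · exact st_one.symm
  · rintro _ b _ b' rfl rfl
    exact Dbl.ext rfl (MGroup.st_mul _ _).symm
  · rintro _ b rfl
    exact Dbl.ext rfl (st_inv _).symm
  · rintro _ b _ b' rfl rfl
    exact Dbl.ext rfl (MGroup.st_sup _ _).symm
  · rintro _ b rfl
    exact Dbl.ext rfl (MGroup.st_st _).symm
  · rintro _ b b' rfl h
    exact congrArg Dbl.fst h
  · intro b
    exact ⟨_, rfl⟩

/-- Reversing the order of `H` does not change the double. -/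
theorem dbl_dual {H : Type*} [LGroup H] {e : MTerm × MTerm} (h : MHolds (Dbl H) e) :
    MHolds (Dbl Hᵒᵈ) e := by
  refine transfer (fun (a : Dbl H) (b : Dbl Hᵒᵈ) =>
    a = ⟨OrderDual.ofDual b.snd, OrderDual.ofDual b.fst⟩) rfl ?_ ?_ ?_ ?_ ?_ ?_ h
  · rintro _ b _ b' rfl rfl; rfl
  · rintro _ b rfl; rfl
  · rintro _ b _ b' rfl rfl; rfl
  · rintro _ b rfl; rfl
  · rintro _ b b' rfl h
    exact Dbl.ext (congrArg Dbl.snd h) (congrArg Dbl.fst h)
  · intro b
    exact ⟨_, rfl⟩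

theorem MAb_sub_dbl {V : Set LGrp} (hV : LAb ⊆ V) : MAb ⊆ mgen (gD '' V) := by
  intro G hG e he
  apply holds_of_dbl
  have h1 : (⟨G.carrier⟩ : LGrp) ∈ V := hV (fun x y => hG x y)
  exact he ⟨Dbl G.carrier⟩ ⟨_, h1, rfl⟩

theorem dbl_mem {V : Set LGrp} {H : LGrp} (hH : H ∈ V) :
    (⟨Dbl H.carrier⟩ : MGrp) ∈ mgen (gD '' V) := subset_mgen _ ⟨H, hH, rfl⟩

theorem dbl_nonab {K : Type*} [LGroup K] (h : ∃ x y : K, x * y ≠ y * x) :
    ∃ x y : Dbl K, x * y ≠ y * x := by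
  obtain ⟨x, y, hxy⟩ := h
  exact ⟨⟨x, 1⟩, ⟨y, 1⟩, fun h => hxy (congrArg Dbl.fst h)⟩

theorem nonab_of_not_metab {K : Type*} [Group K] (h : ¬ Metab K) : ∃ x y : K, x * y ≠ y * x := by
  by_contra hcon
  apply h
  intro x y z w
  by_contra h'
  exact hcon ⟨_, _, h'⟩

/-- Star-free identities in doubles. -/
theorem dbl_lholds {H : Type*} [LGroup H] {r : LTerm × LTerm} (h1 : LHolds H r)
    (h2 : LHolds H (r.1.dual, r.2.dual)) : MHolds (Dbl H) (r.1.toM, r.2.toM) := by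
  have key : ∀ (v : ℕ → Dbl H) (t : LTerm), t.eval v =
      ⟨t.eval (fun n => (v n).fst), t.dual.eval (fun n => (v n).snd)⟩ := by
    intro v t
    induction t with
    | var n => rfl
    | one => rfl
    | mul s t hs ht => simp only [LTerm.eval, LTerm.dual, hs, ht]; rfl
    | inv s hs => simp only [LTerm.eval, LTerm.dual, hs]; rfl
    | sup s t hs ht => simp only [LTerm.eval, LTerm.dual, hs, ht]; rfl
    | inf s t hs ht => simp only [LTerm.eval, LTerm.dual, hs, ht]; rfl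
  intro v
  change r.1.toM.eval v = r.2.toM.eval v
  rw [LTerm.eval_toM, LTerm.eval_toM, key, key]
  rw [h1 (fun n => (v n).fst), h2 (fun n => (v n).snd)]

/-- If a member of the variety generated by the doubles of `V` maps onto a totally ordered
group `T`, then `T` or its dual lies in `V`. -/
theorem mem_or_dual {V : Set LGrp} (hV : IsLVariety V) {G : MGrp}
    (hG : G ∈ mgen (gD '' V)) {T : Type} [LGroup T] (hT : Tot T) (ρ : G.carrier → T)
    (hone : ρ 1 = 1) (hmul : ∀ a b, ρ (a * b) = ρ a * ρ b) (hinv : ∀ a, ρ a⁻¹ = (ρ a)⁻¹)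
    (hsup : ∀ a b, ρ (a ⊔ b) = ρ a ⊔ ρ b) (hsurj : Function.Surjective ρ) :
    (⟨T⟩ : LGrp) ∈ V ∨ (⟨Tᵒᵈ⟩ : LGrp) ∈ V := by
  obtain ⟨Θ, rfl⟩ := hV
  refine lemmaJ Θ hT ?_
  intro r hr
  have h1 : MHolds G.carrier (r.1.toM, r.2.toM) := by
    apply hG
    rintro _ ⟨H, hH, rfl⟩
    exact dbl_lholds (hr H hH).1 (hr H hH).2
  have h2 : LHolds G.carrier r := by
    intro v
    have := h1 v
    change r.1.toM.eval v = r.2.toM.eval v at this
    rwa [LTerm.eval_toM, LTerm.eval_toM] at this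
  refine ltransfer (fun a b => ρ a = b) hone ?_ ?_ ?_ ?_ ?_ h2
  · rintro a _ a' _ rfl rfl; exact hmul _ _
  · rintro a _ rfl; exact hinv _
  · rintro a _ a' _ rfl rfl; exact hsup _ _
  · rintro a b b' h h'; exact h.symm.trans h'
  · intro b; exact hsurj b

/-! ### Identities of lattice-ordered groups -/

/-- commutator term -/
def LTerm.cm (s t : LTerm) : LTerm := .mul (.mul (.mul s t) (.inv s)) (.inv t)

/-- metabelian identity for lattice-ordered groups -/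
def lidMet : LTerm × LTerm :=
  (.mul (LTerm.cm (.var 0) (.var 1)) (LTerm.cm (.var 2) (.var 3)),
    .mul (LTerm.cm (.var 2) (.var 3)) (LTerm.cm (.var 0) (.var 1)))

theorem lholds_met {G : Type*} [LGroup G] : LHolds G lidMet ↔ Metab G := by
  constructor
  · intro h x y z w
    exact h (asg x y z w)
  · intro h v
    exact h (v 0) (v 1) (v 2) (v 3)

/-- representability identity -/
def lidRep : LTerm × LTerm :=
  (.inf (.sup (.var 0) .one) (.mul (.mul (.var 1) (.sup (.inv (.var 0)) .one)) (.inv (.var 1))),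
    .one)

theorem lholds_rep {G : Type*} [LGroup G] :
    LHolds G lidRep ↔ ∀ x y : G, (x ⊔ 1) ⊓ (y * (x⁻¹ ⊔ 1) * y⁻¹) = 1 := by
  constructor
  · intro h x y
    exact h (asg x y y y)
  · intro h v
    exact h (v 0) (v 1)

theorem rep_of_tot {G : Type*} [LGroup G] (hT : Tot G) : LHolds G lidRep := by
  rw [lholds_rep]
  intro x y
  rcases hT 1 x with h | h
  · have h1 : x⁻¹ ⊔ 1 = 1 := sup_eq_right.2 (inv_le_one'.2 h)
    rw [h1, sup_eq_left.2 h]
    have h2 : y * 1 * y⁻¹ = 1 := by group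
    rw [h2]; exact inf_eq_right.2 h
  · rw [sup_eq_right.2 h]
    refine inf_eq_left.2 (one_le_conj _ le_sup_right)

theorem rep_of_comm {G : Type*} [LGroup G] (hG : ∀ x y : G, x * y = y * x) :
    LHolds G lidRep := by
  rw [lholds_rep]
  intro x y
  have h1 : y * (x⁻¹ ⊔ 1) * y⁻¹ = x⁻¹ ⊔ 1 := by rw [hG y]; group
  rw [h1]; exact pos_ort_neg x

theorem rep_dual_of_tot {G : Type*} [LGroup G] (hT : Tot G) :
    LHolds G (lidRep.1.dual, lidRep.2.dual) := by
  rw [← lholds_dual]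
  exact rep_of_tot (fun x y => hT (OrderDual.ofDual y) (OrderDual.ofDual x))

theorem rep_dual_of_comm {G : Type*} [LGroup G] (hG : ∀ x y : G, x * y = y * x) :
    LHolds G (lidRep.1.dual, lidRep.2.dual) := by
  rw [← lholds_dual]
  exact rep_of_comm (fun x y => hG (OrderDual.ofDual x) (OrderDual.ofDual y))

theorem sc_not_rep {p : ℕ} {κ : ℤ} (hp : 2 ≤ p) :
    ¬ MHolds (Sc p κ) (lidRep.1.toM, lidRep.2.toM) := by
  intro h
  have h0 : LHolds (Sc p κ) lidRep := by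
    intro v
    have := h v
    change lidRep.1.toM.eval v = lidRep.2.toM.eval v at this
    rwa [LTerm.eval_toM, LTerm.eval_toM] at this
  rw [lholds_rep] at h0
  have h10 := Sc.one_ne hp
  -- `x = e₀ e₁⁻¹`, `y = s⁻¹`
  have h1 := h0 ⟨fun i => (if i = 0 then 1 else 0) - if i = 1 then 1 else 0, 0⟩ ⟨fun _ => 0, -1⟩
  have h2 := congrArg (fun z : Sc p κ => z.f 0) h1
  rw [Sc.inf_def, Sc.sup_def, Sc.sup_def] at h2
  simp [h10, h10.symm] at h2

/-! ### The covers coming from lattice-ordered groups -/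

theorem holds_lgen {B : LGrp} {H : LGrp} (hH : H ∈ lgen (LAb ∪ {B})) {e : LTerm × LTerm}
    (hA : ∀ G ∈ LAb, LHolds G.carrier e) (hB : LHolds B.carrier e) : LHolds H.carrier e := by
  apply hH
  rintro G (hG | hG)
  · exact hA G hG
  · rw [Set.mem_singleton_iff] at hG
    rw [hG]; exact hB

theorem met_of_cover {V : Set LGrp} (hV : LCovers V LAb) {B : LGrp} (hB : B ∈ V)
    (hnc : ∃ x y : B.carrier, x * y ≠ y * x) (hmet : Metab B.carrier) {H : LGrp} (hH : H ∈ V) :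
    Metab H.carrier := by
  rw [cover_eq_lgen hV hB hnc] at hH
  rw [← lholds_met]
  exact holds_lgen hH (fun G hG => lholds_met.2 (fun x y z w => hG _ _)) (lholds_met.2 hmet)

theorem LSub.lholds {K : Type*} [LGroup K] (M : LSub K) {e : LTerm × LTerm}
    (h : LHolds K e) : LHolds M.El e := by
  refine ltransfer (fun (a : K) (b : M.El) => a = b.val) rfl ?_ ?_ ?_ ?_ ?_ h
  · rintro _ b _ b' rfl rfl; rfl
  · rintro _ b rfl; rfl
  · rintro _ b _ b' rfl rfl; rfl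
  · rintro _ b b' rfl h; exact LSub.El.ext h
  · intro b; exact ⟨_, rfl⟩

/-- In a cover of `LAb`, a totally ordered group that is not metabelian is not solvable. -/
theorem not_solv {V : Set LGrp} (hV : LCovers V LAb) {K : LGrp} (hKV : K ∈ V)
    (hT : Tot K.carrier) (hM : ¬ Metab K.carrier) : ¬ Group.IsSolvable K.carrier := by
  intro hs
  obtain ⟨D, ⟨x, hx, y, hy, hxy⟩, hD⟩ := exists_metab_sub hs hM
  let M : LSub K.carrier := ⟨D, hT, D.one_mem, fun _ hx _ hy => D.mul_mem hx hy,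
    fun _ hx => D.inv_mem hx⟩
  have h1 : (⟨M.El⟩ : LGrp) ∈ V := by
    obtain ⟨⟨Θ, rfl⟩, -⟩ := hV
    intro e he
    exact M.lholds (hKV e he)
  have h2 : Metab M.El := fun x y z w =>
    LSub.El.ext (hD _ x.mem _ y.mem _ z.mem _ w.mem)
  have h3 : ∃ x y : M.El, x * y ≠ y * x :=
    ⟨⟨x, hx⟩, ⟨y, hy⟩, fun h => hxy (congrArg LSub.El.val h)⟩
  exact hM (met_of_cover hV h1 h3 h2 hKV)

theorem heis_nonab : ∃ x y : Heis, x * y ≠ y * x := by
  refine ⟨⟨1, 0, 0⟩, ⟨0, 1, 0⟩, ?_⟩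
  rw [Ne, Heis.mul_comm_iff]; simp

theorem wr_nonab : ∃ x y : Wr, x * y ≠ y * x := by
  by_contra hcon
  obtain ⟨x, y, hxy⟩ := W_noncomm
  apply hxy
  have hc : ∀ x y : Wr, x * y = y * x := by
    intro x y
    by_contra h
    exact hcon ⟨x, y, h⟩
  exact MSub.El.ext (Dbl.ext (hc _ _) (hc _ _))

theorem dual_nonab {T : Type*} [LGroup T] (h : ∃ x y : T, x * y ≠ y * x) :
    ∃ x y : Tᵒᵈ, x * y ≠ y * x := h

/-- If `V` covers `LAb` and `K ∈ V` is noncommutative, and `Z` contains all abelian m-groups and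
`D(K)`, then `Z` contains all doubles of members of `V`. -/
theorem dbl_sub_of_mem {V : Set LGrp} {B : LGrp} (hV : V = lgen (LAb ∪ {B})) {Z : Set MGrp}
    (hZ : IsMVariety Z) (hA : MAb ⊆ Z) (hB : (⟨Dbl B.carrier⟩ : MGrp) ∈ Z) :
    mgen (gD '' V) ⊆ Z := by
  refine mgen_le hZ ?_
  rintro _ ⟨H, hH, rfl⟩
  obtain ⟨E, rfl⟩ := hZ
  intro e he
  have hab : ∀ G ∈ LAb, MHolds (Dbl G.carrier) e := by
    intro G hG
    refine hA (a := ⟨Dbl G.carrier⟩) ?_ e he
    intro x y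
    exact Dbl.ext (hG _ _) (hG _ _)
  have hBe : MHolds (Dbl B.carrier) e := hB e he
  rw [hV] at hH
  change MHolds (Dbl H.carrier) e
  rw [dbl_holds_iff] at hBe ⊢
  refine ⟨holds_lgen hH (fun G hG => ((dbl_holds_iff e).1 (hab G hG)).1) hBe.1,
    holds_lgen hH (fun G hG => ((dbl_holds_iff e).1 (hab G hG)).2) hBe.2⟩

theorem cov_dbl {V : Set LGrp} (hV : LCovers V LAb)
    (hK : ∃ H ∈ V, Tot H.carrier ∧ ¬ Metab H.carrier) : MCovers (mgen (gD '' V)) MAb := by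
  obtain ⟨K₀, hK₀, hT₀, hM₀⟩ := hK
  have hnc₀ := nonab_of_not_metab hM₀
  have hA : MAb ⊆ mgen (gD '' V) := MAb_sub_dbl hV.2.2.1.1
  refine ⟨isMVariety_mgen _, isMVariety_MAb, ?_, ?_⟩
  · exact ssubset_of_nonab hA (dbl_mem hK₀) (dbl_nonab hnc₀)
  · intro Z hZ hAZ hZY
    obtain ⟨E, rfl⟩ := hZ
    obtain ⟨G, hG, hnc⟩ := nonab_of_ssubset hAZ
    have hVeq := cover_eq_lgen hV hK₀ hnc₀
    have hrep : ∀ C : MGrp, InV E C.carrier → MHolds C.carrier (lidRep.1.toM, lidRep.2.toM) := by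
      intro C hC
      have h1 : C ∈ mgen (gD '' V) := hZY.1 hC
      apply h1
      rintro _ ⟨H, hH, rfl⟩
      rw [hVeq] at hH
      refine dbl_lholds ?_ ?_
      · exact holds_lgen hH (fun G hG => rep_of_comm hG) (rep_of_tot hT₀)
      · exact holds_lgen hH (fun G hG => rep_dual_of_comm hG) (rep_dual_of_tot hT₀)
    rcases main_T1 hG hnc with ⟨q, hq, h⟩ | h | h | h | ⟨K, _, hT, hM, h⟩
    · exact sc_not_rep hq.two_le (hrep ⟨_⟩ h)
    · exact sc_not_rep le_rfl (hrep ⟨_⟩ h)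
    · have h1 : (⟨MN⟩ : MGrp) ∈ mgen (gD '' V) := hZY.1 h
      rcases mem_or_dual hV.1 h1 Heis.tot (fun z => z.val.fst) rfl (fun _ _ => rfl)
        (fun _ => rfl) (fun _ _ => rfl) (by
          intro t
          refine ⟨⟨⟨t, t⁻¹⟩, ?_⟩, rfl⟩
          change t * t⁻¹ ∈ {x : Heis | x.n = 0 ∧ x.j = 0}
          rw [mul_inv_cancel]; exact ⟨rfl, rfl⟩) with h2 | h2
      · exact hM₀ (met_of_cover hV h2 heis_nonab Heis.metab hK₀)
      · exact hM₀ (met_of_cover hV h2 (dual_nonab heis_nonab) Heis.metab hK₀)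
    · have h1 : (⟨MW⟩ : MGrp) ∈ mgen (gD '' V) := hZY.1 h
      rcases mem_or_dual hV.1 h1 Wr.tot (fun z => z.val.fst) rfl (fun _ _ => rfl)
        (fun _ => rfl) (fun _ _ => rfl) (by
          intro t
          refine ⟨⟨⟨t, t⁻¹⟩, ?_⟩, rfl⟩
          change t * t⁻¹ ∈ {x : Wr | x.n = 0}
          rw [mul_inv_cancel]; rfl) with h2 | h2
      · exact hM₀ (met_of_cover hV h2 wr_nonab Wr.metab hK₀)
      · exact hM₀ (met_of_cover hV h2 (dual_nonab wr_nonab) Wr.metab hK₀)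
    · have h1 : (⟨Dbl K⟩ : MGrp) ∈ mgen (gD '' V) := hZY.1 h
      have hKnc := nonab_of_not_metab hM
      apply hZY.2
      rcases mem_or_dual hV.1 h1 hT (fun z => z.fst) rfl (fun _ _ => rfl)
        (fun _ => rfl) (fun _ _ => rfl) (fun t => ⟨⟨t, t⟩, rfl⟩) with h2 | h2
      · exact dbl_sub_of_mem (cover_eq_lgen hV h2 hKnc) ⟨E, rfl⟩ hAZ.1 h
      · exact dbl_sub_of_mem (cover_eq_lgen hV h2 (dual_nonab hKnc)) ⟨E, rfl⟩ hAZ.1
          (fun e he => dbl_dual (h e he))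

/-- A cover of `MAb` containing the double of a non-metabelian totally ordered group. -/
theorem cover_dbl_inv {X : Set MGrp} (hX : MCovers X MAb) {K : Type} [LGroup K] (hT : Tot K)
    (hM : ¬ Metab K) (hK : (⟨Dbl K⟩ : MGrp) ∈ X) :
    LCovers (lgen (LAb ∪ {⟨K⟩})) LAb ∧ X = mgen (gD '' (lgen (LAb ∪ {⟨K⟩}))) := by
  have hKnc := nonab_of_not_metab hM
  set V : Set LGrp := lgen (LAb ∪ {⟨K⟩}) with hVdef
  have hAV : LAb ⊆ V := fun G hG => subset_lgen _ (Or.inl hG)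
  have hKV : (⟨K⟩ : LGrp) ∈ V := subset_lgen _ (Or.inr rfl)
  have hsub : mgen (gD '' V) ⊆ X := dbl_sub_of_mem hVdef hX.1 hX.2.2.1.1 hK
  have hXeq : X = mgen (gD '' V) :=
    eq_of_cover hX (isMVariety_mgen _) (ssubset_of_nonab (MAb_sub_dbl hAV) (dbl_mem hKV)
      (dbl_nonab hKnc)) hsub
  refine ⟨⟨isLVariety_lgen _, isLVariety_LAb, lssubset_of_nonab hAV hKV hKnc, ?_⟩, hXeq⟩
  intro V' hV' hAV' hV'V
  apply hV'V.2
  -- it is enough to show `K ∈ V'`
  suffices hKV' : (⟨K⟩ : LGrp) ∈ V' by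
    refine lgen_le hV' ?_
    rintro G (hG | hG)
    · exact hAV'.1 hG
    · rw [Set.mem_singleton_iff] at hG
      rw [hG]; exact hKV'
  obtain ⟨H, hH, hHnc⟩ := lnonab_of_ssubset hAV'
  have hXeq' : X = mgen (gD '' V') := by
    refine eq_of_cover hX (isMVariety_mgen _) (ssubset_of_nonab (MAb_sub_dbl hAV'.1) (dbl_mem hH)
      (dbl_nonab hHnc)) ?_
    rw [hXeq]
    refine mgen_le (isMVariety_mgen _) ?_
    rintro _ ⟨H', hH', rfl⟩
    exact dbl_mem (hV'V.1 hH')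
  have hK' : (⟨Dbl K⟩ : MGrp) ∈ mgen (gD '' V') := by rw [← hXeq']; exact hK
  rcases mem_or_dual hV' hK' hT (fun z => z.fst) rfl (fun _ _ => rfl)
    (fun _ => rfl) (fun _ _ => rfl) (fun t => ⟨⟨t, t⟩, rfl⟩) with h2 | h2
  · exact h2
  · have h3 : (⟨Kᵒᵈ⟩ : LGrp) ∈ V := hV'V.1 h2
    obtain ⟨Θ, rfl⟩ := hV'
    intro e he
    have h4 : LHolds Kᵒᵈ e := h2 e he
    have h5 : LHolds K (e.1.dual, e.2.dual) := (lholds_dual e).1 h4
    have h6 : LHolds Kᵒᵈ (e.1.dual, e.2.dual) := by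
      refine holds_lgen (B := ⟨K⟩) (H := ⟨Kᵒᵈ⟩) h3 ?_ h5
      intro G hG
      rw [← lholds_dual]
      have h7 : (⟨G.carrierᵒᵈ⟩ : LGrp) ∈ LAb := fun x y =>
        hG (OrderDual.ofDual x) (OrderDual.ofDual y)
      exact hAV'.1 h7 e he
    have h7 := (lholds_dual _).1 h6
    rwa [LTerm.dual_dual, LTerm.dual_dual] at h7

/-- **The covers of the variety of abelian m-groups.** -/
theorem classification (X : Set MGrp) :
    MCovers X MAb ↔
      (∃ p : ℕ, p.Prime ∧ X = mgen (MAb ∪ {gS p 0})) ∨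
      X = mgen (MAb ∪ {gS 2 1}) ∨
      X = mgen (MAb ∪ {gN}) ∨
      X = mgen (MAb ∪ {gW}) ∨
      ∃ V ∈ oCovers, X = mgen (gD '' V) := by
  constructor
  · intro hX
    obtain ⟨G, hG, hnc⟩ := nonab_of_ssubset hX.2.2.1
    have hX' := hX
    obtain ⟨⟨E, rfl⟩, -, -, -⟩ := hX
    rcases main_T1 hG hnc with ⟨q, hq, h⟩ | h | h | h | ⟨K, _, hT, hM, h⟩
    · exact Or.inl ⟨q, hq, cover_eq_mgen hX' (B := gS q 0) h (sc_noncomm hq.two_le)⟩
    · exact Or.inr (Or.inl (cover_eq_mgen hX' (B := gS 2 1) h (sc_noncomm le_rfl)))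
    · exact Or.inr (Or.inr (Or.inl (cover_eq_mgen hX' (B := gN) h N_noncomm)))
    · exact Or.inr (Or.inr (Or.inr (Or.inl (cover_eq_mgen hX' (B := gW) h W_noncomm))))
    · obtain ⟨h1, h2⟩ := cover_dbl_inv hX' hT hM h
      have h3 : (⟨K⟩ : LGrp) ∈ lgen (LAb ∪ {⟨K⟩}) := subset_lgen _ (Or.inr rfl)
      exact Or.inr (Or.inr (Or.inr (Or.inr ⟨_, ⟨h1, ⟨⟨K⟩, h3, hT, not_solv h1 h3 hT hM⟩⟩,
        h2⟩)))
  · rintro (⟨p, hp, rfl⟩ | rfl | rfl | rfl | ⟨V, ⟨hV, K, hK, hT, hs⟩, rfl⟩)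
    · exact cov_Sp hp
    · exact cov_S21
    · exact cov_N
    · exact cov_W
    · exact cov_dbl hV ⟨K, hK, hT, fun h => hs (solvable_of_metab h)⟩

/-! ### The list has no repetitions -/

theorem mem_self (B : MGrp) : B ∈ mgen (MAb ∪ {B}) := subset_mgen _ (Or.inr rfl)

/-- The varieties belonging to the special m-groups are pairwise different. -/
theorem special_inj {B B' : MGrp} (hB : B ∈ special) (hB' : B' ∈ special)
    (h : mgen (MAb ∪ {B}) = mgen (MAb ∪ {B'})) : B = B' := by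
  have h1 : B ∈ mgen (MAb ∪ {B'}) := h ▸ mem_self B
  have h2 : B' ∈ mgen (MAb ∪ {B}) := h ▸ mem_self B'
  -- transfer of identities
  have tr : ∀ {C C' : MGrp}, C ∈ mgen (MAb ∪ {C'}) → ∀ {e : MTerm × MTerm},
      (∀ G ∈ MAb, MHolds G.carrier e) → MHolds C'.carrier e → MHolds C.carrier e :=
    fun hC _ hA hC' => mem_mgen_holds hC hA hC'
  -- no special m-group other than `N` satisfies `idNil`, and so on
  have pow : ∀ {p q : ℕ} {κ κ' : ℤ}, p.Prime → q.Prime → gS p κ ∈ mgen (MAb ∪ {gS q κ'}) →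
      p = q := by
    intro p q κ κ' hp hq hm
    by_contra hne
    refine Sc.not_holds_pow (p := p) (κ := κ) hq.ne_zero ?_
      (tr hm (fun G hG => comm_idPow hG q) (Sc.holds_pow (p := q)))
    intro hdvd
    exact hne ((Nat.prime_dvd_prime_iff_eq hp hq).1 hdvd)
  have nn : ∀ {p : ℕ} {κ : ℤ}, 2 ≤ p → gS p κ ∉ mgen (MAb ∪ {gN}) := fun hp hm =>
    Sc.not_holds_nil hp (tr hm (fun G hG => comm_idNil hG) N_nil)
  have ww : ∀ {p : ℕ} {κ : ℤ}, 2 ≤ p → gS p κ ∉ mgen (MAb ∪ {gW}) := fun hp hm =>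
    Sc.not_holds_W hp (tr hm (fun G hG => comm_idW hG) W_W)
  have wn : gW ∉ mgen (MAb ∪ {gN}) := fun hm =>
    W_not_nil (tr hm (fun G hG => comm_idNil hG) N_nil)
  have k01 : gS 2 0 ∉ mgen (MAb ∪ {gS 2 1}) := fun hm =>
    Sc.not_holds_K1 (tr hm (fun G hG => comm_idK1 hG) Sc.holds_K1)
  rcases hB with ⟨p, hp, rfl⟩ | rfl | rfl | rfl <;>
    rcases hB' with ⟨q, hq, rfl⟩ | rfl | rfl | rfl
  · rw [pow hp hq h1]
  · have := pow hp Nat.prime_two h1
    subst this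
    exact absurd h1 k01
  · exact absurd h1 (nn hp.two_le)
  · exact absurd h1 (ww hp.two_le)
  · have := pow hq Nat.prime_two h2
    subst this
    exact absurd h2 k01
  · rfl
  · exact absurd h1 (nn le_rfl)
  · exact absurd h1 (ww le_rfl)
  · exact absurd h2 (nn hq.two_le)
  · exact absurd h2 (nn le_rfl)
  · rfl
  · exact absurd h2 wn
  · exact absurd h2 (ww hq.two_le)
  · exact absurd h2 (ww le_rfl)
  · exact absurd h1 wn
  · rfl

/-- The varieties belonging to the special m-groups are not generated by doubles of members of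
a variety in `oCovers`. -/
theorem special_ne {B : MGrp} (hB : B ∈ special) {V : Set LGrp} (hV : V ∈ oCovers) :
    mgen (MAb ∪ {B}) ≠ mgen (gD '' V) := by
  intro h
  obtain ⟨hV, K, hK, hT, hs⟩ := hV
  have hM : ¬ Metab K.carrier := fun h => hs (solvable_of_metab h)
  have h1 : gD K ∈ mgen (MAb ∪ {B}) := h ▸ dbl_mem hK
  rcases hB with ⟨p, hp, rfl⟩ | rfl | rfl | rfl
  · exact dbl_not_pow hT hM hp.ne_zero
      (mem_mgen_holds h1 (fun G hG => comm_idPow hG p) (Sc.holds_pow (p := p)))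
  · exact dbl_not_pow hT hM two_ne_zero
      (mem_mgen_holds h1 (fun G hG => comm_idPow hG 2) (Sc.holds_pow (p := 2)))
  · exact hM (dbl_nil (mem_mgen_holds h1 (fun G hG => comm_idNil hG) N_nil))
  · exact hM (dbl_met (mem_mgen_holds h1 (fun G hG => comm_idMet hG) W_met))

theorem opp_mem_lgen {K H : LGrp} :
    H ∈ lgen (LAb ∪ {opp K}) ↔ opp H ∈ lgen (LAb ∪ {K}) := by
  have hab : ∀ {e : LTerm × LTerm}, (∀ G ∈ LAb, LHolds G.carrier e) →
      ∀ G ∈ LAb, LHolds G.carrier (e.1.dual, e.2.dual) := by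
    intro e he G hG
    rw [← lholds_dual]
    have h7 : opp G ∈ LAb := fun x y => hG (OrderDual.ofDual x) (OrderDual.ofDual y)
    exact he _ h7
  constructor
  · intro hH e he
    have h1 : LHolds H.carrier (e.1.dual, e.2.dual) := by
      refine holds_lgen hH (hab fun G hG => he G (Or.inl hG)) ?_
      have h2 : LHolds K.carrier e := he K (Or.inr rfl)
      change LHolds K.carrierᵒᵈ (e.1.dual, e.2.dual)
      rw [lholds_dual, LTerm.dual_dual, LTerm.dual_dual]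
      exact h2
    exact (lholds_dual e).2 h1
  · intro hH e he
    have h1 : LHolds (opp H).carrier (e.1.dual, e.2.dual) := by
      refine holds_lgen hH (hab fun G hG => he G (Or.inl hG)) ?_
      have h2 : LHolds K.carrierᵒᵈ e := he (opp K) (Or.inr rfl)
      exact (lholds_dual e).1 h2
    have h3 := (lholds_dual (H := H.carrier) _).1 h1
    rwa [LTerm.dual_dual, LTerm.dual_dual] at h3

theorem dbl_dual' {H : Type*} [LGroup H] {e : MTerm × MTerm} (h : MHolds (Dbl Hᵒᵈ) e) :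
    MHolds (Dbl H) e := by
  refine transfer (fun (a : Dbl Hᵒᵈ) (b : Dbl H) =>
    a = ⟨OrderDual.toDual b.snd, OrderDual.toDual b.fst⟩) rfl ?_ ?_ ?_ ?_ ?_ ?_ h
  · rintro _ b _ b' rfl rfl; rfl
  · rintro _ b rfl; rfl
  · rintro _ b _ b' rfl rfl; rfl
  · rintro _ b rfl; rfl
  · rintro _ b b' rfl h
    exact Dbl.ext (congrArg Dbl.snd h) (congrArg Dbl.fst h)
  · intro b
    exact ⟨_, rfl⟩

/-- Two varieties in `oCovers` give the same variety of m-groups iff they are equal or dual. -/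
theorem dbl_eq_iff {V V' : Set LGrp} (hV : V ∈ oCovers) (hV' : V' ∈ oCovers) :
    mgen (gD '' V) = mgen (gD '' V') ↔ V' = V ∨ V' = {H | opp H ∈ V} := by
  constructor
  · intro h
    obtain ⟨hV, K, hK, hT, hs⟩ := hV
    have hM : ¬ Metab K.carrier := fun h => hs (solvable_of_metab h)
    have hKnc := nonab_of_not_metab hM
    have hVeq := cover_eq_lgen hV hK hKnc
    have h1 : gD K ∈ mgen (gD '' V') := h ▸ dbl_mem hK
    rcases mem_or_dual hV'.1.1 h1 hT (fun z => z.fst) rfl (fun _ _ => rfl)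
      (fun _ => rfl) (fun _ _ => rfl) (fun t => ⟨⟨t, t⟩, rfl⟩) with h2 | h2
    · left
      rw [hVeq]; exact cover_eq_lgen hV'.1 h2 hKnc
    · right
      have h3 : V' = lgen (LAb ∪ {opp K}) := cover_eq_lgen hV'.1 h2 (dual_nonab hKnc)
      ext H
      change H ∈ V' ↔ opp H ∈ V
      rw [h3, hVeq]
      exact opp_mem_lgen
  · rintro (rfl | rfl)
    · rfl
    · apply Set.Subset.antisymm
      · refine mgen_le (isMVariety_mgen _) ?_
        rintro _ ⟨H, hH, rfl⟩ e he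
        have h1 : opp H ∈ {H | opp H ∈ V} := by
          change opp (opp H) ∈ V
          obtain ⟨⟨Θ, rfl⟩, -⟩ := hV.1
          intro e he
          refine (lholds_dual (H := H.carrierᵒᵈ) e).2 ?_
          refine (lholds_dual (H := H.carrier) _).2 ?_
          rw [LTerm.dual_dual, LTerm.dual_dual]
          exact hH e he
        exact dbl_dual' (he _ ⟨_, h1, rfl⟩)
      · refine mgen_le (isMVariety_mgen _) ?_
        rintro _ ⟨H, hH, rfl⟩ e he
        exact dbl_dual' (he _ ⟨_, hH, rfl⟩)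

/-! ### Solvable members -/

theorem rp_of_lholds {G : Type*} [LGroup G] (h : LHolds G lidRep) : Rp G := by
  rw [lholds_rep] at h
  intro u v g huv
  have h1 := h (v * u⁻¹) g
  have e1 : v * u⁻¹ ⊔ 1 = v := by
    have : v * u⁻¹ ⊔ 1 = (v ⊔ u) * u⁻¹ := by rw [sup_mul, mul_inv_cancel]
    rw [this, ← huv.symm.mul_eq]; group
  have e2 : (v * u⁻¹)⁻¹ ⊔ 1 = u := by
    have : (v * u⁻¹)⁻¹ ⊔ 1 = (u ⊔ v) * v⁻¹ := by
      rw [sup_mul, mul_inv_cancel]; congr 1; group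
    rw [this, ← huv.mul_eq]; group
  rw [e1, e2] at h1
  exact Ort.symm h1

/-- A noncommutative representable lattice-ordered group maps onto a noncommutative totally
ordered group. -/
theorem exists_tot_quot {G : Type} [LGroup G] (hR : Rp G) (hnc : ∃ x y : G, x * y ≠ y * x) :
    ∃ (T : Type) (_ : LGroup T) (ρ : G →* T), Tot T ∧ (∀ a b, ρ (a ⊔ b) = ρ a ⊔ ρ b) ∧
      Function.Surjective ρ ∧ ∃ x y : T, x * y ≠ y * x := by
  obtain ⟨x, y, hxy⟩ : ∃ x y : G, x * y * x⁻¹ * y⁻¹ ⊔ 1 ≠ 1 := by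
    by_contra hcon
    obtain ⟨x, y, hxy⟩ := hnc
    have h1 : x * y * x⁻¹ * y⁻¹ ≤ 1 := by
      by_contra h
      exact hcon ⟨x, y, fun h' => h (by rw [← h']; exact le_sup_left)⟩
    have h2 : y * x * y⁻¹ * x⁻¹ ≤ 1 := by
      by_contra h
      exact hcon ⟨y, x, fun h' => h (by rw [← h']; exact le_sup_left)⟩
    have h3 : x * y * x⁻¹ * y⁻¹ = 1 := by
      refine le_antisymm h1 ?_
      have h4 : x * y * x⁻¹ * y⁻¹ = (y * x * y⁻¹ * x⁻¹)⁻¹ := by group
      rw [h4]; exact one_le_inv'.2 h2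
    apply hxy
    calc x * y = (x * y * x⁻¹ * y⁻¹) * (y * x) := by group
      _ = y * x := by rw [h3, one_mul]
  obtain ⟨P, hPn, hconv, hprime, hu⟩ := exists_prime hR le_sup_right hxy
  let instH : LGroup (G ⧸ P) := quotLG P hconv hprime
  refine ⟨G ⧸ P, quotLG P hconv hprime, QuotientGroup.mk' P, quotLG_tot P hconv hprime,
    quotLG_mk_sup P hconv hprime, QuotientGroup.mk'_surjective P, ?_⟩
  refine ⟨(x : G ⧸ P), (y : G ⧸ P), fun h => hu ?_⟩
  have h1 : ((x * y * x⁻¹ * y⁻¹ : G) : G ⧸ P) = 1 := by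
    change (x : G ⧸ P) * (y : G ⧸ P) * (x : G ⧸ P)⁻¹ * (y : G ⧸ P)⁻¹ = 1
    rw [h]; group
  have h2 : ((x * y * x⁻¹ * y⁻¹ ⊔ 1 : G) : G ⧸ P) = 1 := by
    rw [quotLG_mk_sup P hconv hprime, h1]; exact sup_idem _
  exact (QuotientGroup.eq_one_iff _).1 h2

/-- In the covers coming from `oCovers`, all solvable members are abelian. -/
theorem solvable_abelian {V : Set LGrp} (hV : V ∈ oCovers) {G : MGrp}
    (hG : G ∈ mgen (gD '' V)) (hs : Group.IsSolvable G.carrier) : G ∈ MAb := by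
  by_contra hcon
  have hnc : ∃ x y : G.carrier, x * y ≠ y * x := by
    by_contra h
    apply hcon
    intro x y
    by_contra h'
    exact h ⟨x, y, h'⟩
  obtain ⟨hVc, K₀, hK₀, hT₀, hs₀⟩ := hV
  have hM₀ : ¬ Metab K₀.carrier := fun h => hs₀ (solvable_of_metab h)
  have hnc₀ := nonab_of_not_metab hM₀
  have hVeq := cover_eq_lgen hVc hK₀ hnc₀
  have hrep : LHolds G.carrier lidRep := by
    have h1 : MHolds G.carrier (lidRep.1.toM, lidRep.2.toM) := by
      apply hG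
      rintro _ ⟨H, hH, rfl⟩
      rw [hVeq] at hH
      refine dbl_lholds ?_ ?_
      · exact holds_lgen hH (fun G hG => rep_of_comm hG) (rep_of_tot hT₀)
      · exact holds_lgen hH (fun G hG => rep_dual_of_comm hG) (rep_dual_of_tot hT₀)
    intro v
    have := h1 v
    change lidRep.1.toM.eval v = lidRep.2.toM.eval v at this
    rwa [LTerm.eval_toM, LTerm.eval_toM] at this
  obtain ⟨T, _, ρ, hT, hsup, hsurj, hTnc⟩ := exists_tot_quot (rp_of_lholds hrep) hnc
  have hTs : Group.IsSolvable T := Group.isSolvable_of_surjective hsurj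
  rcases mem_or_dual hVc.1 hG hT ρ (map_one ρ) (map_mul ρ) (map_inv ρ) hsup hsurj with h | h
  · by_cases hTm : Metab T
    · exact hM₀ (met_of_cover hVc h hTnc hTm hK₀)
    · exact not_solv hVc h hT hTm hTs
  · by_cases hTm : Metab T
    · exact hM₀ (met_of_cover hVc h (dual_nonab hTnc) hTm hK₀)
    · exact not_solv hVc h (fun x y => hT (OrderDual.ofDual y) (OrderDual.ofDual x)) hTm hTs

theorem Sc.comm_of_n {p : ℕ} {κ : ℤ} {x y : Sc p κ} (hx : x.n = 0) (hy : y.n = 0) :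
    x * y = y * x := by
  ext i
  · rw [Sc.mul_f, Sc.mul_f, hx, hy]
    simp only [Int.cast_zero, sub_zero]
    ring
  · rw [Sc.mul_n, Sc.mul_n, hx, hy]

/-- The special m-groups are metabelian, hence so are all members of the corresponding
covers. -/
theorem special_metab {B : MGrp} (hB : B ∈ special) {G : MGrp} (hG : G ∈ mgen (MAb ∪ {B})) :
    Group.IsSolvable G.carrier := by
  apply solvable_of_metab
  rw [← holds_idMet]
  refine mem_mgen_holds hG (fun G hG => comm_idMet hG) ?_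
  have hsc : ∀ (p : ℕ) (κ : ℤ), MHolds (Sc p κ) idMet := by
    intro p κ
    rw [holds_idMet]
    intro x y z w
    exact Sc.comm_of_n (Sc.cm_n x y) (Sc.cm_n z w)
  rcases hB with ⟨p, hp, rfl⟩ | rfl | rfl | rfl
  · exact hsc p 0
  · exact hsc 2 1
  · change MHolds MN idMet
    rw [holds_idMet]
    intro x y z w
    exact holds_idNil.1 N_nil _ _ _
  · exact W_met

end Pool.Helper55.MG
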