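import Mathlib

/-! # m-groups, lattice-ordered groups, terms, identities, varieties -/

namespace Pool.Helper55.MG

/-- A lattice-ordered group: a group with a lattice order for which all left and right
translations are monotone. -/
class LGroup (G : Type*) extends Group G, Lattice G where
  mul_le_l : ∀ a b c : G, a ≤ b → c * a ≤ c * b
  mul_le_r : ∀ a b c : G, a ≤ b → a * c ≤ b * c

/-- An m-group: a lattice-ordered group with a group automorphism `st` of order at most two that
reverses the lattice operations. -/
class MGroup (G : Type*) extends LGroup G where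
  st : G → G
  st_st : ∀ x : G, st (st x) = x
  st_mul : ∀ x y : G, st (x * y) = st x * st y
  st_sup : ∀ x y : G, st (x ⊔ y) = st x ⊓ st y
  st_inf : ∀ x y : G, st (x ⊓ y) = st x ⊔ st y

export MGroup (st)

instance (priority := 100) LGroup.toMulLeftMono (G : Type*) [LGroup G] : MulLeftMono G :=
  ⟨fun c a b h => LGroup.mul_le_l a b c h⟩

instance (priority := 100) LGroup.toMulRightMono (G : Type*) [LGroup G] : MulRightMono G :=
  ⟨fun c a b h => LGroup.mul_le_r a b c h⟩

/-- Terms in the signature of lattice-ordered groups. -/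
inductive LTerm : Type
  | var : ℕ → LTerm
  | one : LTerm
  | mul : LTerm → LTerm → LTerm
  | inv : LTerm → LTerm
  | sup : LTerm → LTerm → LTerm
  | inf : LTerm → LTerm → LTerm

/-- Terms in the signature of m-groups. -/
inductive MTerm : Type
  | var : ℕ → MTerm
  | one : MTerm
  | mul : MTerm → MTerm → MTerm
  | inv : MTerm → MTerm
  | sup : MTerm → MTerm → MTerm
  | inf : MTerm → MTerm → MTerm
  | st : MTerm → MTerm

/-- Value of a term of lattice-ordered groups under an assignment. -/
def LTerm.eval {G : Type*} [LGroup G] (v : ℕ → G) : LTerm → G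
  | .var n => v n
  | .one => 1
  | .mul s t => s.eval v * t.eval v
  | .inv s => (s.eval v)⁻¹
  | .sup s t => s.eval v ⊔ t.eval v
  | .inf s t => s.eval v ⊓ t.eval v

/-- Value of a term of m-groups under an assignment. -/
def MTerm.eval {G : Type*} [MGroup G] (v : ℕ → G) : MTerm → G
  | .var n => v n
  | .one => 1
  | .mul s t => s.eval v * t.eval v
  | .inv s => (s.eval v)⁻¹
  | .sup s t => s.eval v ⊔ t.eval v
  | .inf s t => s.eval v ⊓ t.eval v
  | .st s => MGroup.st (s.eval v)

/-- The identity `e.1 = e.2` holds in the lattice-ordered group `G`. -/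
def LHolds (G : Type*) [LGroup G] (e : LTerm × LTerm) : Prop :=
  ∀ v : ℕ → G, e.1.eval v = e.2.eval v

/-- The identity `e.1 = e.2` holds in the m-group `G`. -/
def MHolds (G : Type*) [MGroup G] (e : MTerm × MTerm) : Prop :=
  ∀ v : ℕ → G, e.1.eval v = e.2.eval v

/-- Bundled lattice-ordered groups. -/
structure LGrp : Type 1 where
  carrier : Type
  [str : LGroup carrier]

/-- Bundled m-groups. -/
structure MGrp : Type 1 where
  carrier : Type
  [str : MGroup carrier]

attribute [instance] LGrp.str MGrp.str

/-- A variety of lattice-ordered groups: the class of all models of a set of identities. -/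
def IsLVariety (V : Set LGrp) : Prop :=
  ∃ E : Set (LTerm × LTerm), V = {H | ∀ e ∈ E, LHolds H.carrier e}

/-- A variety of m-groups: the class of all models of a set of identities. -/
def IsMVariety (X : Set MGrp) : Prop :=
  ∃ E : Set (MTerm × MTerm), X = {G | ∀ e ∈ E, MHolds G.carrier e}

/-- `X` covers `Y` in the lattice of varieties of lattice-ordered groups. -/
def LCovers (X Y : Set LGrp) : Prop :=
  IsLVariety X ∧ IsLVariety Y ∧ Y ⊂ X ∧ ∀ Z, IsLVariety Z → Y ⊂ Z → ¬ Z ⊂ X

/-- `X` covers `Y` in the lattice of varieties of m-groups. -/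
def MCovers (X Y : Set MGrp) : Prop :=
  IsMVariety X ∧ IsMVariety Y ∧ Y ⊂ X ∧ ∀ Z, IsMVariety Z → Y ⊂ Z → ¬ Z ⊂ X

/-- The variety of lattice-ordered groups generated by a class. -/
def lgen (K : Set LGrp) : Set LGrp :=
  {H | ∀ e, (∀ H' ∈ K, LHolds H'.carrier e) → LHolds H.carrier e}

/-- The variety of m-groups generated by a class. -/
def mgen (K : Set MGrp) : Set MGrp :=
  {G | ∀ e, (∀ G' ∈ K, MHolds G'.carrier e) → MHolds G.carrier e}

/-- The class of abelian lattice-ordered groups. -/
def LAb : Set LGrp := {H | ∀ x y : H.carrier, x * y = y * x}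

/-- The class of abelian m-groups. -/
def MAb : Set MGrp := {G | ∀ x y : G.carrier, x * y = y * x}

end Pool.Helper55.MG
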