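import Pool.Agent.Helper55.MG.Ort

/-! # Coordinates and the embedding criterion for `S(p, κ)` -/

set_option linter.unusedVariables false

namespace Pool.Helper55.MG

section lgroup

variable {G : Type*} [LGroup G]

theorem one_le_zpow_of {x : G} (hx : 1 ≤ x) {n : ℤ} (hn : 0 ≤ n) : 1 ≤ x ^ n := by
  obtain ⟨m, rfl⟩ := Int.eq_ofNat_of_zero_le hn
  rw [zpow_natCast]
  exact one_le_pow_of_one_le' hx m

theorem zpow_mono {x : G} (hx : 1 ≤ x) {m n : ℤ} (h : m ≤ n) : x ^ m ≤ x ^ n := by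
  have h1 : x ^ n = x ^ m * x ^ (n - m) := by rw [← zpow_add]; congr 1; ring
  rw [h1]
  exact le_mul_of_one_le_right' (one_le_zpow_of hx (by omega))

/-- `h` and `h'` agree up to elements orthogonal to `y`. -/
def Cl (y h h' : G) : Prop := ∃ c, Ort c y ∧ c⁻¹ * h' ≤ h ∧ h ≤ c * h'

theorem Cl.refl {y : G} (hy : 1 ≤ y) (h : G) : Cl y h h :=
  ⟨1, (ort_one hy).symm, by simp, by simp⟩

theorem Cl.symm {y h h' : G} (H : Cl y h h') : Cl y h' h := by
  obtain ⟨c, hc, h1, h2⟩ := H
  refine ⟨c, hc, ?_, ?_⟩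
  · exact inv_mul_le_iff_le_mul.2 h2
  · exact inv_mul_le_iff_le_mul.1 h1

theorem Cl.trans {y h h' h'' : G} (H : Cl y h h') (H' : Cl y h' h'') : Cl y h h'' := by
  obtain ⟨c, hc, h1, h2⟩ := H
  obtain ⟨d, hd, h3, h4⟩ := H'
  have hc1 := hc.left
  have hd1 := hd.left
  refine ⟨c * d * c, (((hc.symm.mul hd.symm).mul hc.symm)).symm, ?_, ?_⟩
  · calc (c * d * c)⁻¹ * h'' = c⁻¹ * (d⁻¹ * (c⁻¹ * h'')) := by group
      _ ≤ c⁻¹ * (d⁻¹ * h'') := by
          refine mul_le_mul_right (mul_le_mul_right ?_ _) _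
          exact mul_le_of_le_one_left' (inv_le_one'.2 hc1)
      _ ≤ c⁻¹ * h' := mul_le_mul_right h3 _
      _ ≤ h := h1
  · calc h ≤ c * h' := h2
      _ ≤ c * (d * h'') := mul_le_mul_right h4 _
      _ ≤ c * (d * (c * h'')) := by
          refine mul_le_mul_right (mul_le_mul_right ?_ _) _
          exact le_mul_of_one_le_left' hc1
      _ = c * d * c * h'' := by group

theorem Cl.mul_right {y h h' : G} (H : Cl y h h') (g : G) : Cl y (h * g) (h' * g) := by
  obtain ⟨c, hc, h1, h2⟩ := H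
  refine ⟨c, hc, ?_, ?_⟩
  · rw [← mul_assoc]; exact mul_le_mul_left h1 _
  · rw [← mul_assoc]; exact mul_le_mul_left h2 _

theorem Cl.mul_left {y h h' : G} (H : Cl y h h') (g : G) :
    Cl (g * y * g⁻¹) (g * h) (g * h') := by
  obtain ⟨c, hc, h1, h2⟩ := H
  refine ⟨g * c * g⁻¹, (conj_ort g).2 hc, ?_, ?_⟩
  · calc (g * c * g⁻¹)⁻¹ * (g * h') = g * (c⁻¹ * h') := by group
      _ ≤ g * h := mul_le_mul_right h1 _
  · calc g * h ≤ g * (c * h') := mul_le_mul_right h2 _
      _ = (g * c * g⁻¹) * (g * h') := by group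

theorem Cl.sup {y h h' g g' : G} (H : Cl y h h') (H' : Cl y g g') :
    Cl y (h ⊔ g) (h' ⊔ g') := by
  obtain ⟨c, hc, h1, h2⟩ := H
  obtain ⟨d, hd, h3, h4⟩ := H'
  refine ⟨c ⊔ d, (hc.symm.sup hd.symm).symm, ?_, ?_⟩
  · rw [mul_sup]
    refine sup_le_sup (le_trans ?_ h1) (le_trans ?_ h3)
    · exact mul_le_mul_left (inv_le_inv_iff.2 le_sup_left) _
    · exact mul_le_mul_left (inv_le_inv_iff.2 le_sup_right) _
  · rw [mul_sup]
    refine sup_le_sup (h2.trans ?_) (h4.trans ?_)
    · exact mul_le_mul_left le_sup_left _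
    · exact mul_le_mul_left le_sup_right _

theorem Cl.inv {y h h' : G} (H : Cl y h h') : Cl (h'⁻¹ * y * h') h⁻¹ h'⁻¹ := by
  obtain ⟨c, hc, h1, h2⟩ := H
  refine ⟨h'⁻¹ * c * h', ?_, ?_, ?_⟩
  · have := (conj_ort h'⁻¹).2 hc
    rwa [inv_inv] at this
  · calc (h'⁻¹ * c * h')⁻¹ * h'⁻¹ = (c * h')⁻¹ := by group
      _ ≤ h⁻¹ := inv_le_inv_iff.2 h2
  · calc h⁻¹ ≤ (c⁻¹ * h')⁻¹ := inv_le_inv_iff.2 h1
      _ = (h'⁻¹ * c * h') * h'⁻¹ := by group

/-- `h` has coordinates `(l, k)` at the place `j`. -/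
def Coord (s v : G) (j : ℤ) (h : G) (l k : ℤ) : Prop :=
  Cl (cz s j v) h ((cz s j v) ^ l * s ^ k)

variable {s v : G}

theorem Coord.one (hv : 1 ≤ v) (j : ℤ) : Coord s v j 1 0 0 := by
  unfold Coord; rw [zpow_zero, zpow_zero, mul_one]; exact Cl.refl (one_le_cz _ _ hv) _

theorem conj_aux (s v : G) (j l k : ℤ) :
    ((cz s j v) ^ l * s ^ k) * cz s (j - k) v * ((cz s j v) ^ l * s ^ k)⁻¹ = cz s j v := by
  have h1 : ((cz s j v) ^ l * s ^ k) * cz s (j - k) v * ((cz s j v) ^ l * s ^ k)⁻¹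
      = (cz s j v) ^ l * cz s k (cz s (j - k) v) * ((cz s j v) ^ l)⁻¹ := by
    unfold cz; group
  rw [h1, cz_cz, add_sub_cancel]
  group

theorem Coord.mul {j l k l' k' : ℤ} {h h' : G} (H : Coord s v j h l k)
    (H' : Coord s v (j - k) h' l' k') : Coord s v j (h * h') (l + l') (k + k') := by
  unfold Coord at *
  have h1 := H.mul_right h'
  have h2 := H'.mul_left ((cz s j v) ^ l * s ^ k)
  rw [conj_aux] at h2
  have h3 := h1.trans h2
  have h4 : (cz s j v) ^ l * s ^ k * (cz s (j - k) v ^ l' * s ^ k')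
      = (cz s j v) ^ (l + l') * s ^ (k + k') := by
    have h5 : s ^ k * cz s (j - k) v ^ l' = cz s j v ^ l' * s ^ k := by
      have : cz s j v ^ l' = s ^ k * cz s (j - k) v ^ l' * (s ^ k)⁻¹ := by
        rw [← cz_zpow, ← cz_zpow]
        have : cz s j (v ^ l') = cz s k (cz s (j - k) (v ^ l')) := by
          rw [cz_cz, add_sub_cancel]
        rw [this]; rfl
      rw [this]; group
    calc (cz s j v) ^ l * s ^ k * (cz s (j - k) v ^ l' * s ^ k')
        = (cz s j v) ^ l * (s ^ k * cz s (j - k) v ^ l') * s ^ k' := by group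
      _ = _ := by rw [h5, zpow_add, zpow_add]; group
  rwa [h4] at h3

theorem Coord.inv {j l k : ℤ} {h : G} (H : Coord s v j h l k) :
    Coord s v (j - k) h⁻¹ (-l) (-k) := by
  unfold Coord at *
  have h1 := H.inv
  have h2 : ((cz s j v) ^ l * s ^ k)⁻¹ * cz s j v * ((cz s j v) ^ l * s ^ k)
      = cz s (j - k) v := by
    have := conj_aux s v j l k
    have h3 : cz s (j - k) v = ((cz s j v) ^ l * s ^ k)⁻¹ *
      (((cz s j v) ^ l * s ^ k) * cz s (j - k) v * ((cz s j v) ^ l * s ^ k)⁻¹) *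
        ((cz s j v) ^ l * s ^ k) := by group
    rw [h3, this]
  rw [h2] at h1
  have h4 : ((cz s j v) ^ l * s ^ k)⁻¹ = cz s (j - k) v ^ (-l) * s ^ (-k) := by
    have h5 : cz s (j - k) v ^ (-l) = s ^ (-k) * cz s j v ^ (-l) * (s ^ (-k))⁻¹ := by
      rw [← cz_zpow, ← cz_zpow]
      have : cz s (j - k) (v ^ (-l)) = cz s (-k) (cz s j (v ^ (-l))) := by
        rw [cz_cz]; congr 1; ring
      rw [this]; rfl
    rw [h5, zpow_neg, zpow_neg]; group
  rwa [h4] at h1

theorem Coord.sup (hs : 1 ≤ s) (hv : 1 ≤ v) (hsv : Ort (cz s 1 v) v) {j l k l' k' : ℤ}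
    {h h' : G} (H : Coord s v j h l k) (H' : Coord s v j h' l' k') :
    Coord s v j (h ⊔ h') (if k < k' then l' else if k' < k then l else max l l')
      (max k k') := by
  unfold Coord at *
  have h1 := H.sup H'
  have hy : ∀ m : ℤ, (cz s j v) ^ m ≤ s := by
    intro m
    have h2 : v ^ m ≤ s := by
      refine zpow_le_of_ort hs hv ?_ m
      simpa [cz] using hsv
    have h3 := cz_mono s j h2
    rw [cz_zpow] at h3
    have h4 : cz s j s = s := by
      unfold cz
      have : s ^ j * s = s * s ^ j := ((Commute.refl s).zpow_left j).eq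
      rw [this]; group
    rwa [h4] at h3
  have hsk : ∀ m : ℤ, 0 < m → s ≤ s ^ m := by
    intro m hm
    obtain ⟨n, rfl⟩ := Int.eq_ofNat_of_zero_le hm.le
    rw [zpow_natCast]
    exact le_self_pow hs (by omega)
  have hkey : ∀ a b a' b' : ℤ, b < b' →
      (cz s j v) ^ a * s ^ b ⊔ (cz s j v) ^ a' * s ^ b' = (cz s j v) ^ a' * s ^ b' := by
    intro a b a' b' hb
    refine sup_eq_right.2 ?_
    have h2 : (cz s j v) ^ (a - a') ≤ s ^ (b' - b) := (hy _).trans (hsk _ (by omega))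
    calc (cz s j v) ^ a * s ^ b = (cz s j v) ^ a' * (cz s j v) ^ (a - a') * s ^ b := by
          rw [← zpow_add]; congr 2; ring
      _ ≤ (cz s j v) ^ a' * s ^ (b' - b) * s ^ b :=
          mul_le_mul_left (mul_le_mul_right h2 _) _
      _ = (cz s j v) ^ a' * s ^ b' := by rw [mul_assoc, ← zpow_add]; congr 2; ring
  rcases lt_trichotomy k k' with hk | hk | hk
  · rw [if_pos hk, max_eq_right hk.le]
    rwa [hkey _ _ _ _ hk] at h1
  · subst hk
    rw [if_neg (lt_irrefl _), if_neg (lt_irrefl _), max_self]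
    have hy1 : 1 ≤ cz s j v := one_le_cz _ _ hv
    have h2 : (cz s j v) ^ l ⊔ (cz s j v) ^ l' = (cz s j v) ^ (max l l') := by
      rcases le_total l l' with hl | hl
      · rw [max_eq_right hl]
        exact sup_eq_right.2 (zpow_mono hy1 hl)
      · rw [max_eq_left hl]
        exact sup_eq_left.2 (zpow_mono hy1 hl)
    rwa [← sup_mul, h2] at h1
  · rw [if_neg (by omega), if_pos hk, max_eq_left hk.le]
    rwa [sup_comm ((cz s j v) ^ l * s ^ k), hkey _ _ _ _ hk] at h1

theorem Coord.unique (hs : 1 ≤ s) (hv : 1 ≤ v) (hv1 : v ≠ 1) (hsv : Ort (cz s 1 v) v)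
    {j l k l' k' : ℤ} {h : G} (H : Coord s v j h l k) (H' : Coord s v j h l' k') :
    l = l' ∧ k = k' := by
  have h0 : ∀ m : ℤ, v ^ m ≤ s := fun m => by
    refine zpow_le_of_ort hs hv ?_ m
    simpa [cz] using hsv
  have hy : ∀ m : ℤ, (cz s j v) ^ m ≤ s := by
    intro m
    have h3 := cz_mono s j (h0 m)
    rw [cz_zpow] at h3
    have h4 : cz s j s = s := by
      unfold cz
      have : s ^ j * s = s * s ^ j := ((Commute.refl s).zpow_left j).eq
      rw [this]; group
    rwa [h4] at h3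
  have hsk : ∀ m : ℤ, 0 < m → s ≤ s ^ m := by
    intro m hm
    obtain ⟨n, rfl⟩ := Int.eq_ofNat_of_zero_le hm.le
    rw [zpow_natCast]
    exact le_self_pow hs (by omega)
  have hy1 : 1 ≤ cz s j v := one_le_cz _ _ hv
  have hyne : cz s j v ≠ 1 := by
    intro h1; apply hv1
    rw [← cz_one s j] at h1
    exact cz_injective s j h1
  -- main claim
  have key : ∀ a b a' b' : ℤ, Cl (cz s j v) ((cz s j v) ^ a * s ^ b)
      ((cz s j v) ^ a' * s ^ b') → ¬ b' < b ∧ (b = b' → ¬ a' < a) := by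
    intro a b a' b' hC
    obtain ⟨c, hc, -, h2⟩ := hC
    have h3 : (cz s j v) ^ a * s ^ (b - b') * (cz s j v) ^ (-a') ≤ c := by
      have h4 := mul_le_mul_left h2 (((cz s j v) ^ a' * s ^ b')⁻¹)
      rw [mul_assoc c, mul_inv_cancel, mul_one] at h4
      refine le_trans (le_of_eq ?_) h4
      rw [zpow_sub, zpow_neg]; group
    constructor
    · intro hb
      have h5 : cz s j v ≤ c := by
        calc cz s j v = (cz s j v) ^ a * (cz s j v) ^ (1 - a + a') * (cz s j v) ^ (-a') := by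
              rw [← zpow_add, ← zpow_add]
              have : a + (1 - a + a') + -a' = 1 := by ring
              rw [this, zpow_one]
          _ ≤ (cz s j v) ^ a * s ^ (b - b') * (cz s j v) ^ (-a') :=
              mul_le_mul_left (mul_le_mul_right ((hy _).trans (hsk _ (by omega))) _) _
          _ ≤ c := h3
      exact hyne (hc.symm.of_le h5)
    · rintro rfl hab
      rw [sub_self, zpow_zero, mul_one, ← zpow_add] at h3
      have h5 : cz s j v ≤ c := by
        refine le_trans ?_ h3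
        have := zpow_mono hy1 (show (1 : ℤ) ≤ a + -a' by omega)
        rwa [zpow_one] at this
      exact hyne (hc.symm.of_le h5)
  have h1 := H.symm.trans H'
  have h2 := H'.symm.trans H
  have k1 := key _ _ _ _ h1
  have k2 := key _ _ _ _ h2
  have hk : k = k' := by omega
  refine ⟨?_, hk⟩
  have := k1.2 hk
  have := k2.2 hk.symm
  omega

/-- Products over a list of places. -/
theorem coord_list (hv : 1 ≤ v) (z : ℤ → ℤ) (j : ℤ) (i₀ : ℤ) (hi₀ : cz s i₀ v = cz s j v)
    (I : List ℤ) (hI : I.Nodup) (hO : ∀ i ∈ I, i ≠ i₀ → Ort (cz s i v) (cz s j v)) :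
    (i₀ ∈ I → Cl (cz s j v) (I.map (fun i => (cz s i v) ^ (z i))).prod
      ((cz s j v) ^ (z i₀))) ∧
    (i₀ ∉ I → Cl (cz s j v) (I.map (fun i => (cz s i v) ^ (z i))).prod 1) := by
  have hy1 : 1 ≤ cz s j v := one_le_cz _ _ hv
  have hfac : ∀ x : G, Ort x (cz s j v) → ∀ m : ℤ, ∀ g : G, Cl (cz s j v) (x ^ m * g) g := by
    intro x hx m g
    have hx1 := hx.left
    have hxm : Ort (x ^ m.natAbs) (cz s j v) := (hx.symm.pow_right _).symm
    refine ⟨x ^ m.natAbs, hxm, ?_, ?_⟩
    · rcases Int.natAbs_eq m with h | h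
      · refine mul_le_mul_left ?_ _
        rw [← zpow_natCast, ← zpow_neg]
        exact zpow_mono hx1 (by omega)
      · refine mul_le_mul_left ?_ _
        rw [← zpow_natCast, ← zpow_neg]
        exact zpow_mono hx1 (by omega)
    · refine mul_le_mul_left ?_ _
      rw [← zpow_natCast]
      exact zpow_mono hx1 (by omega)
  induction I with
  | nil => exact ⟨by simp, fun _ => by simpa using Cl.refl hy1 1⟩
  | cons a I ih =>
    have hnd := List.nodup_cons.1 hI
    have ih' := ih hnd.2 (fun i hi => hO i (List.mem_cons_of_mem _ hi))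
    rw [List.map_cons, List.prod_cons]
    constructor
    · intro hmem
      by_cases ha : a = i₀
      · subst ha
        have h1 := (ih'.2 hnd.1).mul_left ((cz s j v) ^ (z a))
        have h2 : (cz s j v) ^ (z a) * cz s j v * ((cz s j v) ^ (z a))⁻¹ = cz s j v := by group
        rw [h2, mul_one] at h1
        rw [hi₀]
        exact h1
      · have hmem' : i₀ ∈ I := by
          rcases List.mem_cons.1 hmem with h | h
          · exact absurd h.symm ha
          · exact h
        exact (hfac _ (hO a List.mem_cons_self ha) _ _).trans (ih'.1 hmem')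
    · intro hmem
      have ha : a ≠ i₀ := fun h => hmem (h ▸ List.mem_cons_self)
      have hmem' : i₀ ∉ I := fun h => hmem (List.mem_cons_of_mem _ h)
      exact (hfac _ (hO a List.mem_cons_self ha) _ _).trans (ih'.2 hmem')

end lgroup

section mgroup

variable {G : Type*} [MGroup G] {s v : G}

theorem Cl.phi {y h h' : G} (H : Cl y h h') :
    Cl (phi h' * phi y * (phi h')⁻¹) (phi h) (phi h') := by
  obtain ⟨c, hc, h1, h2⟩ := H
  refine ⟨MG.phi h' * MG.phi c * (MG.phi h')⁻¹, ?_, ?_, ?_⟩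
  · exact (conj_ort _).2 (oa_phi.ort.2 hc)
  · calc (MG.phi h' * MG.phi c * (MG.phi h')⁻¹)⁻¹ * MG.phi h' = MG.phi (c⁻¹ * h') := by
          rw [phi_mul, phi_inv]; group
      _ ≤ MG.phi h := phi_mono h1
  · calc MG.phi h ≤ MG.phi (c * h') := phi_mono h2
      _ = (MG.phi h' * MG.phi c * (MG.phi h')⁻¹) * MG.phi h' := by
          rw [phi_mul]; group

theorem Coord.phi {κ : ℤ} (hs : phi s = s) (hv : phi v = cz s (-κ) v) {j l k : ℤ} {h : G}
    (H : Coord s v j h l k) : Coord s v (k - j - κ) (MG.phi h) l k := by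
  unfold Coord at *
  have h1 := Cl.phi H
  have hy : MG.phi (cz s j v) = cz s (-j - κ) v := by
    rw [phi_cz hs, hv, cz_cz]; congr 1
  have h2 : MG.phi ((cz s j v) ^ l * s ^ k) = cz s (k - j - κ) v ^ l * s ^ k := by
    rw [phi_mul, phi_zpow, phi_zpow, hs, hy]
    have : cz s (k - j - κ) v ^ l = s ^ k * cz s (-j - κ) v ^ l * (s ^ k)⁻¹ := by
      rw [← cz_zpow, ← cz_zpow]
      have : cz s (k - j - κ) (v ^ l) = cz s k (cz s (-j - κ) (v ^ l)) := by
        rw [cz_cz]; congr 1; ring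
      rw [this]; rfl
    rw [this]; group
  rw [h2, hy] at h1
  have h3 : cz s (k - j - κ) v ^ l * s ^ k * cz s (-j - κ) v *
      (cz s (k - j - κ) v ^ l * s ^ k)⁻¹ = cz s (k - j - κ) v := by
    have := conj_aux s v (k - j - κ) l k
    rwa [show k - j - κ - k = -j - κ by ring] at this
  rwa [h3] at h1

theorem Coord.st {κ : ℤ} (hs : MG.phi s = s) (hv : MG.phi v = cz s (-κ) v) {j l k : ℤ} {h : G}
    (H : Coord s v j h l k) : Coord s v (-j - κ) (MGroup.st h) (-l) (-k) := by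
  have h1 := (Coord.phi hs hv H).inv
  rw [show k - j - κ - k = -j - κ by ring] at h1
  have h2 : (MG.phi h)⁻¹ = MGroup.st h := by unfold MG.phi; rw [inv_inv]
  rwa [h2] at h1

/-- A configuration in an m-group which approximates `S(p, κ)` up to level `K`. -/
def Conf (G : Type*) [MGroup G] (p : ℕ) (κ : ℤ) (K : ℕ) : Prop :=
  ∃ s v : G, ∃ I : List ℤ, 1 ≤ s ∧ phi s = s ∧ 1 ≤ v ∧ v ≠ 1 ∧ phi v = cz s (-κ) v ∧
    I.Nodup ∧ (∀ i ∈ I, ∀ j ∈ I, i ≠ j → Ort (cz s i v) (cz s j v)) ∧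
    ∀ j : ℤ, |j| ≤ K → ∃ i ∈ I, (i : ZMod p) = (j : ZMod p) ∧ cz s i v = cz s j v

end mgroup

open Filter

/-- If configurations of all levels exist in models of an identity, then the identity holds in
`S(p, κ)`. -/
theorem holds_of_conf {p : ℕ} (hp : 2 ≤ p) {κ : ℤ} {e : MTerm × MTerm}
    (h : ∀ K : ℕ, ∃ G : MGrp, MHolds G.carrier e ∧ Conf G.carrier p κ K) :
    MHolds (Sc p κ) e := by
  choose G hG hC using h
  choose s v I hs hs' hv hv1 hv' hI hO hrep using hC
  have h01 : ((0 : ℤ) : ZMod p) ≠ ((1 : ℤ) : ZMod p) := by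
    have : Fact (1 < p) := ⟨by omega⟩
    simp
  -- at level at least one
  have hsv : ∀ K, 1 ≤ K → Ort (cz (s K) 1 (v K)) (v K) := by
    intro K hK
    obtain ⟨i, hi, hi1, hi2⟩ := hrep K 1 (by simpa using hK)
    obtain ⟨i', hi', hi1', hi2'⟩ := hrep K 0 (by simp)
    have hne : i ≠ i' := by
      rintro rfl
      exact h01 (hi1'.symm.trans hi1)
    have := hO K i hi i' hi' hne
    rwa [hi2, hi2', cz_zero] at this
  refine transfer_seq (A := fun K => (G K).carrier)
    (fun a b => ∀ d : ℕ, ∀ᶠ K in atTop, ∀ j : ℤ, |j| ≤ d →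
      Coord (s K) (v K) j (a K) (b.f j) b.n) ?_ ?_ ?_ ?_ ?_ ?_ ?_ hG
  · intro d
    exact Eventually.of_forall fun K j _ => Coord.one (hv K) j
  · intro a b a' b' h h' d
    filter_upwards [h (d + b.n.natAbs), h' (d + b.n.natAbs)] with K hK hK' j hj
    have h1 := hK j (by push_cast; have := abs_nonneg b.n; omega)
    have h2 := hK' (j - b.n) (by
      push_cast
      have : |b.n| = (b.n.natAbs : ℤ) := Int.abs_eq_natAbs _
      calc |j - b.n| ≤ |j| + |b.n| := abs_sub _ _
        _ ≤ _ := by omega)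
    have h3 := Coord.mul h1 h2
    rw [Sc.mul_f, Sc.mul_n]
    rwa [Int.cast_sub] at h3
  · intro a b h d
    filter_upwards [h (d + b.n.natAbs)] with K hK j hj
    have h1 := hK (j + b.n) (by
      push_cast
      have : |b.n| = (b.n.natAbs : ℤ) := Int.abs_eq_natAbs _
      calc |j + b.n| ≤ |j| + |b.n| := abs_add_le _ _
        _ ≤ _ := by omega)
    have h2 := Coord.inv h1
    rw [add_sub_cancel_right] at h2
    rw [Sc.inv_f, Sc.inv_n]
    rwa [Int.cast_add] at h2
  · intro a b a' b' h h' d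
    filter_upwards [h d, h' d, eventually_ge_atTop 1] with K hK hK' hK1 j hj
    have h1 := Coord.sup (hs K) (hv K) (hsv K hK1) (hK j hj) (hK' j hj)
    rw [Sc.sup_def]
    rcases lt_trichotomy b.n b'.n with hn | hn | hn
    · rw [if_pos hn] at h1 ⊢
      rwa [max_eq_right hn.le] at h1
    · rw [if_neg (by omega), if_neg (by omega)] at h1 ⊢
      rwa [hn, max_self, ← hn] at h1
    · rw [if_neg (by omega), if_pos hn] at h1 ⊢
      rwa [max_eq_left hn.le] at h1
  · intro a b h d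
    filter_upwards [h (d + κ.natAbs)] with K hK j hj
    have h1 := hK (-j - κ) (by
      push_cast
      have : |κ| = (κ.natAbs : ℤ) := Int.abs_eq_natAbs _
      calc |-j - κ| ≤ |-j| + |κ| := abs_sub _ _
        _ ≤ _ := by rw [abs_neg]; omega)
    have h2 := Coord.st (hs' K) (hv' K) h1
    rw [show -(-j - κ) - κ = j by ring] at h2
    rw [Sc.st_f, Sc.st_n]
    have h3 : ((-j - κ : ℤ) : ZMod p) = -(j : ZMod p) - κ := by push_cast; ring
    rwa [h3] at h2
  · intro a b b' h h'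
    have key : ∀ i : ZMod p, b.f i = b'.f i ∧ b.n = b'.n := by
      intro i
      obtain ⟨j, rfl⟩ := ZMod.intCast_surjective i
      obtain ⟨K, hK, hK', hK1⟩ :=
        ((h j.natAbs).and ((h' j.natAbs).and (eventually_ge_atTop 1))).exists
      exact Coord.unique (hs K) (hv K) (hv1 K) (hsv K hK1)
        (hK j (by rw [Int.abs_eq_natAbs])) (hK' j (by rw [Int.abs_eq_natAbs]))
    ext i
    · exact (key i).1
    · exact (key 0).2
  · intro b
    refine ⟨fun K => ((I K).map (fun i => (cz (s K) i (v K)) ^ (b.f i))).prod * (s K) ^ b.n, ?_⟩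
    intro d
    filter_upwards [eventually_ge_atTop d] with K hK j hj
    obtain ⟨i₀, hi₀, hi1, hi2⟩ := hrep K j (by omega)
    have h1 := (coord_list (hv K) (fun i => b.f i) j i₀ hi2 (I K) (hI K) (by
      intro i hi hne
      have := hO K i hi i₀ hi₀ hne
      rwa [hi2] at this)).1 hi₀
    have h2 := h1.mul_right (s K ^ b.n)
    unfold Coord
    rw [← hi1]
    exact h2

end Pool.Helper55.MG
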