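import Pool.Agent.Helper55.MG.SetW

/-! # Identities separating the special m-groups -/

set_option linter.unusedVariables false

namespace Pool.Helper55.MG

/-- commutator term -/
def MTerm.cm (s t : MTerm) : MTerm := .mul (.mul (.mul s t) (.inv s)) (.inv t)

/-- power term -/
def MTerm.npow (s : MTerm) : ℕ → MTerm
  | 0 => .one
  | n + 1 => .mul (MTerm.npow s n) s

/-- absolute value term -/
def MTerm.ab (s : MTerm) : MTerm := .sup s (.inv s)

theorem MTerm.eval_cm {G : Type*} [MGroup G] (v : ℕ → G) (s t : MTerm) :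
    (MTerm.cm s t).eval v = s.eval v * t.eval v * (s.eval v)⁻¹ * (t.eval v)⁻¹ := rfl

theorem MTerm.eval_npow {G : Type*} [MGroup G] (v : ℕ → G) (s : MTerm) (n : ℕ) :
    (MTerm.npow s n).eval v = (s.eval v) ^ n := by
  induction n with
  | zero => rw [pow_zero]; rfl
  | succ n ih => rw [pow_succ, ← ih]; rfl

/-- assignment of four values -/
def asg {G : Type*} (x y z w : G) : ℕ → G
  | 0 => x
  | 1 => y
  | 2 => z
  | _ => w

/-- `x ^ p` and `y ^ p` commute. -/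
def idPow (p : ℕ) : MTerm × MTerm :=
  (.mul (MTerm.npow (.var 0) p) (MTerm.npow (.var 1) p),
    .mul (MTerm.npow (.var 1) p) (MTerm.npow (.var 0) p))

theorem holds_idPow {G : Type*} [MGroup G] {p : ℕ} :
    MHolds G (idPow p) ↔ ∀ x y : G, x ^ p * y ^ p = y ^ p * x ^ p := by
  constructor
  · intro h x y
    have := h (asg x y y y)
    unfold idPow at this
    simpa [MTerm.eval, MTerm.eval_npow, asg] using this
  · intro h v
    unfold idPow
    simp only [MTerm.eval, MTerm.eval_npow]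
    exact h _ _

/-- nilpotency of class two -/
def idNil : MTerm × MTerm :=
  (.mul (MTerm.cm (.var 0) (.var 1)) (.var 2), .mul (.var 2) (MTerm.cm (.var 0) (.var 1)))

theorem holds_idNil {G : Type*} [MGroup G] :
    MHolds G idNil ↔ ∀ x y z : G, (x * y * x⁻¹ * y⁻¹) * z = z * (x * y * x⁻¹ * y⁻¹) := by
  constructor
  · intro h x y z
    exact h (asg x y z z)
  · intro h v
    exact h (v 0) (v 1) (v 2)

/-- metabelian identity -/
def idMet : MTerm × MTerm :=
  (.mul (MTerm.cm (.var 0) (.var 1)) (MTerm.cm (.var 2) (.var 3)),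
    .mul (MTerm.cm (.var 2) (.var 3)) (MTerm.cm (.var 0) (.var 1)))

theorem holds_idMet {G : Type*} [MGroup G] : MHolds G idMet ↔ Metab G := by
  constructor
  · intro h x y z w
    exact h (asg x y z w)
  · intro h v
    exact h (v 0) (v 1) (v 2) (v 3)

/-- the inequality separating `W` -/
def idW : MTerm × MTerm :=
  let u := MTerm.ab (MTerm.cm (.var 0) (.var 1))
  let z := MTerm.sup (MTerm.ab (.var 0)) (MTerm.ab (.var 1))
  let r := MTerm.sup (.mul (.mul z u) (.inv z)) (.mul (.mul (.inv z) u) z)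
  (.sup (.mul u u) r, r)

/-- `U * U ≤ Z * U * Z⁻¹ ⊔ Z⁻¹ * U * Z` for `U = |[x, y]|`, `Z = |x| ⊔ |y|`. -/
def WIneq (G : Type*) [LGroup G] : Prop :=
  ∀ x y : G, |x * y * x⁻¹ * y⁻¹|ₘ * |x * y * x⁻¹ * y⁻¹|ₘ ≤
    (|x|ₘ ⊔ |y|ₘ) * |x * y * x⁻¹ * y⁻¹|ₘ * (|x|ₘ ⊔ |y|ₘ)⁻¹ ⊔
      (|x|ₘ ⊔ |y|ₘ)⁻¹ * |x * y * x⁻¹ * y⁻¹|ₘ * (|x|ₘ ⊔ |y|ₘ)

theorem holds_idW {G : Type*} [MGroup G] : MHolds G idW ↔ WIneq G := by
  constructor
  · intro h x y
    exact sup_eq_right.1 (h (asg x y y y))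
  · intro h v
    exact sup_eq_right.2 (h (v 0) (v 1))

/-- `φ [x, y] = [x, y]` -/
def idK0 : MTerm × MTerm := (.inv (.st (MTerm.cm (.var 0) (.var 1))), MTerm.cm (.var 0) (.var 1))

/-- `φ [x, y] = [x, y]⁻¹` -/
def idK1 : MTerm × MTerm :=
  (.inv (.st (MTerm.cm (.var 0) (.var 1))), .inv (MTerm.cm (.var 0) (.var 1)))

theorem holds_idK0 {G : Type*} [MGroup G] :
    MHolds G idK0 ↔ ∀ x y : G, (st (x * y * x⁻¹ * y⁻¹))⁻¹ = x * y * x⁻¹ * y⁻¹ := by
  constructor
  · intro h x y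
    exact h (asg x y y y)
  · intro h v
    exact h (v 0) (v 1)

theorem holds_idK1 {G : Type*} [MGroup G] :
    MHolds G idK1 ↔ ∀ x y : G, (st (x * y * x⁻¹ * y⁻¹))⁻¹ = (x * y * x⁻¹ * y⁻¹)⁻¹ := by
  constructor
  · intro h x y
    exact h (asg x y y y)
  · intro h v
    exact h (v 0) (v 1)

/-! ### Commutative m-groups satisfy all of them -/

section comm

variable {G : Type*} [MGroup G] (hG : ∀ x y : G, x * y = y * x)

include hG

theorem comm_one (x y : G) : x * y * x⁻¹ * y⁻¹ = 1 := by rw [hG x y]; group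

theorem comm_idPow (p : ℕ) : MHolds G (idPow p) := holds_idPow.2 fun x y => hG _ _

theorem comm_idNil : MHolds G idNil := holds_idNil.2 fun x y z => hG _ _

theorem comm_idMet : MHolds G idMet := holds_idMet.2 fun x y z w => hG _ _

theorem comm_idW : MHolds G idW := holds_idW.2 fun x y => by
  rw [comm_one hG]; simp [mabs]

theorem comm_idK0 : MHolds G idK0 := holds_idK0.2 fun x y => by
  rw [comm_one hG, st_one, inv_one]

theorem comm_idK1 : MHolds G idK1 := holds_idK1.2 fun x y => by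
  rw [comm_one hG, st_one]

end comm

/-! ### `S(p, κ)` -/

namespace Sc

variable {p : ℕ} {κ : ℤ}

/-- the element `s` -/
def es : Sc p κ := ⟨fun _ => 0, 1⟩

/-- the element `e₀` -/
def e0 : Sc p κ := ⟨fun i => if i = 0 then 1 else 0, 0⟩

theorem pow_n (x : Sc p κ) (m : ℕ) : (x ^ m).n = m * x.n := by
  induction m with
  | zero => simp
  | succ m ih => rw [pow_succ, mul_n, ih]; push_cast; ring

theorem es_pow (m : ℕ) : (es : Sc p κ) ^ m = ⟨fun _ => 0, m⟩ := by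
  induction m with
  | zero => rfl
  | succ m ih =>
    rw [pow_succ, ih]
    ext i
    · simp [es]
    · simp [es]

theorem e0_pow (m : ℕ) : (e0 : Sc p κ) ^ m = ⟨fun i => if i = 0 then (m : ℤ) else 0, 0⟩ := by
  induction m with
  | zero => ext i <;> simp
  | succ m ih =>
    rw [pow_succ, ih]
    ext i
    · by_cases h : i = 0 <;> simp [e0, h]
    · simp [e0]

theorem holds_pow : MHolds (Sc p κ) (idPow p) := by
  rw [holds_idPow]
  intro x y
  ext i
  · rw [mul_f, mul_f, pow_n, pow_n]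
    push_cast
    rw [ZMod.natCast_self]
    ring_nf
  · rw [mul_n, mul_n]; ring

theorem not_holds_pow {q : ℕ} (hq : q ≠ 0) (hpq : ¬ p ∣ q) : ¬ MHolds (Sc p κ) (idPow q) := by
  rw [holds_idPow]
  intro h
  have h1 := h es e0
  rw [es_pow, e0_pow] at h1
  have h2 := congrArg (fun z : Sc p κ => z.f 0) h1
  simp only [mul_f] at h2
  have h3 : ¬ ((0 : ZMod p) - ((q : ℤ) : ZMod p) = 0) := by
    intro h4
    apply hpq
    rw [← ZMod.natCast_eq_zero_iff]
    simpa using h4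
  rw [if_neg h3] at h2
  simp at h2
  exact hq (by exact_mod_cast h2.symm)

theorem cm_f (x y : Sc p κ) (i : ZMod p) :
    (x * y * x⁻¹ * y⁻¹).f i = x.f i + y.f (i - x.n) - x.f (i - y.n) - y.f i := by
  simp only [mul_f, mul_n, inv_f, inv_n]
  push_cast
  have h1 : i - ((x.n : ZMod p) + y.n) + x.n = i - y.n := by ring
  have h2 : i - ((x.n : ZMod p) + y.n + -x.n) + y.n = i := by ring
  rw [h1, h2]; ring

theorem cm_n (x y : Sc p κ) : (x * y * x⁻¹ * y⁻¹).n = 0 := by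
  simp only [mul_n, inv_n]; ring

theorem cm_es_e0 (i : ZMod p) : ((es : Sc p κ) * e0 * es⁻¹ * e0⁻¹).f i =
    (if i = 1 then 1 else 0) - if i = 0 then 1 else 0 := by
  rw [cm_f]
  have h1 : (i - ((1 : ℤ) : ZMod p) = 0) = (i = 1) := by
    rw [Int.cast_one, sub_eq_zero]
  simp only [es, e0, h1]
  ring

theorem holds_K0 : MHolds (Sc 2 0) idK0 := by
  rw [holds_idK0]
  intro x y
  set c := x * y * x⁻¹ * y⁻¹ with hc
  have hn : c.n = 0 := cm_n x y
  ext i
  · rw [inv_f, st_f, st_n, hn]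
    simp only [neg_zero, Int.cast_zero, add_zero, sub_zero, neg_neg]
    rw [show -i = i from ZMod.neg_eq_self_mod_two i]
  · rw [inv_n, st_n, hn]; rfl

theorem zmod2 (i : ZMod 2) : i = 0 ∨ i = 1 := by
  fin_cases i
  · exact Or.inl rfl
  · exact Or.inr rfl

theorem holds_K1 : MHolds (Sc 2 1) idK1 := by
  rw [holds_idK1]
  intro x y
  have hn : (x * y * x⁻¹ * y⁻¹).n = 0 := cm_n x y
  have key : ∀ (X Y : ZMod 2 → ℤ) (a b i : ZMod 2),
      X (i + 1) + Y (i + 1 - a) - X (i + 1 - b) - Y (i + 1) =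
        -(X i + Y (i - a) - X (i - b) - Y i) := by
    intro X Y a b i
    have e1 : (1 : ZMod 2) + 1 = 0 := rfl
    have e3 : (0 : ZMod 2) - 1 = 1 := rfl
    rcases zmod2 a with rfl | rfl <;> rcases zmod2 b with rfl | rfl <;>
      rcases zmod2 i with rfl | rfl <;>
      simp only [e1, e3, zero_add, sub_zero, sub_self] <;> ring
  ext i
  · rw [inv_f, inv_f, st_f, st_n, hn]
    have e : -(i + (((-0 : ℤ)) : ZMod 2)) - ((1 : ℤ) : ZMod 2) = i + 1 := by
      rcases zmod2 i with rfl | rfl <;> rfl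
    rw [e, cm_f, cm_f, key]
    simp only [Int.cast_zero, add_zero]
    ring
  · rw [inv_n, inv_n, st_n, hn]; rfl

theorem not_holds_K1 : ¬ MHolds (Sc 2 0) idK1 := by
  rw [holds_idK1]
  intro h
  have h1 := congrArg (fun z : Sc 2 0 => z.f 0) (h es e0)
  have h2 := congrArg (fun z : Sc 2 0 => z.f 0) ((holds_idK0.1 holds_K0) es e0)
  rw [h1, inv_f, cm_n] at h2
  simp only [Int.cast_zero, add_zero] at h2
  rw [cm_es_e0] at h2
  simp at h2

theorem not_holds_K0 : ¬ MHolds (Sc 2 1) idK0 := by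
  rw [holds_idK0]
  intro h
  have h1 := congrArg (fun z : Sc 2 1 => z.f 0) (h es e0)
  have h2 := congrArg (fun z : Sc 2 1 => z.f 0) ((holds_idK1.1 holds_K1) es e0)
  rw [h1, inv_f, cm_n] at h2
  simp only [Int.cast_zero, add_zero] at h2
  rw [cm_es_e0] at h2
  simp at h2

theorem one_ne (hp : 2 ≤ p) : (1 : ZMod p) ≠ 0 := by
  have : Fact (1 < p) := ⟨by omega⟩
  exact one_ne_zero

theorem not_holds_nil (hp : 2 ≤ p) : ¬ MHolds (Sc p κ) idNil := by
  rw [holds_idNil]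
  intro h
  have h1 := congrArg (fun z : Sc p κ => z.f 1) (h es e0 es)
  simp only [mul_f (_ * _ * _ * _), cm_n] at h1
  rw [cm_es_e0, mul_f es, cm_es_e0] at h1
  have h10 := one_ne hp
  have h2 : ((1 : ZMod p) - ((es : Sc p κ).n : ZMod p)) = 0 := by simp [es]
  rw [h2] at h1
  simp [es, h10, h10.symm] at h1

theorem one_le_es : (1 : Sc p κ) ≤ es := Or.inl (by simp [es])

theorem not_holds_W (hp : 2 ≤ p) : ¬ MHolds (Sc p κ) idW := by
  rw [holds_idW]
  intro h
  have h10 := one_ne hp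
  have h1 := h es e0
  have hz : |(es : Sc p κ)|ₘ ⊔ |(e0 : Sc p κ)|ₘ = es := by
    rw [mabs_of_one_le one_le_es]
    refine sup_eq_left.2 ?_
    refine sup_le ?_ ?_
    · left; simp [es, e0]
    · left; simp [es, e0]
  rw [hz] at h1
  have hu : |(es : Sc p κ) * e0 * es⁻¹ * e0⁻¹|ₘ =
      ⟨fun i => (if i = 1 then 1 else 0) + if i = 0 then 1 else 0, 0⟩ := by
    unfold mabs
    rw [sup_def]
    rw [inv_n, cm_n, if_neg (by omega), if_neg (by omega)]
    ext i
    · change max _ _ = _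
      rw [inv_f, cm_n]
      simp only [Int.cast_zero, add_zero]
      rw [cm_es_e0]
      by_cases hi : i = 0
      · subst hi
        simp [h10.symm]
      · by_cases hi1 : i = 1
        · subst hi1; simp [h10]
        · simp [hi, hi1]
    · rfl
  rw [hu] at h1
  have hn1 : ∀ (U : Sc p κ), U.n = 0 → (es * U * es⁻¹).n = 0 := by
    intro U hU; simp [es, hU]
  rcases h1 with h1 | ⟨-, h1⟩
  · rw [sup_def, if_neg (by simp [es]), if_neg (by simp [es])] at h1
    simp [es] at h1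
  · have h2 := h1 0
    rw [sup_def, if_neg (by simp [es]), if_neg (by simp [es])] at h2
    simp only [mul_f, es, inv_f, mul_n] at h2
    have e1 : ((0 : ZMod p) - ((1 : ℤ) : ZMod p) = 1) → p = 2 := by
      intro h3
      have h4 : ((2 : ℕ) : ZMod p) = 0 := by
        push_cast at h3 ⊢
        have : (2 : ZMod p) = 1 - (0 - 1) := by ring
        rw [this, h3]; ring
      rw [ZMod.natCast_eq_zero_iff] at h4
      exact le_antisymm (Nat.le_of_dvd (by norm_num) h4) hp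
    have e2 : ¬ ((0 : ZMod p) - ((1 : ℤ) : ZMod p) = 0) := by
      intro h3
      apply h10
      have h4 : (1 : ZMod p) = -(0 - ((1 : ℤ) : ZMod p)) := by push_cast; ring
      rw [h4, h3, neg_zero]
    have e3 : ¬ ((0 : ZMod p) - ((-1 : ℤ) : ZMod p) = 0) := by
      intro h3
      apply h10
      have h4 : (1 : ZMod p) = (0 - ((-1 : ℤ) : ZMod p)) := by push_cast; ring
      rw [h4, h3]
    rw [if_neg e2] at h2
    simp only [Int.cast_zero, sub_zero, add_zero] at h2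
    norm_num [h10, h10.symm] at h2
    revert h2
    split_ifs <;> simp

end Sc

/-! ### `N` -/

/-- the element `a` of `N` -/
def nA : Dbl Heis := ⟨⟨1, 0, 0⟩, ⟨-1, 0, 0⟩⟩

/-- the element `k` of `N` -/
def nK : Dbl Heis := ⟨⟨0, 1, 0⟩, ⟨0, -1, 0⟩⟩

noncomputable def elA : MN := ⟨nA, ⟨rfl, rfl⟩⟩
noncomputable def elK : MN := ⟨nK, ⟨rfl, rfl⟩⟩

theorem MSub.val_pow {G : Type*} [MGroup G] {M : MSub G} (x : M.El) (n : ℕ) :
    (x ^ n).val = x.val ^ n := by
  induction n with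
  | zero => rw [pow_zero, pow_zero]; rfl
  | succ n ih => rw [pow_succ, pow_succ, MSub.val_mul, ih]

theorem Dbl.fst_pow {H : Type*} [LGroup H] (x : Dbl H) (n : ℕ) :
    (x ^ n).fst = x.fst ^ n := by
  induction n with
  | zero => rw [pow_zero, pow_zero]; rfl
  | succ n ih => rw [pow_succ, pow_succ, Dbl.mul_fst, ih]

theorem Heis.pow_n (x : Heis) (m : ℕ) : (x ^ m).n = m * x.n := by
  induction m with
  | zero => simp
  | succ m ih => rw [pow_succ, Heis.mul_n, ih]; push_cast; ring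

theorem Heis.pow_j (x : Heis) (m : ℕ) : (x ^ m).j = m * x.j := by
  induction m with
  | zero => simp
  | succ m ih => rw [pow_succ, Heis.mul_j, ih]; push_cast; ring

theorem Heis.mul_comm_iff (x y : Heis) : x * y = y * x ↔ x.n * y.j = y.n * x.j := by
  constructor
  · intro h
    have := congrArg Heis.l h
    simp only [Heis.mul_l] at this
    linarith
  · intro h
    ext
    · simp only [Heis.mul_n]; ring
    · simp only [Heis.mul_j]; ring
    · simp only [Heis.mul_l]; linarith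

theorem N_not_pow {q : ℕ} (hq : q ≠ 0) : ¬ MHolds MN (idPow q) := by
  rw [holds_idPow]
  intro h
  have h1 := congrArg (fun z : MN => z.val.fst) (h elA elK)
  simp only [MSub.val_mul, MSub.val_pow, Dbl.mul_fst, Dbl.fst_pow] at h1
  rw [Heis.mul_comm_iff, Heis.pow_n, Heis.pow_n, Heis.pow_j, Heis.pow_j] at h1
  simp [elA, elK, nA, nK] at h1
  exact hq h1

theorem Heis.nil (x y z : Heis) : (x * y * x⁻¹ * y⁻¹) * z = z * (x * y * x⁻¹ * y⁻¹) := by
  rw [Heis.mul_comm_iff]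
  simp only [Heis.mul_n, Heis.inv_n, Heis.mul_j, Heis.inv_j]
  ring

theorem N_nil : MHolds MN idNil := by
  rw [holds_idNil]
  intro x y z
  apply MSub.El.ext
  apply Dbl.ext
  · exact Heis.nil _ _ _
  · exact Heis.nil _ _ _

theorem N_noncomm : ∃ x y : MN, x * y ≠ y * x := by
  refine ⟨elA, elK, fun h => N_not_pow one_ne_zero (holds_idPow.2 ?_)⟩
  intro x y
  exfalso
  have h1 := congrArg (fun z : MN => z.val.fst) h
  simp only [MSub.val_mul, Dbl.mul_fst] at h1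
  rw [Heis.mul_comm_iff] at h1
  simp [elA, elK, nA, nK] at h1

theorem N_not_W : ¬ MHolds MN idW := by
  intro h
  rw [holds_idW] at h
  have hnil := holds_idNil.1 N_nil
  have h1 := h elA elK
  set c := elA * elK * elA⁻¹ * elK⁻¹ with hc
  have hcent : ∀ z : MN, |c|ₘ * z = z * |c|ₘ := by
    intro z
    unfold mabs
    have e1 : c * z = z * c := hnil _ _ _
    have e2 : c⁻¹ * z = z * c⁻¹ := ((show Commute c z from e1).inv_left).eq
    rw [sup_mul, mul_sup, e1, e2]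
  set z := |elA|ₘ ⊔ |elK|ₘ with hz
  have e1 : z * |c|ₘ * z⁻¹ = |c|ₘ := by rw [← hcent]; group
  have e2 : z⁻¹ * |c|ₘ * z = |c|ₘ := by rw [← hcent]; group
  rw [e1, e2, sup_idem] at h1
  have h2 : |c|ₘ ≤ 1 := by
    have := mul_le_mul_right h1 |c|ₘ⁻¹
    rwa [← mul_assoc, inv_mul_cancel, one_mul] at this
  have h3 : |c|ₘ = 1 := le_antisymm h2 (one_le_mabs c)
  have h4 : c = 1 := by
    refine le_antisymm ?_ ?_
    · rw [← h3]; exact le_mabs_self c
    · have := inv_le_mabs c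
      rw [h3] at this
      exact inv_le_one'.1 this
  have h5 := congrArg (fun z : MN => z.val.fst.l) h4
  simp only [hc, MSub.val_mul, MSub.val_inv, Dbl.mul_fst, Dbl.inv_fst, Heis.mul_l, Heis.inv_l,
    Heis.mul_n, Heis.inv_n, Heis.inv_j, MSub.val_one, Dbl.one_fst, Heis.one_l] at h5
  simp [elA, elK, nA, nK] at h5

/-! ### `W` -/

/-- the element `s` of `W` -/
noncomputable def wS : MW := ⟨⟨⟨0, 1⟩, ⟨0, -1⟩⟩, by
  change (1 : ℤ) + -1 = 0
  rfl⟩

/-- the element `e` of `W` -/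
noncomputable def wE : MW := ⟨⟨⟨Finsupp.single 0 1, 0⟩, ⟨0, 0⟩⟩, by
  change (0 : ℤ) + 0 = 0
  rfl⟩

theorem sh_zero' (n : ℤ) : sh n 0 = 0 := by ext i; simp

theorem Wr.pow_s (m : ℕ) : (⟨0, 1⟩ : Wr) ^ m = ⟨0, m⟩ := by
  induction m with
  | zero => rfl
  | succ m ih =>
    rw [pow_succ, ih]
    ext i
    · simp
    · simp

theorem Wr.pow_e (m : ℕ) : (⟨Finsupp.single 0 1, 0⟩ : Wr) ^ m = ⟨Finsupp.single 0 (m : ℤ), 0⟩ := by
  induction m with
  | zero => ext i <;> simp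
  | succ m ih =>
    rw [pow_succ, ih]
    ext i
    · simp only [Wr.mul_f, Finsupp.add_apply, sh_apply, sub_zero]
      by_cases h : i = 0
      · subst h; simp
      · rw [Finsupp.single_eq_of_ne h, Finsupp.single_eq_of_ne h, Finsupp.single_eq_of_ne h]
        simp
    · simp

theorem W_not_pow {q : ℕ} (hq : q ≠ 0) : ¬ MHolds MW (idPow q) := by
  rw [holds_idPow]
  intro h
  have h1 := congrArg (fun z : MW => z.val.fst.f 0) (h wS wE)
  simp only [MSub.val_mul, MSub.val_pow, Dbl.mul_fst, Dbl.fst_pow] at h1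
  simp only [wS, wE, Wr.pow_s, Wr.pow_e, Wr.mul_f, Finsupp.add_apply, sh_apply] at h1
  rw [Finsupp.single_eq_of_ne (by omega)] at h1
  simp at h1
  exact hq (by exact_mod_cast h1.symm)

theorem W_noncomm : ∃ x y : MW, x * y ≠ y * x := by
  by_contra hcon
  refine W_not_pow (q := 1) one_ne_zero (holds_idPow.2 ?_)
  intro x y
  by_contra h
  exact hcon ⟨_, _, h⟩

theorem Wr.cm_n (x y : Wr) : (x * y * x⁻¹ * y⁻¹).n = 0 := by
  simp only [Wr.mul_n, Wr.inv_n]; ring

theorem Wr.comm_of_n {x y : Wr} (hx : x.n = 0) (hy : y.n = 0) : x * y = y * x := by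
  ext i
  · simp only [Wr.mul_f, Finsupp.add_apply, sh_apply, hx, hy, sub_zero]; ring
  · simp only [Wr.mul_n]; ring

theorem Wr.metab : Metab Wr := fun x y z w => Wr.comm_of_n (Wr.cm_n _ _) (Wr.cm_n _ _)

theorem Heis.metab : Metab Heis := fun x y z w => Heis.nil _ _ _

theorem W_met : MHolds MW idMet := by
  rw [holds_idMet]
  intro x y z w
  apply MSub.El.ext
  apply Dbl.ext
  · exact Wr.metab _ _ _ _
  · exact Wr.metab _ _ _ _

theorem Wr.n_mono {x y : Wr} (h : x ≤ y) : x.n ≤ y.n := by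
  rw [Wr.le_iff] at h
  rcases h with h | ⟨h, -⟩
  · simp only [Wr.mul_n, Wr.inv_n] at h; omega
  · simp only [Wr.mul_n, Wr.inv_n] at h; omega

theorem Wr.mabs_n (x : Wr) : |x.n| ≤ |x|ₘ.n := by
  have h1 := Wr.n_mono (le_mabs_self x)
  have h2 := Wr.n_mono (inv_le_mabs x)
  rw [Wr.inv_n] at h2
  rw [abs_le]; omega

theorem Wr.mabs_n_zero {x : Wr} (hx : x.n = 0) : |x|ₘ.n = 0 := by
  rcases Wr.tot x x⁻¹ with h | h
  · unfold mabs; rw [sup_eq_right.2 h, Wr.inv_n, hx, neg_zero]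
  · unfold mabs; rw [sup_eq_left.2 h, hx]

theorem Wr.wIneq : WIneq Wr := by
  intro x y
  set U := |x * y * x⁻¹ * y⁻¹|ₘ with hU
  have hUn : U.n = 0 := Wr.mabs_n_zero (Wr.cm_n x y)
  have hU1 : 1 ≤ U := one_le_mabs _
  by_cases h0 : x.n = 0 ∧ y.n = 0
  · have h1 : U = 1 := by
      rw [hU, Wr.comm_of_n h0.1 h0.2]
      have : y * x * x⁻¹ * y⁻¹ = 1 := by group
      rw [this]; exact mabs_one'
    rw [h1]
    simp
  · set Z := |x|ₘ ⊔ |y|ₘ with hZ
    have hZn : 1 ≤ Z.n := by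
      have h1 : |x|ₘ.n ≤ Z.n := Wr.n_mono le_sup_left
      have h2 : |y|ₘ.n ≤ Z.n := Wr.n_mono le_sup_right
      have h3 := Wr.mabs_n x
      have h4 := Wr.mabs_n y
      rw [not_and_or] at h0
      rcases h0 with h | h
      · have : 0 < |x.n| := abs_pos.2 h
        omega
      · have : 0 < |y.n| := abs_pos.2 h
        omega
    refine le_sup_of_le_left ?_
    rw [Wr.le_iff]
    right
    refine ⟨by simp [hUn], ?_⟩
    have hF : ((U * U)⁻¹ * (Z * U * Z⁻¹)).f = sh Z.n U.f - (U.f + U.f) := by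
      ext i
      simp only [Wr.mul_f, Wr.inv_f, Wr.mul_n, Wr.inv_n, Finsupp.add_apply, Finsupp.neg_apply,
        Finsupp.sub_apply, sh_apply, hUn]
      simp only [add_zero, neg_zero, sub_zero]
      have : i - Z.n - -Z.n = i := by ring
      rw [this]; ring
    rw [hF]
    rcases (Wr.one_le_iff U).1 hU1 with h | ⟨-, h⟩
    · omega
    · rcases h with h | ⟨j, hj, hj'⟩
      · left; rw [h]; ext i; simp
      · right
        refine ⟨j + Z.n, ?_, ?_⟩
        · simp only [Finsupp.sub_apply, Finsupp.add_apply, sh_apply]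
          rw [hj' (j + Z.n) (by omega), add_sub_cancel_right]
          simpa using hj
        · intro i hi
          simp only [Finsupp.sub_apply, Finsupp.add_apply, sh_apply]
          rw [hj' (i - Z.n) (by omega), hj' i (by omega)]; rfl

theorem Dbl.wIneq {H : Type*} [LGroup H] (h : WIneq H) : WIneq (Dbl H) := by
  intro x y
  have hm : ∀ z : Dbl H, |z|ₘ = ⟨|z.fst|ₘ, |z.snd|ₘ⁻¹⟩ := by
    intro z
    apply Dbl.ext
    · rfl
    · change z.snd ⊓ z.snd⁻¹ = (z.snd ⊔ z.snd⁻¹)⁻¹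
      rw [inv_sup, inv_inv, inf_comm]
  rw [hm, hm x, hm y]
  refine ⟨h x.fst y.fst, ?_⟩
  have h2 := inv_le_inv_iff.2 (h x.snd y.snd)
  rw [inv_sup] at h2
  change (|x.snd|ₘ⁻¹ ⊓ |y.snd|ₘ⁻¹) * |(x * y * x⁻¹ * y⁻¹).snd|ₘ⁻¹ * (|x.snd|ₘ⁻¹ ⊓ |y.snd|ₘ⁻¹)⁻¹ ⊓
    (|x.snd|ₘ⁻¹ ⊓ |y.snd|ₘ⁻¹)⁻¹ * |(x * y * x⁻¹ * y⁻¹).snd|ₘ⁻¹ * (|x.snd|ₘ⁻¹ ⊓ |y.snd|ₘ⁻¹) ≤
      |(x * y * x⁻¹ * y⁻¹).snd|ₘ⁻¹ * |(x * y * x⁻¹ * y⁻¹).snd|ₘ⁻¹
  rw [← inv_sup, inv_inv]
  refine le_trans (le_of_eq ?_) (h2.trans (le_of_eq ?_))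
  · rw [inf_comm]
    congr 1
    · change _ = (_ * |x.snd * y.snd * x.snd⁻¹ * y.snd⁻¹|ₘ * _)⁻¹
      change _ * |x.snd * y.snd * x.snd⁻¹ * y.snd⁻¹|ₘ⁻¹ * _ = _
      group
    · change _ = (_ * |x.snd * y.snd * x.snd⁻¹ * y.snd⁻¹|ₘ * _)⁻¹
      change _ * |x.snd * y.snd * x.snd⁻¹ * y.snd⁻¹|ₘ⁻¹ * _ = _
      group
  · rw [mul_inv_rev]; rfl

theorem W_W : MHolds MW idW := by
  refine subW.holds ?_
  rw [holds_idW]
  exact Dbl.wIneq Wr.wIneq

theorem W_not_nil : ¬ MHolds MW idNil := by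
  rw [holds_idNil]
  intro h
  have h1 := congrArg (fun z : MW => z.val.fst.f 0) (h wS wE wS)
  simp only [MSub.val_mul, MSub.val_inv, Dbl.mul_fst, Dbl.inv_fst, Wr.mul_f, Wr.inv_f, Wr.mul_n,
    Wr.inv_n, Finsupp.add_apply, sh_apply, Finsupp.neg_apply] at h1
  simp [wS, wE] at h1

/-! ### Doubles of totally ordered groups -/

theorem Tot.pow_inj {H : Type*} [LGroup H] (hT : Tot H) {x y : H} {n : ℕ} (hn : n ≠ 0)
    (h : x ^ n = y ^ n) : x = y := by
  by_contra hne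
  have key : ∀ {a b : H}, a < b → a ^ n < b ^ n := by
    intro a b hab
    obtain ⟨m, rfl⟩ := Nat.exists_eq_succ_of_ne_zero hn
    have : ∀ m : ℕ, a ^ (m + 1) < b ^ (m + 1) := by
      intro m
      induction m with
      | zero => simpa using hab
      | succ m ih => rw [pow_succ, pow_succ b]; exact mul_lt_mul_of_lt_of_lt ih hab
    exact this m
  rcases hT.lt_or hne with h' | h'
  · exact absurd h (ne_of_lt (key h'))
  · exact absurd h (ne_of_gt (key h'))

theorem dbl_not_pow {K : Type*} [LGroup K] (hT : Tot K) (hK : ¬ Metab K) {q : ℕ} (hq : q ≠ 0) :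
    ¬ MHolds (Dbl K) (idPow q) := by
  rw [holds_idPow]
  intro h
  apply hK
  have h1 : ∀ x y : K, x ^ q * y ^ q = y ^ q * x ^ q := by
    intro x y
    have := congrArg Dbl.fst (h ⟨x, 1⟩ ⟨y, 1⟩)
    rwa [Dbl.mul_fst, Dbl.mul_fst, Dbl.fst_pow, Dbl.fst_pow] at this
  have h2 : ∀ x y : K, x * y ^ q = y ^ q * x := by
    intro x y
    have h3 : (y ^ q * x * (y ^ q)⁻¹) ^ q = x ^ q := by
      rw [conj_pow, ← h1]; group
    have h4 := hT.pow_inj hq h3
    calc x * y ^ q = (y ^ q * x * (y ^ q)⁻¹) * y ^ q := by rw [h4]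
      _ = y ^ q * x := by group
  have h3 : ∀ x y : K, x * y = y * x := by
    intro x y
    have h4 : (x * y * x⁻¹) ^ q = y ^ q := by
      rw [conj_pow, h2]; group
    have h5 := hT.pow_inj hq h4
    calc x * y = (x * y * x⁻¹) * x := by group
      _ = y * x := by rw [h5]
  intro x y z w
  exact h3 _ _

theorem dbl_met {K : Type*} [LGroup K] (h : MHolds (Dbl K) idMet) : Metab K := by
  rw [holds_idMet] at h
  intro x y z w
  exact congrArg Dbl.fst (h ⟨x, 1⟩ ⟨y, 1⟩ ⟨z, 1⟩ ⟨w, 1⟩)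

theorem dbl_nil {K : Type*} [LGroup K] (h : MHolds (Dbl K) idNil) : Metab K := by
  rw [holds_idNil] at h
  intro x y z w
  exact congrArg Dbl.fst (h ⟨x, 1⟩ ⟨y, 1⟩ (⟨z * w * z⁻¹ * w⁻¹, 1⟩))

theorem sc_noncomm {p : ℕ} {κ : ℤ} (hp : 2 ≤ p) : ∃ x y : Sc p κ, x * y ≠ y * x := by
  by_contra hcon
  refine Sc.not_holds_nil (p := p) (κ := κ) hp (holds_idNil.2 ?_)
  intro x y z
  by_contra h
  exact hcon ⟨_, _, h⟩

end Pool.Helper55.MG
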