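import Pool.Agent.Helper55.MG.Constr

/-! # The special m-groups `S(p, κ)`, `N` and `W` -/

set_option linter.unusedVariables false

namespace Pool.Helper55.MG

/-! ## `{(x, y) ∈ D(T) : x y ∈ C}` -/

/-- For a totally ordered group `T` and a convex subgroup `C` containing all commutators, the
sub-m-group `{(x, y) ∈ D(T) : x y ∈ C}` of `D(T)`. -/
def MSub.ofConvex (T : Type*) [LGroup T] (hT : Tot T) (C : Set T) (one : (1 : T) ∈ C)
    (mul : ∀ x ∈ C, ∀ y ∈ C, x * y ∈ C) (inv : ∀ x ∈ C, x⁻¹ ∈ C)
    (conj : ∀ x ∈ C, ∀ y : T, y * x * y⁻¹ ∈ C)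
    (comm : ∀ x y : T, x * y * x⁻¹ * y⁻¹ ∈ C)
    (conv : ∀ x y z : T, x ∈ C → z ∈ C → x ≤ y → y ≤ z → y ∈ C) : MSub (Dbl T) where
  S := {x | x.fst * x.snd ∈ C}
  one := by
    change (1 : T) * 1 ∈ C
    rwa [mul_one]
  mul := by
    intro x hx y hy
    change (x.fst * y.fst) * (x.snd * y.snd) ∈ C
    have h1 : (x.fst * x.snd) * (x.snd⁻¹ * (y.fst * x.snd * y.fst⁻¹ * x.snd⁻¹) * x.snd⁻¹⁻¹)
        * (y.fst * y.snd) = (x.fst * y.fst) * (x.snd * y.snd) := by group
    rw [← h1]
    exact mul _ (mul _ hx _ (conj _ (comm _ _) _)) _ hy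
  inv := by
    intro x hx
    change x.fst⁻¹ * x.snd⁻¹ ∈ C
    have h4 : (x.fst⁻¹ * x.snd⁻¹ * x.fst⁻¹⁻¹ * x.snd⁻¹⁻¹) * (x.fst * x.snd)⁻¹
        = x.fst⁻¹ * x.snd⁻¹ := by group
    rw [← h4]
    exact mul _ (comm _ _) _ (inv _ hx)
  sup := by
    intro x hx y hy
    change (x.fst ⊔ y.fst) * (x.snd ⊓ y.snd) ∈ C
    have hx' : x.fst * x.snd ∈ C := hx
    have hy' : y.fst * y.snd ∈ C := hy
    rcases hT x.fst y.fst with h | h <;> rcases hT x.snd y.snd with h' | h'
    · rw [sup_eq_right.2 h, inf_eq_left.2 h']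
      exact conv _ _ _ hx' hy' (mul_le_mul_left h _) (mul_le_mul_right h' _)
    · rw [sup_eq_right.2 h, inf_eq_right.2 h']
      exact hy'
    · rw [sup_eq_left.2 h, inf_eq_left.2 h']
      exact hx'
    · rw [sup_eq_left.2 h, inf_eq_right.2 h']
      exact conv _ _ _ hy' hx' (mul_le_mul_left h _) (mul_le_mul_right h' _)
  st := by
    intro x hx
    change x.snd * x.fst ∈ C
    have h1 : x.snd * (x.fst * x.snd) * x.snd⁻¹ = x.snd * x.fst := by group
    rw [← h1]
    exact conj _ hx _

/-! ## The Heisenberg group with its lexicographic order -/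

/-- The integral Heisenberg group: `(n, j, l)` stands for `k ^ j * c ^ l * a ^ n`, where `c` is
central and `a k a⁻¹ = c k`. -/
@[ext] structure Heis where
  n : ℤ
  j : ℤ
  l : ℤ

namespace Heis

instance : Mul Heis := ⟨fun x y => ⟨x.n + y.n, x.j + y.j, x.l + y.l + x.n * y.j⟩⟩
instance : One Heis := ⟨⟨0, 0, 0⟩⟩
instance : Inv Heis := ⟨fun x => ⟨-x.n, -x.j, x.n * x.j - x.l⟩⟩

@[simp] theorem mul_n (x y : Heis) : (x * y).n = x.n + y.n := rfl
@[simp] theorem mul_j (x y : Heis) : (x * y).j = x.j + y.j := rfl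
@[simp] theorem mul_l (x y : Heis) : (x * y).l = x.l + y.l + x.n * y.j := rfl
@[simp] theorem one_n : (1 : Heis).n = 0 := rfl
@[simp] theorem one_j : (1 : Heis).j = 0 := rfl
@[simp] theorem one_l : (1 : Heis).l = 0 := rfl
@[simp] theorem inv_n (x : Heis) : (x⁻¹).n = -x.n := rfl
@[simp] theorem inv_j (x : Heis) : (x⁻¹).j = -x.j := rfl
@[simp] theorem inv_l (x : Heis) : (x⁻¹).l = x.n * x.j - x.l := rfl

instance : Group Heis := Group.ofLeftAxioms
  (fun a b c => by ext <;> simp <;> ring)
  (fun a => by ext <;> simp)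
  (fun a => by ext <;> simp)

/-- The positive cone: lexicographic, `n` first, then `j`, then `l`. -/
def Pos (x : Heis) : Prop := 0 < x.n ∨ x.n = 0 ∧ (0 < x.j ∨ x.j = 0 ∧ 0 ≤ x.l)

theorem pos_total (x : Heis) : Pos x ∨ Pos x⁻¹ := by
  simp only [Pos, inv_n, inv_j, inv_l] at *
  rcases lt_trichotomy x.n 0 with h | h | h
  · right; left; omega
  · rcases lt_trichotomy x.j 0 with h' | h' | h'
    · right; right; exact ⟨by omega, Or.inl (by omega)⟩
    · rcases le_total 0 x.l with h'' | h''
      · left; right; exact ⟨h, Or.inr ⟨h', h''⟩⟩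
      · right; right; refine ⟨by omega, Or.inr ⟨by omega, ?_⟩⟩
        rw [h]; omega
    · left; right; exact ⟨by omega, Or.inl (by omega)⟩
  · left; left; omega

noncomputable instance : LGroup Heis := LGroup.ofCone Heis Pos
  (by simp [Pos])
  (by
    intro x y hx hy
    simp only [Pos, mul_n, mul_j, mul_l] at *
    rcases hx with hx | ⟨hx, hx' | ⟨hx', hx''⟩⟩ <;> rcases hy with hy | ⟨hy, hy' | ⟨hy', hy''⟩⟩
    · left; omega
    · left; omega
    · left; omega
    · left; omega
    · right; exact ⟨by omega, Or.inl (by omega)⟩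
    · right; exact ⟨by omega, Or.inl (by omega)⟩
    · left; omega
    · right; exact ⟨by omega, Or.inl (by omega)⟩
    · right; refine ⟨by omega, Or.inr ⟨by omega, ?_⟩⟩
      rw [hy']; omega)
  (by
    intro x y hx
    simp only [Pos, mul_n, mul_j, mul_l, inv_n, inv_j, inv_l] at *
    rcases hx with hx | ⟨hx, hx' | ⟨hx', hx''⟩⟩
    · left; omega
    · right; exact ⟨by omega, Or.inl (by omega)⟩
    · right; refine ⟨by omega, Or.inr ⟨by omega, ?_⟩⟩
      rw [hx, hx']; ring_nf; omega)
  (by
    intro x hx hx'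
    simp only [Pos, inv_n, inv_j, inv_l] at *
    rcases hx with hx | ⟨hx, hx1⟩
    · rcases hx' with hx' | ⟨hx', -⟩ <;> omega
    · rcases hx' with hx' | ⟨-, hx1'⟩
      · omega
      · rcases hx1 with h | ⟨h, h'⟩
        · rcases hx1' with h1 | ⟨h1, -⟩ <;> omega
        · rcases hx1' with h1 | ⟨-, h1⟩
          · omega
          · rw [hx] at h1
            ext
            · exact hx
            · exact h
            · simp only [one_l]; omega)
  pos_total

theorem le_iff (x y : Heis) : x ≤ y ↔ Pos (x⁻¹ * y) := Iff.rfl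

theorem tot : Tot Heis := by
  intro x y
  rcases pos_total (x⁻¹ * y) with h | h
  · exact Or.inl h
  · right
    rw [le_iff]
    simpa using h

theorem one_le_iff (x : Heis) : 1 ≤ x ↔ Pos x := by
  rw [le_iff, inv_one, one_mul]

end Heis

/-! ## The lexicographic wreath product of two copies of the integers -/

/-- The restricted wreath product of `ℤ` by `ℤ`: finitely supported functions `f : ℤ → ℤ`
and integers `n`, with `(f, n) (f', n') = (f + shift n f', n + n')`. -/
@[ext] structure Wr where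
  f : ℤ →₀ ℤ
  n : ℤ

/-- Shift of a finitely supported function: `(sh n f) i = f (i - n)`. -/
noncomputable def sh (n : ℤ) (f : ℤ →₀ ℤ) : ℤ →₀ ℤ := f.equivMapDomain (Equiv.addRight n)

@[simp] theorem sh_apply (n : ℤ) (f : ℤ →₀ ℤ) (i : ℤ) : sh n f i = f (i - n) := by
  unfold sh
  rw [Finsupp.equivMapDomain_apply]
  rfl

/-- Positive finitely supported functions: zero, or the coefficient with the largest index is
positive. -/
def PosF (f : ℤ →₀ ℤ) : Prop := f = 0 ∨ ∃ j, 0 < f j ∧ ∀ i, j < i → f i = 0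

namespace Wr

noncomputable instance : Mul Wr := ⟨fun x y => ⟨x.f + sh x.n y.f, x.n + y.n⟩⟩
noncomputable instance : One Wr := ⟨⟨0, 0⟩⟩
noncomputable instance : Inv Wr := ⟨fun x => ⟨-sh (-x.n) x.f, -x.n⟩⟩

@[simp] theorem mul_f (x y : Wr) : (x * y).f = x.f + sh x.n y.f := rfl
@[simp] theorem mul_n (x y : Wr) : (x * y).n = x.n + y.n := rfl
@[simp] theorem one_f : (1 : Wr).f = 0 := rfl
@[simp] theorem one_n : (1 : Wr).n = 0 := rfl
@[simp] theorem inv_f (x : Wr) : (x⁻¹).f = -sh (-x.n) x.f := rfl
@[simp] theorem inv_n (x : Wr) : (x⁻¹).n = -x.n := rfl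

noncomputable instance : Group Wr := Group.ofLeftAxioms
  (fun a b c => by
    ext i
    · simp only [mul_f, mul_n, Finsupp.add_apply, sh_apply]
      rw [add_assoc]; congr 2; congr 1; ring
    · simp only [mul_n]; ring)
  (fun a => by
    ext i
    · simp
    · simp)
  (fun a => by
    ext i
    · simp
    · simp)

/-- The positive cone: lexicographic, `n` first, then `f`. -/
def Pos (x : Wr) : Prop := 0 < x.n ∨ x.n = 0 ∧ PosF x.f

end Wr

theorem PosF.add {f g : ℤ →₀ ℤ} (hf : PosF f) (hg : PosF g) : PosF (f + g) := by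
  rcases hf with rfl | ⟨j, hj, hj'⟩
  · rwa [zero_add]
  rcases hg with rfl | ⟨k, hk, hk'⟩
  · rw [add_zero]; exact Or.inr ⟨j, hj, hj'⟩
  right
  rcases lt_trichotomy j k with h | h | h
  · refine ⟨k, ?_, ?_⟩
    · rw [Finsupp.add_apply, hj' _ h]; omega
    · intro i hi
      rw [Finsupp.add_apply, hj' _ (by omega), hk' _ hi]; rfl
  · subst h
    refine ⟨j, ?_, ?_⟩
    · rw [Finsupp.add_apply]; omega
    · intro i hi
      rw [Finsupp.add_apply, hj' _ hi, hk' _ hi]; rfl
  · refine ⟨j, ?_, ?_⟩
    · rw [Finsupp.add_apply, hk' _ h]; omega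
    · intro i hi
      rw [Finsupp.add_apply, hj' _ hi, hk' _ (by omega)]; rfl

theorem PosF.sh {f : ℤ →₀ ℤ} (hf : PosF f) (n : ℤ) : PosF (sh n f) := by
  rcases hf with rfl | ⟨j, hj, hj'⟩
  · left; ext i; simp
  · right
    refine ⟨j + n, ?_, ?_⟩
    · rw [sh_apply]; rwa [add_sub_cancel_right]
    · intro i hi
      rw [sh_apply]; exact hj' _ (by omega)

theorem PosF.antisymm {f : ℤ →₀ ℤ} (hf : PosF f) (hf' : PosF (-f)) : f = 0 := by
  rcases hf with rfl | ⟨j, hj, hj'⟩
  · rfl
  rcases hf' with h | ⟨k, hk, hk'⟩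
  · exact neg_eq_zero.1 h
  exfalso
  rw [Finsupp.neg_apply] at hk
  rcases lt_trichotomy j k with h | h | h
  · rw [hj' _ h] at hk; simp at hk
  · subst h; omega
  · have := hk' _ h
    rw [Finsupp.neg_apply] at this; omega

theorem PosF.total (f : ℤ →₀ ℤ) : PosF f ∨ PosF (-f) := by
  by_cases h : f = 0
  · left; left; exact h
  have hne : f.support.Nonempty := Finsupp.support_nonempty_iff.2 h
  have h1 : f (f.support.max' hne) ≠ 0 := Finsupp.mem_support_iff.1 (Finset.max'_mem _ _)
  have h2 : ∀ i, f.support.max' hne < i → f i = 0 := by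
    intro i hi
    by_contra h3
    exact absurd (Finset.le_max' _ _ (Finsupp.mem_support_iff.2 h3)) (not_le.2 hi)
  rcases lt_or_gt_of_ne h1 with h3 | h3
  · right; right
    refine ⟨f.support.max' hne, ?_, ?_⟩
    · rw [Finsupp.neg_apply]; omega
    · intro i hi
      rw [Finsupp.neg_apply, h2 _ hi, neg_zero]
  · left; right; exact ⟨_, h3, h2⟩

namespace Wr

theorem pos_total (x : Wr) : Pos x ∨ Pos x⁻¹ := by
  simp only [Pos, inv_n, inv_f] at *
  rcases lt_trichotomy x.n 0 with h | h | h
  · right; left; omega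
  · have h1 : -sh (-x.n) x.f = -x.f := by
      ext i; simp [h]
    rw [h1]
    rcases PosF.total x.f with h2 | h2
    · left; right; exact ⟨h, h2⟩
    · right; right; exact ⟨by omega, h2⟩
  · left; left; omega

noncomputable instance : LGroup Wr := LGroup.ofCone Wr Pos
  (by simp [Pos, PosF])
  (by
    intro x y hx hy
    simp only [Pos, mul_n, mul_f] at *
    rcases hx with hx | ⟨hx, hx'⟩ <;> rcases hy with hy | ⟨hy, hy'⟩
    · left; omega
    · left; omega
    · left; omega
    · right; exact ⟨by omega, hx'.add (hy'.sh _)⟩)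
  (by
    intro x y hx
    simp only [Pos, mul_n, mul_f, inv_n, inv_f] at *
    rcases hx with hx | ⟨hx, hx'⟩
    · left; omega
    · right; refine ⟨by omega, ?_⟩
      have h1 : y.f + sh y.n x.f + sh (y.n + x.n) (-sh (-y.n) y.f) = sh y.n x.f := by
        ext i
        simp [hx]
      rw [h1]; exact hx'.sh _)
  (by
    intro x hx hx'
    simp only [Pos, inv_n, inv_f] at *
    rcases hx with hx | ⟨hx, hx1⟩
    · rcases hx' with hx' | ⟨hx', -⟩ <;> omega
    · rcases hx' with hx' | ⟨-, hx1'⟩
      · omega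
      · have h1 : -sh (-x.n) x.f = -x.f := by
          ext i; simp [hx]
        rw [h1] at hx1'
        have h2 := hx1.antisymm hx1'
        ext i
        · rw [h2]; rfl
        · exact hx)
  pos_total

theorem le_iff (x y : Wr) : x ≤ y ↔ Pos (x⁻¹ * y) := Iff.rfl

theorem tot : Tot Wr := by
  intro x y
  rcases pos_total (x⁻¹ * y) with h | h
  · exact Or.inl h
  · right
    rw [le_iff]
    simpa using h

theorem one_le_iff (x : Wr) : 1 ≤ x ↔ Pos x := by
  rw [le_iff, inv_one, one_mul]

end Wr

/-! ## `N` and `W` -/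

/-- The sub-m-group `{(x, y) : x y is a power of the commutator}` of `D(Heis)`. -/
noncomputable def subN : MSub (Dbl Heis) :=
  MSub.ofConvex Heis Heis.tot {x | x.n = 0 ∧ x.j = 0}
    ⟨rfl, rfl⟩
    (by
      rintro x ⟨h1, h2⟩ y ⟨h3, h4⟩
      exact ⟨by simp [h1, h3], by simp [h2, h4]⟩)
    (by
      rintro x ⟨h1, h2⟩
      exact ⟨by simp [h1], by simp [h2]⟩)
    (by
      rintro x ⟨h1, h2⟩ y
      exact ⟨by simp [h1], by simp [h2]⟩)
    (by
      intro x y
      refine ⟨?_, ?_⟩
      · simp only [Heis.mul_n, Heis.inv_n]; ring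
      · simp only [Heis.mul_j, Heis.inv_j]; ring)
    (by
      rintro x y z ⟨h1, h2⟩ ⟨h3, h4⟩ h5 h6
      rw [Heis.le_iff] at h5 h6
      simp only [Heis.Pos, Heis.mul_n, Heis.inv_n, Heis.mul_j, Heis.inv_j, Heis.mul_l,
        Heis.inv_l] at h5 h6
      change y.n = 0 ∧ y.j = 0
      rcases h5 with h5 | ⟨h5, h5'⟩
      · rcases h6 with h6 | ⟨h6, -⟩ <;> omega
      · rcases h6 with h6 | ⟨h6, h6'⟩
        · omega
        · refine ⟨by omega, ?_⟩
          rcases h5' with h7 | ⟨h7, -⟩ <;> rcases h6' with h8 | ⟨h8, -⟩ <;> omega)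

/-- The m-group `N`. -/
abbrev MN : Type := subN.El

/-- The sub-m-group `{(x, y) : x y lies in the base group}` of `D(Wr)`. -/
noncomputable def subW : MSub (Dbl Wr) :=
  MSub.ofConvex Wr Wr.tot {x | x.n = 0}
    rfl
    (by
      intro x h1 y h3
      change x.n + y.n = 0
      rw [show x.n = 0 from h1, show y.n = 0 from h3]; rfl)
    (by
      intro x h1
      change -x.n = 0
      rw [show x.n = 0 from h1]; rfl)
    (by
      intro x h1 y
      change y.n + x.n + -y.n = 0
      rw [show x.n = 0 from h1]; ring)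
    (by
      intro x y
      change x.n + y.n + -x.n + -y.n = 0
      ring)
    (by
      intro x y z h1 h2 h5 h6
      rw [Wr.le_iff] at h5 h6
      simp only [Wr.Pos, Wr.mul_n, Wr.inv_n] at h5 h6
      change y.n = 0
      have h1' : x.n = 0 := h1
      have h2' : z.n = 0 := h2
      rcases h5 with h5 | ⟨h5, -⟩ <;> rcases h6 with h6 | ⟨h6, -⟩ <;> omega)

/-- The m-group `W`. -/
abbrev MW : Type := subW.El

/-! ## The m-groups `S(p, κ)` -/

/-- Elements `(f, n)` of `S(p, κ)`: `f` a function on `ℤ/p` and `n` an integer. -/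
@[ext] structure Sc (p : ℕ) (κ : ℤ) where
  f : ZMod p → ℤ
  n : ℤ

namespace Sc

variable {p : ℕ} {κ : ℤ}

instance : Mul (Sc p κ) := ⟨fun x y => ⟨fun i => x.f i + y.f (i - x.n), x.n + y.n⟩⟩
instance : One (Sc p κ) := ⟨⟨fun _ => 0, 0⟩⟩
instance : Inv (Sc p κ) := ⟨fun x => ⟨fun i => -x.f (i + x.n), -x.n⟩⟩

@[simp] theorem mul_f (x y : Sc p κ) (i : ZMod p) : (x * y).f i = x.f i + y.f (i - x.n) := rfl
@[simp] theorem mul_n (x y : Sc p κ) : (x * y).n = x.n + y.n := rfl
@[simp] theorem one_f (i : ZMod p) : (1 : Sc p κ).f i = 0 := rfl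
@[simp] theorem one_n : (1 : Sc p κ).n = 0 := rfl
@[simp] theorem inv_f (x : Sc p κ) (i : ZMod p) : (x⁻¹).f i = -x.f (i + x.n) := rfl
@[simp] theorem inv_n (x : Sc p κ) : (x⁻¹).n = -x.n := rfl

instance : Group (Sc p κ) := Group.ofLeftAxioms
  (fun a b c => by
    ext i
    · simp only [mul_f, mul_n, Int.cast_add]
      rw [add_assoc]; congr 2; congr 1; ring
    · simp only [mul_n]; ring)
  (fun a => by
    ext i
    · simp
    · simp)
  (fun a => by
    ext i
    · simp
    · simp)

/-- Lattice-ordered group structure of `S(p, κ)`: multiplication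
`(f, n) (g, m) = (i ↦ f i + g (i - n), n + m)`; the order is lexicographic, `n` first, then
pointwise. -/
instance : LGroup (Sc p κ) :=
  { (inferInstance : Group (Sc p κ)) with
    le := fun x y => x.n < y.n ∨ x.n = y.n ∧ ∀ i, x.f i ≤ y.f i
    le_refl := fun x => Or.inr ⟨rfl, fun _ => le_refl _⟩
    le_trans := fun x y z h1 h2 => by
      rcases h1 with h1 | ⟨h1, h1'⟩ <;> rcases h2 with h2 | ⟨h2, h2'⟩
      · left; omega
      · left; omega
      · left; omega
      · right; exact ⟨by omega, fun i => (h1' i).trans (h2' i)⟩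
    le_antisymm := fun x y h1 h2 => by
      rcases h1 with h1 | ⟨h1, h1'⟩ <;> rcases h2 with h2 | ⟨h2, h2'⟩
      · omega
      · omega
      · omega
      · ext i
        · exact le_antisymm (h1' i) (h2' i)
        · exact h1
    sup := fun x y => if x.n < y.n then y else if y.n < x.n then x else
      ⟨fun i => max (x.f i) (y.f i), x.n⟩
    le_sup_left := fun x y => by
      split_ifs with h1 h2
      · left; exact h1
      · right; exact ⟨rfl, fun _ => le_refl _⟩
      · right; exact ⟨rfl, fun _ => le_max_left _ _⟩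
    le_sup_right := fun x y => by
      split_ifs with h1 h2
      · right; exact ⟨rfl, fun _ => le_refl _⟩
      · left; exact h2
      · right; exact ⟨by change y.n = x.n; omega, fun _ => le_max_right _ _⟩
    sup_le := fun x y z h1 h2 => by
      split_ifs with h3 h4
      · exact h2
      · exact h1
      · rcases h1 with h1 | ⟨h1, h1'⟩
        · left; exact h1
        · rcases h2 with h2 | ⟨h2, h2'⟩
          · left; change x.n < z.n; omega
          · right; exact ⟨h1, fun i => max_le (h1' i) (h2' i)⟩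
    inf := fun x y => if x.n < y.n then x else if y.n < x.n then y else
      ⟨fun i => min (x.f i) (y.f i), x.n⟩
    inf_le_left := fun x y => by
      split_ifs with h1 h2
      · right; exact ⟨rfl, fun _ => le_refl _⟩
      · left; exact h2
      · right; exact ⟨rfl, fun _ => min_le_left _ _⟩
    inf_le_right := fun x y => by
      split_ifs with h1 h2
      · left; exact h1
      · right; exact ⟨rfl, fun _ => le_refl _⟩
      · right; exact ⟨by change x.n = y.n; omega, fun _ => min_le_right _ _⟩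
    le_inf := fun x y z h1 h2 => by
      split_ifs with h3 h4
      · exact h1
      · exact h2
      · rcases h1 with h1 | ⟨h1, h1'⟩
        · left; exact h1
        · rcases h2 with h2 | ⟨h2, h2'⟩
          · left; change x.n < y.n; omega
          · right; exact ⟨h1, fun i => le_min (h1' i) (h2' i)⟩
    mul_le_l := fun a b c h => by
      rcases h with h | ⟨h, h'⟩
      · left; change c.n + a.n < c.n + b.n; omega
      · right; refine ⟨?_, fun i => ?_⟩
        · change c.n + a.n = c.n + b.n; omega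
        · simp only [mul_f]; have := h' (i - c.n); omega
    mul_le_r := fun a b c h => by
      rcases h with h | ⟨h, h'⟩
      · left; change a.n + c.n < b.n + c.n; omega
      · right; refine ⟨?_, fun i => ?_⟩
        · change a.n + c.n = b.n + c.n; omega
        · simp only [mul_f]; rw [h]; have := h' i; omega }

theorem le_iff (x y : Sc p κ) : x ≤ y ↔ x.n < y.n ∨ x.n = y.n ∧ ∀ i, x.f i ≤ y.f i := Iff.rfl

theorem sup_def (x y : Sc p κ) : x ⊔ y = if x.n < y.n then y else if y.n < x.n then x else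
      ⟨fun i => max (x.f i) (y.f i), x.n⟩ := rfl

theorem inf_def (x y : Sc p κ) : x ⊓ y = if x.n < y.n then x else if y.n < x.n then y else
      ⟨fun i => min (x.f i) (y.f i), x.n⟩ := rfl

/-- The m-group `S(p, κ)`: `(f, n)* = (i ↦ - f (- i - κ), - n)`. -/
instance : MGroup (Sc p κ) :=
  { (inferInstance : LGroup (Sc p κ)) with
    st := fun x => ⟨fun i => -x.f (-i - κ), -x.n⟩
    st_st := fun x => by
      ext i
      · change - -x.f (-(-i - κ) - κ) = x.f i
        rw [neg_neg]; congr 1; ring
      · change - -x.n = x.n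
        ring
    st_mul := fun x y => by
      ext i
      · change -(x.f (-i - κ) + y.f (-i - κ - x.n)) =
          -x.f (-i - κ) + -y.f (-(i - ((-x.n : ℤ) : ZMod p)) - κ)
        have h1 : (-i - (κ : ZMod p) - (x.n : ZMod p)) = -(i - ((-x.n : ℤ) : ZMod p)) - κ := by
          push_cast; ring
        rw [h1]; ring
      · change -(x.n + y.n) = -x.n + -y.n
        ring
    st_sup := fun x y => by
      rw [sup_def, inf_def]
      change _ = if -x.n < -y.n then _ else if -y.n < -x.n then _ else _
      rcases lt_trichotomy x.n y.n with h | h | h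
      · rw [if_pos h, if_neg (by omega), if_pos (by omega)]
      · rw [if_neg (by omega), if_neg (by omega), if_neg (by omega), if_neg (by omega)]
        ext i
        · change -(max _ _) = min (-_) (-_)
          omega
        · rfl
      · rw [if_neg (by omega), if_pos h, if_pos (by omega)]
    st_inf := fun x y => by
      rw [sup_def, inf_def]
      change _ = if -x.n < -y.n then _ else if -y.n < -x.n then _ else _
      rcases lt_trichotomy x.n y.n with h | h | h
      · rw [if_pos h, if_neg (by omega), if_pos (by omega)]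
      · rw [if_neg (by omega), if_neg (by omega), if_neg (by omega), if_neg (by omega)]
        ext i
        · change -(min _ _) = max (-_) (-_)
          omega
        · rfl
      · rw [if_neg (by omega), if_pos h, if_pos (by omega)] }

@[simp] theorem st_f (x : Sc p κ) (i : ZMod p) : (st x).f i = -x.f (-i - κ) := rfl
@[simp] theorem st_n (x : Sc p κ) : (st x).n = -x.n := rfl

end Sc

/-! ## Bundled versions -/

/-- The m-group `S(p, κ)`, bundled. -/
def gS (p : ℕ) (κ : ℤ) : MGrp := ⟨Sc p κ⟩

/-- The m-group `N`, bundled. -/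
noncomputable def gN : MGrp := ⟨MN⟩

/-- The m-group `W`, bundled. -/
noncomputable def gW : MGrp := ⟨MW⟩

/-- The double of a lattice-ordered group, bundled. -/
def gD (H : LGrp) : MGrp := ⟨Dbl H.carrier⟩

/-- The lattice-ordered group with the reversed order, bundled. -/
def opp (H : LGrp) : LGrp := ⟨H.carrierᵒᵈ⟩

/-- The varieties of lattice-ordered groups that cover the variety of abelian lattice-ordered
groups and contain a totally ordered group that is not solvable. -/
def oCovers : Set (Set LGrp) :=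
  {V | LCovers V LAb ∧ ∃ H ∈ V, Tot H.carrier ∧ ¬ Group.IsSolvable H.carrier}

/-- The m-groups `S(p, 0)` for primes `p`, `S(2, 1)`, `N` and `W`. -/
def special : Set MGrp :=
  {B | (∃ p : ℕ, p.Prime ∧ B = gS p 0) ∨ B = gS 2 1 ∨ B = gN ∨ B = gW}

end Pool.Helper55.MG
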