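import Pool.Agent.Helper55.MG.Emb

/-! # The non-representable case -/

set_option linter.unusedVariables false

namespace Pool.Helper55.MG

/-- `G` satisfies all identities in `E`. -/
def InV (E : Set (MTerm × MTerm)) (G : Type) [MGroup G] : Prop := ∀ e ∈ E, MHolds G e

/-- All representable m-groups satisfying `E` are commutative. -/
def RepComm (E : Set (MTerm × MTerm)) : Prop :=
  ∀ (G : Type) [MGroup G], InV E G → Rp G → ∀ x y : G, x * y = y * x

theorem RR_comm {E : Set (MTerm × MTerm)} (hE : RepComm E) {G : Type} [MGroup G]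
    (hG : InV E G) {g h : G} (hg : g ∈ RR G) (hh : h ∈ RR G) : g * h = h * g := by
  have h1 := hE (subRR G).El (fun e he => (subRR G).holds (hG e he)) rp_subRR ⟨g, hg⟩ ⟨h, hh⟩
  exact congrArg MSub.El.val h1

section

variable {G : Type*} [MGroup G]

theorem Peq.sup {a b x : G} (h1 : 1 ≤ a) (ha : Peq a x) (hb : Peq b x) : Peq (a ⊔ b) x := by
  intro v
  constructor
  · intro h
    exact (ha v).1 (h.mono h1 le_sup_left h.right le_rfl)
  · intro h
    exact (((ha v).2 h).symm.sup ((hb v).2 h).symm).symm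

theorem Peq.pow {x : G} (hx : 1 ≤ x) {n : ℕ} (hn : n ≠ 0) : Peq (x ^ n) x := by
  intro v
  constructor
  · intro h
    exact h.mono hx (le_self_pow hx hn) h.right le_rfl
  · intro h
    exact (h.symm.pow_right n).symm

/-- The reflection `u ↦ s ^ j * phi u * s ^ (-j)`. -/
def rho (s : G) (j : ℤ) (u : G) : G := cz s j (phi u)

theorem oa_rho (s : G) (j : ℤ) : OA (rho s j) := (oa_cz s j).comp oa_phi

theorem rho_rho {s : G} (hs : phi s = s) (j : ℤ) (u : G) : rho s j (rho s j u) = u := by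
  unfold rho
  rw [phi_cz hs, phi_phi, cz_cz, add_neg_cancel, cz_zero]

/-- There is a symmetric positive element outside `RR G`. -/
theorem sym_exists {g : G} (hg : g ∉ RR G) : ∃ s : G, 1 ≤ s ∧ phi s = s ∧ s ∉ RR G := by
  obtain ⟨p, hp, hpR⟩ : ∃ p : G, 1 ≤ p ∧ p ∉ RR G := by
    by_contra hcon
    apply hg
    have h1 : g ⊔ 1 ∈ RR G := by
      by_contra h; exact hcon ⟨_, le_sup_right, h⟩
    have h2 : g⁻¹ ⊔ 1 ∈ RR G := by
      by_contra h; exact hcon ⟨_, le_sup_right, h⟩
    have := RR.mul h1 (RR.inv h2)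
    rwa [pos_mul_neg] at this
  have hb : 1 ≤ phi p := oa_phi.one_le hp
  by_cases hr : p * phi p ∈ RR G
  · refine ⟨p ⊔ phi p, hp.trans le_sup_left, ?_, ?_⟩
    · rw [phi_sup, phi_phi, sup_comm]
    · obtain ⟨w, hw, hw1, hwo⟩ := exists_moved hpR
      refine not_mem_RR_of_moved hw1 ?_
      have h1 : Ort (phi p * w * (phi p)⁻¹) w := by
        have h2 := RR_peq hr w
        have h3 := (oa_cz p (-1)).peq h2
        have h4 : cz p (-1) (p * phi p * w * (p * phi p)⁻¹) = phi p * w * (phi p)⁻¹ := by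
          unfold cz; group
        rw [h4] at h3
        refine (h3 w).2 ?_
        have h5 := (cz_ort p (-1)).2 hwo
        have h6 : cz p (-1) (p * w * p⁻¹) = w := by unfold cz; group
        rw [h6] at h5
        exact h5.symm
      have h2 := (hwo.symm.sup h1.symm).symm
      exact h2.mono (one_le_conj _ hw) (conj_sup_le hw) hw le_rfl
  · exact ⟨p * phi p, one_le_mul_of hp hb, by rw [phi_mul, phi_phi], hr⟩

theorem pow_mem_of_ort {a b : G} (h : Ort a b) {n : ℕ} (hn : a ^ n * b ^ n ∈ RR G) :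
    a ^ n ∈ RR G := by
  by_contra hcon
  obtain ⟨w, hw, hw1, hwo⟩ := exists_moved hcon
  have ha := h.left
  have h1 : w ≤ a ^ n := le_of_ort (one_le_pow_of_one_le' ha n) hw hwo
  have h2 : Ort w (b ^ n) := (h.pow n n).mono hw h1 (h.pow n n).right le_rfl
  have h3 : a ^ n * b ^ n * w * (a ^ n * b ^ n)⁻¹ = a ^ n * w * (a ^ n)⁻¹ := by
    rw [mul_assoc (a ^ n), ← h2.comm]; group
  exact not_mem_RR_of_moved hw1 (by rw [h3]; exact hwo) hn

/-- The reflection step. -/
theorem reflect {s x v₂ : G} (hs : phi s = s) (hv2 : 1 ≤ v₂) (hv21 : v₂ ≠ 1)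
    (hpe : Peq v₂ x) (hx : 1 ≤ x) (M : ℕ)
    (hM : ∀ j : ℤ, |j| ≤ M → FixB (rho s j) x ∨ Ort (rho s j x) x) :
    ∃ (v : G) (j : ℤ), 1 ≤ v ∧ v ≠ 1 ∧ phi v = cz s (-j) v ∧
      (∀ i : ℤ, |i| ≤ M → Ort (cz s i v₂) v₂ → Ort (cz s i v) v) ∧
      ∀ n : ℤ, cz s n v₂ = v₂ → cz s n v = v := by
  have hne : ∀ w : G, v₂ ≤ w → w ≠ 1 := by
    intro w hw h
    exact hv21 (le_antisymm (h ▸ hw) hv2)
  by_cases hA : ∃ j : ℤ, FixB (rho s j) x
  · obtain ⟨j, hj⟩ := hA
    have h1 : Peq (rho s j v₂) x := ((oa_rho s j).peq hpe).trans (hj x hx le_rfl)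
    have h2 : Peq (v₂ ⊔ rho s j v₂) x := Peq.sup hv2 hpe h1
    have h3 : Peq (v₂ ⊔ rho s j v₂) v₂ := h2.trans hpe.symm
    refine ⟨v₂ ⊔ rho s j v₂, j, hv2.trans le_sup_left, hne _ le_sup_left, ?_, ?_, ?_⟩
    · rw [phi_sup, cz_sup]
      unfold rho
      rw [phi_cz hs, phi_phi, cz_cz, neg_add_cancel, cz_zero, sup_comm]
    · intro i _ hi
      exact Peq.ort ((oa_cz s i).peq h3.symm) h3.symm hi
    · intro n hn
      rw [cz_sup, hn]
      congr 1
      unfold rho
      rw [cz_cz, add_comm, ← cz_cz]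
      congr 1
      have h4 : cz s (-n) v₂ = v₂ := by
        conv_lhs => rw [← hn]
        rw [cz_cz, neg_add_cancel, cz_zero]
      have h5 := phi_cz hs (-n) v₂
      rw [h4, neg_neg] at h5
      exact h5.symm
  · have hB : ∀ j : ℤ, |j| ≤ M → Ort (rho s j x) x := by
      intro j hj
      rcases hM j hj with h | h
      · exact absurd ⟨j, h⟩ hA
      · exact h
    have hB2 : ∀ j : ℤ, |j| ≤ M → Ort (rho s j v₂) v₂ := fun j hj =>
      Peq.ort ((oa_rho s j).peq hpe.symm) hpe.symm (hB j hj)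
    refine ⟨v₂ ⊔ phi v₂, 0, hv2.trans le_sup_left, hne _ le_sup_left, ?_, ?_, ?_⟩
    · rw [phi_sup, phi_phi, neg_zero, cz_zero, sup_comm]
    · intro i hi1 hi
      have h1 : Ort (cz s i (phi v₂)) v₂ := hB2 i hi1
      have h2 : Ort (cz s i v₂) (phi v₂) := by
        have h3 := hB2 (-i) (by rwa [abs_neg])
        have h4 := (cz_ort s i).2 h3
        unfold rho at h4
        rw [cz_cz, add_neg_cancel, cz_zero] at h4
        exact h4.symm
      have h3 : Ort (cz s i (phi v₂)) (phi v₂) := by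
        rw [← oa_phi.ort, phi_cz hs, phi_phi]
        have h4 := (cz_ort s (-i)).2 hi
        rw [cz_cz, neg_add_cancel, cz_zero] at h4
        exact h4.symm
      rw [cz_sup]
      exact ((hi.sup h2).symm.sup (h1.sup h3).symm).symm
    · intro n hn
      rw [cz_sup, hn]
      congr 1
      have h4 : cz s (-n) v₂ = v₂ := by
        conv_lhs => rw [← hn]
        rw [cz_cz, neg_add_cancel, cz_zero]
      have h5 := phi_cz hs (-n) v₂
      rw [h4, neg_neg] at h5
      exact h5.symm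

/-- Shifting changes the type of the reflection by an even number. -/
theorem phi_shift {s v : G} (hs : phi s = s) {j : ℤ} (hv : phi v = cz s (-j) v) (i : ℤ) :
    phi (cz s i v) = cz s (-(2 * i + j)) (cz s i v) := by
  rw [phi_cz hs, hv, cz_cz, cz_cz]; congr 1; ring

theorem cz_ne_one {s v : G} (hv : v ≠ 1) (i : ℤ) : cz s i v ≠ 1 := by
  intro h
  apply hv
  rw [← cz_one s i] at h
  exact cz_injective s i h

theorem fixB_nat {s x : G} {j : ℤ} (h : FixB (cz s j) x) (m : ℕ) :
    FixB (cz s (m * j)) x := by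
  induction m with
  | zero =>
    intro u _ _
    rw [Nat.cast_zero, zero_mul, cz_zero]
    exact Peq.refl _
  | succ m ih =>
    have := FixB.comp (oa_cz s j) h ih
    intro u hu hux
    have h1 := this u hu hux
    dsimp only at h1
    rw [cz_cz] at h1
    rwa [show ((m + 1 : ℕ) : ℤ) * j = j + m * j by push_cast; ring]

theorem fixB_neg {s x : G} {j : ℤ} (h : FixB (cz s j) x) : FixB (cz s (-j)) x := by
  intro u hu hux
  have h1 := (oa_cz s (-j)).peq (h u hu hux)
  rw [cz_cz, neg_add_cancel, cz_zero] at h1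
  exact h1.symm

theorem fixB_add {s x : G} {i j : ℤ} (h : FixB (cz s i) x) (h' : FixB (cz s j) x) :
    FixB (cz s (i + j)) x := by
  have := FixB.comp (oa_cz s i) h h'
  intro u hu hux
  have h1 := this u hu hux
  dsimp only at h1
  rwa [cz_cz] at h1

/-- Averaging. -/
theorem average {s x v₀ : G} {n : ℤ} {q : ℕ} (hq : q ≠ 0) (hx : 1 ≤ x)
    (hv0 : 1 ≤ v₀) (hv01 : v₀ ≠ 1) (hpe : Peq v₀ x) (hper : cz s (q * n) v₀ = v₀)
    (hfix : FixB (cz s n) x) :
    ∃ v₂, 1 ≤ v₂ ∧ v₂ ≠ 1 ∧ Peq v₂ x ∧ cz s n v₂ = v₂ := by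
  let B : ℕ → G := fun k => Nat.rec v₀ (fun _ b => v₀ ⊔ cz s n b) k
  have hB0 : B 0 = v₀ := rfl
  have hBs : ∀ k, B (k + 1) = v₀ ⊔ cz s n (B k) := fun k => rfl
  have hle : ∀ k, v₀ ≤ B k := by
    intro k
    cases k with
    | zero => exact le_rfl
    | succ k => rw [hBs]; exact le_sup_left
  have hBs' : ∀ k, B (k + 1) = B k ⊔ cz s ((k + 1 : ℕ) * n) v₀ := by
    intro k
    induction k with
    | zero => rw [hBs, hB0]; simp
    | succ k ih =>
      rw [hBs (k + 1)]
      conv_lhs => rw [ih]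
      rw [cz_sup, cz_cz, ← sup_assoc, ← hBs k]
      congr 2
      push_cast; ring
  have hpeq : ∀ k, Peq (B k) x := by
    intro k
    induction k with
    | zero => exact hpe
    | succ k ih =>
      rw [hBs]
      refine Peq.sup hv0 hpe ?_
      exact ((oa_cz s n).peq ih).trans (hfix x hx le_rfl)
  have hper' : ∀ k, cz s (q * n) (B k) = B k := by
    intro k
    induction k with
    | zero => exact hper
    | succ k ih =>
      rw [hBs, cz_sup, hper, cz_cz, add_comm, ← cz_cz, ih]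
  obtain ⟨r, rfl⟩ := Nat.exists_eq_succ_of_ne_zero hq
  have h1 : cz s n (B r) ≤ B r := by
    have h2 := hBs' r
    rw [hBs] at h2
    calc cz s n (B r) ≤ v₀ ⊔ cz s n (B r) := le_sup_right
      _ = B r ⊔ cz s ((r + 1 : ℕ) * n) v₀ := h2
      _ = B r := by
        rw [show ((r + 1 : ℕ) : ℤ) * n = (r.succ : ℕ) * n by rfl, hper]
        exact sup_eq_left.2 (hle r)
  have h2 : ∀ m : ℕ, cz s (((m + 1 : ℕ) : ℤ) * n) (B r) ≤ cz s n (B r) := by
    intro m
    induction m with
    | zero => simp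
    | succ m ih =>
      have h3 : cz s (((m + 1 + 1 : ℕ) : ℤ) * n) (B r)
          = cz s n (cz s (((m + 1 : ℕ) : ℤ) * n) (B r)) := by
        rw [cz_cz]; congr 1; push_cast; ring
      rw [h3]
      exact (cz_mono s n (ih.trans h1))
  have h3 : B r ≤ cz s n (B r) := by
    have h4 := h2 r
    rw [show ((r + 1 : ℕ) : ℤ) * n = (r.succ : ℕ) * n by rfl, hper'] at h4
    exact h4
  refine ⟨B r, hv0.trans (hle r), ?_, hpeq r, le_antisymm h1 h3⟩
  intro h
  exact hv01 (le_antisymm (h ▸ hle r) hv0)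

end

/-! ### The two cases -/

/-- Case II': symmetric elements all of whose powers are outside `RR`. -/
theorem case_two {G : Type*} [MGroup G] {K : ℕ} {s : G} (hs : 1 ≤ s) (hs' : phi s = s)
    (hN : s ^ (2 * K).factorial ∉ RR G) (p : ℕ) :
    Conf G p 0 K ∨ Conf G p 1 K := by
  obtain ⟨w, hw, hw1, hwo⟩ := exists_moved hN
  set L := 2 * K with hL
  let F : List (G → G) := ((List.range L).map (fun i : ℕ => cz s ((i : ℤ) + 1))) ++
    ((List.range (2 * L + 1)).map (fun i : ℕ => rho s ((i : ℤ) - L)))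
  have hF : ∀ f ∈ F, OA f := by
    intro f hf
    rcases List.mem_append.1 hf with hf | hf
    · obtain ⟨i, -, rfl⟩ := List.mem_map.1 hf
      exact oa_cz _ _
    · obtain ⟨i, -, rfl⟩ := List.mem_map.1 hf
      exact oa_rho _ _
  obtain ⟨x, hx, hx1, hxw, hxF⟩ := refine_list F hF hw hw1
  have hxo : Ort (cz s (L.factorial : ℤ) x) x := by
    have h1 : Ort (cz s (L.factorial : ℤ) w) w := by
      unfold cz; rw [zpow_natCast]; exact hwo
    exact h1.mono (one_le_cz _ _ hx) (cz_mono _ _ hxw) hx hxw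
  have hcz : ∀ j : ℕ, 0 < j → j ≤ L → Ort (cz s (j : ℤ) x) x := by
    intro j hj hjL
    have hmem : cz s (j : ℤ) ∈ F := by
      refine List.mem_append.2 (Or.inl (List.mem_map.2 ⟨j - 1, ?_, ?_⟩))
      · rw [List.mem_range]; omega
      · congr 1; omega
    rcases hxF _ hmem with h | h
    · exfalso
      obtain ⟨m, hm⟩ := Nat.dvd_factorial hj hjL
      have h1 := fixB_nat h m
      rw [show (m : ℤ) * j = (L.factorial : ℤ) by rw [hm]; push_cast; ring] at h1
      have h2 := (h1 x hx le_rfl x).1 hxo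
      exact hx1 h2.self
    · exact h
  have hrho : ∀ j : ℤ, |j| ≤ L → FixB (rho s j) x ∨ Ort (rho s j x) x := by
    intro j hj
    refine hxF _ (List.mem_append.2 (Or.inr (List.mem_map.2 ⟨(j + L).toNat, ?_, ?_⟩)))
    · rw [List.mem_range]; rw [abs_le] at hj; omega
    · congr 1; rw [abs_le] at hj; omega
  obtain ⟨v, j, hv, hv1, hphi, hort, -⟩ := reflect hs' hx hx1 (Peq.refl x) hx L hrho
  have hcz' : ∀ i : ℤ, i ≠ 0 → |i| ≤ L → Ort (cz s i v) v := by
    intro i hi0 hiL
    refine hort i hiL ?_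
    have habs := Int.abs_eq_natAbs i
    rcases lt_or_gt_of_ne hi0 with h | h
    · have h1 := hcz i.natAbs (by omega) (by omega)
      have h2 := (cz_ort s i).2 h1
      rw [cz_cz, show i + (i.natAbs : ℤ) = 0 by omega, cz_zero] at h2
      exact h2.symm
    · have h1 := hcz i.natAbs (by omega) (by omega)
      rwa [show (i.natAbs : ℤ) = i by omega] at h1
  have hmk : ∀ (κ i : ℤ), 2 * i + j = κ → Conf G p κ K := by
    intro κ i hi
    refine ⟨s, cz s i v, (List.range (2 * K + 1)).map (fun a : ℕ => (a : ℤ) - K), hs, hs',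
      one_le_cz _ _ hv, cz_ne_one hv1 i, ?_, ?_, ?_, ?_⟩
    · rw [phi_shift hs' hphi, hi]
    · refine List.Nodup.map ?_ List.nodup_range
      intro a b hab
      simpa using hab
    · intro a ha b hb hab
      obtain ⟨a', ha', rfl⟩ := List.mem_map.1 ha
      obtain ⟨b', hb', rfl⟩ := List.mem_map.1 hb
      rw [List.mem_range] at ha' hb'
      have h1 := hcz' ((a' : ℤ) - b') (by omega) (by rw [abs_le]; omega)
      have h2 := (cz_ort s ((b' : ℤ) - K + i)).2 h1
      rw [cz_cz] at h2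
      rw [cz_cz, cz_cz]
      convert h2 using 2
      ring
    · intro b hb
      refine ⟨b, ?_, rfl, rfl⟩
      rw [abs_le] at hb
      refine List.mem_map.2 ⟨(b + K).toNat, ?_, ?_⟩
      · rw [List.mem_range]; omega
      · omega
  rcases Int.even_or_odd' j with ⟨i, hi | hi⟩
  · left; exact hmk 0 (-i) (by omega)
  · right; exact hmk 1 (-i) (by omega)

/-- Case I': a fixed power of every symmetric positive element lies in `RR`. -/
theorem case_one {E : Set (MTerm × MTerm)} (hE : RepComm E) {N : ℕ} (hN : N ≠ 0)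
    {G : Type} [MGroup G] (hG : InV E G)
    (hNs : ∀ s : G, 1 ≤ s → phi s = s → s ^ N ∈ RR G)
    {s : G} (hs : 1 ≤ s) (hs' : phi s = s) (hsR : s ∉ RR G) :
    (∃ p : ℕ, p.Prime ∧ ∀ K, Conf G p 0 K) ∨ ∀ K, Conf G 2 1 K := by
  obtain ⟨w, hw, hw1, hwo⟩ := exists_moved hsR
  let F : List (G → G) := ((List.range N).map (fun i : ℕ => cz s ((i : ℤ) + 1))) ++
    ((List.range (2 * N + 1)).map (fun i : ℕ => rho s ((i : ℤ) - N)))
  have hF : ∀ f ∈ F, OA f := by
    intro f hf
    rcases List.mem_append.1 hf with hf | hf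
    · obtain ⟨i, -, rfl⟩ := List.mem_map.1 hf
      exact oa_cz _ _
    · obtain ⟨i, -, rfl⟩ := List.mem_map.1 hf
      exact oa_rho _ _
  -- `x` with `phi x = x` or `phi x` orthogonal to `x`
  obtain ⟨x, hx, hx1, hxw, hxF, hxphi⟩ : ∃ z, 1 ≤ z ∧ z ≠ 1 ∧ z ≤ w ∧
      (∀ f ∈ F, FixB f z ∨ Ort (f z) z) ∧ (phi z = z ∨ Ort z (phi z)) := by
    obtain ⟨x, hx, hx1, hxw, hxF⟩ := refine_list F hF hw hw1
    have hmem : rho s 0 ∈ F := by
      refine List.mem_append.2 (Or.inr (List.mem_map.2 ⟨N, ?_, ?_⟩))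
      · rw [List.mem_range]; omega
      · congr 1; omega
    have hr0 : ∀ u : G, rho s 0 u = phi u := fun u => by unfold rho; rw [cz_zero]
    rcases hxF _ hmem with h | h
    · refine ⟨x ⊓ phi x, le_inf hx (oa_phi.one_le hx), ?_, inf_le_left.trans hxw, ?_, Or.inl ?_⟩
      · intro h1
        have h2 : Ort x (phi x) := h1
        have h3 := h x hx le_rfl
        rw [hr0] at h3
        exact hx1 ((h3 x).1 h2.symm).self
      · intro f hf
        have hfo := hF f hf
        rcases hxF f hf with h1 | h1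
        · exact Or.inl (h1.mono inf_le_left)
        · refine Or.inr (h1.mono ?_ (hfo.mono inf_le_left) ?_ inf_le_left)
          · exact hfo.one_le (le_inf hx (oa_phi.one_le hx))
          · exact le_inf hx (oa_phi.one_le hx)
      · rw [phi_inf, phi_phi, inf_comm]
    · refine ⟨x, hx, hx1, hxw, hxF, Or.inr ?_⟩
      rw [hr0] at h
      exact h.symm
  have hx1o : Ort (cz s 1 x) x := by
    have h1 : Ort (cz s 1 w) w := by unfold cz; simpa using hwo
    exact h1.mono (one_le_cz _ _ hx) (cz_mono _ _ hxw) hx hxw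
  -- `x ^ N ∈ RR G`
  have hxN : x ^ N ∈ RR G := by
    rcases hxphi with h | h
    · exact hNs x hx h
    · have h1 : (x * phi x) ^ N = x ^ N * (phi x) ^ N := (show Commute x (phi x) from h.comm).mul_pow N
      have h2 := hNs (x * phi x) (one_le_mul_of hx (oa_phi.one_le hx)) (by
        rw [phi_mul, phi_phi])
      rw [h1] at h2
      exact pow_mem_of_ort h h2
  have hsN : s ^ N ∈ RR G := hNs s hs hs'
  have hcomm : cz s (N : ℤ) (x ^ N) = x ^ N := by
    unfold cz
    rw [zpow_natCast, RR_comm hE hG hsN hxN]; group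
  -- the order
  have hfixN : FixB (cz s (N : ℤ)) x := by
    intro u hu hux
    unfold cz
    rw [zpow_natCast]
    exact RR_peq hsN u
  classical
  have hex : ∃ n : ℕ, 0 < n ∧ FixB (cz s (n : ℤ)) x := ⟨N, by omega, hfixN⟩
  obtain ⟨hn0, hnfix⟩ := Nat.find_spec hex
  have hnmin : ∀ m : ℕ, m < Nat.find hex → ¬ (0 < m ∧ FixB (cz s (m : ℤ)) x) :=
    fun m hm => Nat.find_min hex hm
  have hnN : Nat.find hex ≤ N := Nat.find_min' hex ⟨by omega, hfixN⟩
  set n := Nat.find hex with hn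
  have hn1 : n ≠ 1 := by
    intro h1
    rw [h1] at hnfix
    have h2 := (hnfix x hx le_rfl x).1 (by simpa using hx1o)
    exact hx1 h2.self
  have hn2 : 2 ≤ n := by omega
  have hcz : ∀ j : ℕ, 0 < j → j < n → Ort (cz s (j : ℤ) x) x := by
    intro j hj hjL
    have hmem : cz s (j : ℤ) ∈ F := by
      refine List.mem_append.2 (Or.inl (List.mem_map.2 ⟨j - 1, ?_, ?_⟩))
      · rw [List.mem_range]; omega
      · congr 1; omega
    rcases hxF _ hmem with h | h
    · exact absurd ⟨hj, h⟩ (hnmin j hjL)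
    · exact h
  have hdvd : n ∣ N := by
    have h1 := Nat.div_add_mod N n
    by_contra h2
    have h3 : 0 < N % n := Nat.pos_of_ne_zero (fun h => h2 (Nat.dvd_of_mod_eq_zero h))
    refine hnmin (N % n) (Nat.mod_lt _ hn0) ⟨h3, ?_⟩
    have h4 := fixB_add hfixN (fixB_neg (fixB_nat hnfix (N / n)))
    have h5 : (N : ℤ) + -(((N / n : ℕ) : ℤ) * n) = ((N % n : ℕ) : ℤ) := by
      have : (N : ℤ) = n * (N / n : ℕ) + (N % n : ℕ) := by exact_mod_cast h1.symm
      rw [this]; push_cast; ring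
    rwa [h5] at h4
  obtain ⟨q, hq⟩ := hdvd
  have hq0 : q ≠ 0 := by rintro rfl; omega
  obtain ⟨v₂, hv2, hv21, hpe2, hper2⟩ := average (s := s) (x := x) (v₀ := x ^ N) (n := n) hq0 hx
    (one_le_pow_of_one_le' hx N) (fun h => hx1 (one_of_pow_eq_one hx hN h))
    (Peq.pow hx hN) (by
      rw [show (q : ℤ) * (n : ℤ) = (N : ℤ) by rw [hq]; push_cast; ring]
      exact hcomm) hnfix
  have hrho : ∀ j : ℤ, |j| ≤ N → FixB (rho s j) x ∨ Ort (rho s j x) x := by
    intro j hj
    refine hxF _ (List.mem_append.2 (Or.inr (List.mem_map.2 ⟨(j + N).toNat, ?_, ?_⟩)))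
    · rw [List.mem_range]; rw [abs_le] at hj; omega
    · congr 1; rw [abs_le] at hj; omega
  obtain ⟨v, j, hv, hv1, hphi, hort, hper⟩ := reflect hs' hv2 hv21 hpe2 hx N hrho
  have hpern := hper n hper2
  have hcz' : ∀ i : ℤ, 0 < i → i < n → Ort (cz s i v) v := by
    intro i hi0 hiL
    refine hort i (by rw [abs_le]; omega) ?_
    have h1 := hcz i.natAbs (by omega) (by omega)
    rw [show (i.natAbs : ℤ) = i by omega] at h1
    exact Peq.ort ((oa_cz s i).peq hpe2.symm) hpe2.symm h1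
  have hperm : ∀ (m : ℤ) (u : G), cz s n u = u → cz s (n * m) u = u := by
    intro m u hu
    have h1 : ∀ k : ℕ, cz s (n * k) u = u := by
      intro k
      induction k with
      | zero => simp [cz_zero]
      | succ k ih =>
        rw [show (n : ℤ) * ((k + 1 : ℕ) : ℤ) = n + n * k by push_cast; ring, ← cz_cz, ih, hu]
    rcases le_total 0 m with hm | hm
    · obtain ⟨k, rfl⟩ := Int.eq_ofNat_of_zero_le hm
      exact h1 k
    · obtain ⟨k, hk⟩ := Int.eq_ofNat_of_zero_le (Int.neg_nonneg_of_nonpos hm)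
      have h2 := h1 k
      have h3 : m = -(k : ℤ) := by omega
      rw [h3]
      conv_lhs => rw [← h2]
      rw [cz_cz, show (n : ℤ) * -(k : ℤ) + n * k = 0 by ring, cz_zero]
  have hmk : ∀ (p : ℕ) (κ i j' : ℤ), p ∣ n → phi v = cz s (-j') v → 2 * i + j' = κ →
      ∀ K, Conf G p κ K := by
    intro p κ i j' hp hphi' hi K
    refine ⟨s, cz s i v, (List.range n).map (fun a : ℕ => (a : ℤ)), hs, hs',
      one_le_cz _ _ hv, cz_ne_one hv1 i, ?_, ?_, ?_, ?_⟩
    · rw [phi_shift hs' hphi', hi]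
    · refine List.Nodup.map ?_ List.nodup_range
      intro a b hab
      simpa using hab
    · have hlt : ∀ a b : ℕ, a < n → b < a → Ort (cz s a (cz s i v)) (cz s b (cz s i v)) := by
        intro a b ha hb
        have h1 := hcz' ((a : ℤ) - b) (by omega) (by omega)
        have h2 := (cz_ort s ((b : ℤ) + i)).2 h1
        rw [cz_cz] at h2
        rw [cz_cz, cz_cz]
        convert h2 using 2
        ring
      intro a ha b hb hab
      obtain ⟨a', ha', rfl⟩ := List.mem_map.1 ha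
      obtain ⟨b', hb', rfl⟩ := List.mem_map.1 hb
      rw [List.mem_range] at ha' hb'
      rcases lt_trichotomy a' b' with h | h | h
      · exact (hlt b' a' hb' h).symm
      · exact absurd (by rw [h]) hab
      · exact hlt a' b' ha' h
    · intro b hb
      refine ⟨b % n, ?_, ?_, ?_⟩
      · refine List.mem_map.2 ⟨(b % n).toNat, ?_, ?_⟩
        · rw [List.mem_range]
          have := Int.emod_lt_of_pos b (show (0 : ℤ) < n by omega)
          have := Int.emod_nonneg b (show (n : ℤ) ≠ 0 by omega)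
          omega
        · have := Int.emod_nonneg b (show (n : ℤ) ≠ 0 by omega)
          omega
      · rw [ZMod.intCast_eq_intCast_iff]
        have h1 : b % n ≡ b [ZMOD n] := Int.mod_modEq b n
        exact h1.of_dvd (by exact_mod_cast hp)
      · rw [cz_cz, cz_cz]
        have h1 : b + i = (b % n + i) + n * (b / n) := by
          have := Int.emod_add_mul_ediv b n
          linarith
        rw [h1, ← cz_cz s (b % n + i), hperm _ _ hpern]
  rcases Nat.even_or_odd n with hev | hodd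
  · have h2n : 2 ∣ n := hev.two_dvd
    rcases Int.even_or_odd' j with ⟨i, hi | hi⟩
    · left
      exact ⟨2, Nat.prime_two, hmk 2 0 (-i) j h2n hphi (by omega)⟩
    · right
      exact hmk 2 1 (-i) j h2n hphi (by omega)
  · left
    refine ⟨n.minFac, Nat.minFac_prime hn1, ?_⟩
    rcases Int.even_or_odd' j with ⟨i, hi | hi⟩
    · exact hmk _ 0 (-i) j (Nat.minFac_dvd n) hphi (by omega)
    · obtain ⟨t, ht⟩ := hodd
      refine hmk _ 0 (-(i + t + 1)) (j + n) (Nat.minFac_dvd n) ?_ (by omega)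
      rw [hphi]
      have h1 : cz s (-(n : ℤ)) v = v := by
        have := hperm (-1) v hpern
        rwa [show (n : ℤ) * -1 = -(n : ℤ) by ring] at this
      conv_lhs => rw [← h1]
      rw [cz_cz]; congr 1; ring

theorem Conf.mono {G : Type*} [MGroup G] {p : ℕ} {κ : ℤ} {K K' : ℕ} (h : K' ≤ K)
    (hC : Conf G p κ K) : Conf G p κ K' := by
  obtain ⟨s, v, I, h1, h2, h3, h4, h5, h6, h7, h8⟩ := hC
  exact ⟨s, v, I, h1, h2, h3, h4, h5, h6, h7, fun j hj => h8 j (by omega)⟩

/-- The non-representable case of the classification. -/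
theorem nonrep {E : Set (MTerm × MTerm)} (hE : RepComm E) {G : Type} [MGroup G]
    (hG : InV E G) (hnc : ∃ x y : G, x * y ≠ y * x) :
    (∃ p : ℕ, p.Prime ∧ InV E (Sc p 0)) ∨ InV E (Sc 2 1) := by
  by_cases hI : ∃ N : ℕ, N ≠ 0 ∧ ∀ (H : Type) [MGroup H], InV E H →
      ∀ s : H, 1 ≤ s → phi s = s → s ^ N ∈ RR H
  · obtain ⟨N, hN, hNs⟩ := hI
    have hR : ∃ g : G, g ∉ RR G := by
      by_contra hcon
      obtain ⟨x, y, hxy⟩ := hnc
      apply hxy
      refine RR_comm hE hG ?_ ?_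
      · by_contra h; exact hcon ⟨_, h⟩
      · by_contra h; exact hcon ⟨_, h⟩
    obtain ⟨g, hg⟩ := hR
    obtain ⟨s, hs, hs', hsR⟩ := sym_exists hg
    rcases case_one hE hN hG (hNs G hG) hs hs' hsR with ⟨p, hp, hC⟩ | hC
    · left
      refine ⟨p, hp, fun e he => holds_of_conf hp.two_le fun K => ⟨⟨G⟩, hG e he, hC K⟩⟩
    · right
      exact fun e he => holds_of_conf le_rfl fun K => ⟨⟨G⟩, hG e he, hC K⟩
  · have hII : ∀ K : ℕ, (∃ H : MGrp, (∀ e ∈ E, MHolds H.carrier e) ∧ Conf H.carrier 2 0 K) ∨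
        (∃ H : MGrp, (∀ e ∈ E, MHolds H.carrier e) ∧ Conf H.carrier 2 1 K) := by
      intro K
      by_contra hcon
      rw [not_or] at hcon
      apply hI
      refine ⟨(2 * K).factorial, Nat.factorial_ne_zero _, ?_⟩
      intro H _ hH s hs hs'
      by_contra hsR
      rcases case_two hs hs' hsR 2 with h | h
      · exact hcon.1 ⟨⟨H⟩, hH, h⟩
      · exact hcon.2 ⟨⟨H⟩, hH, h⟩
    by_cases h0 : ∀ K : ℕ, ∃ H : MGrp, (∀ e ∈ E, MHolds H.carrier e) ∧ Conf H.carrier 2 0 K
    · left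
      refine ⟨2, Nat.prime_two, fun e he => holds_of_conf le_rfl fun K => ?_⟩
      obtain ⟨H, hH, hC⟩ := h0 K
      exact ⟨H, hH e he, hC⟩
    · right
      rw [not_forall] at h0
      obtain ⟨K₀, hK₀⟩ := h0
      intro e he
      refine holds_of_conf le_rfl fun K => ?_
      rcases hII (max K K₀) with ⟨H, hH, hC⟩ | ⟨H, hH, hC⟩
      · exact absurd ⟨H, hH, hC.mono (le_max_right _ _)⟩ hK₀
      · exact ⟨H, hH e he, hC.mono (le_max_left _ _)⟩

end Pool.Helper55.MG
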