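import Pool.Agent.Helper55.MG.Sub

/-! # Orthogonality in lattice-ordered groups -/

set_option linter.unusedVariables false

namespace Pool.Helper55.MG

section lgroup

variable {G : Type*} [LGroup G]

/-- Orthogonal (positive) elements. -/
def Ort (a b : G) : Prop := a ⊓ b = 1

theorem Ort.symm {a b : G} (h : Ort a b) : Ort b a := by
  unfold Ort at *; rwa [inf_comm]

theorem Ort.left {a b : G} (h : Ort a b) : 1 ≤ a := by
  unfold Ort at h; rw [← h]; exact inf_le_left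

theorem Ort.right {a b : G} (h : Ort a b) : 1 ≤ b := h.symm.left

theorem Ort.mono {a b a' b' : G} (h : Ort a b) (ha : 1 ≤ a') (ha' : a' ≤ a) (hb : 1 ≤ b')
    (hb' : b' ≤ b) : Ort a' b' := by
  unfold Ort at *
  exact le_antisymm ((inf_le_inf ha' hb').trans h.le) (le_inf ha hb)

theorem Ort.self {a : G} (h : Ort a a) : a = 1 := by
  unfold Ort at h; rwa [inf_idem] at h

theorem Ort.of_le {a b : G} (h : Ort a b) (h' : a ≤ b) : a = 1 := by
  unfold Ort at h; rwa [inf_eq_left.2 h'] at h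

theorem ort_one {a : G} (h : 1 ≤ a) : Ort a 1 := by
  unfold Ort; exact inf_eq_right.2 h

theorem one_le_mul_of {a b : G} (ha : 1 ≤ a) (hb : 1 ≤ b) : 1 ≤ a * b :=
  one_le_mul ha hb

theorem Ort.mul {a b c : G} (h : Ort a b) (h' : Ort a c) : Ort a (b * c) := by
  have ha := h.left
  have hb := h.right
  have hc := h'.right
  unfold Ort at *
  refine le_antisymm ?_ (le_inf ha (one_le_mul hb hc))
  calc a ⊓ (b * c) ≤ (a ⊓ b) * (a ⊓ c) := by
        rw [inf_mul, mul_inf, mul_inf]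
        refine le_inf (le_inf ?_ ?_) (le_inf ?_ ?_)
        · exact inf_le_left.trans (le_mul_of_one_le_left' ha)
        · exact inf_le_left.trans (le_mul_of_one_le_right' hc)
        · exact inf_le_left.trans (le_mul_of_one_le_left' hb)
        · exact inf_le_right
    _ = 1 := by rw [h, h', mul_one]

theorem Ort.pow_right {a b : G} (h : Ort a b) (n : ℕ) : Ort a (b ^ n) := by
  induction n with
  | zero => rw [pow_zero]; exact ort_one h.left
  | succ n ih => rw [pow_succ]; exact ih.mul h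

theorem Ort.pow {a b : G} (h : Ort a b) (m n : ℕ) : Ort (a ^ m) (b ^ n) :=
  ((h.pow_right n).symm.pow_right m).symm

theorem sup_le_mul {a b : G} (ha : 1 ≤ a) (hb : 1 ≤ b) : a ⊔ b ≤ a * b :=
  sup_le (le_mul_of_one_le_right' hb) (le_mul_of_one_le_left' ha)

theorem Ort.sup {a b c : G} (h : Ort a b) (h' : Ort a c) : Ort a (b ⊔ c) :=
  (h.mul h').mono h.left le_rfl (h.right.trans le_sup_left) (sup_le_mul h.right h'.right)

theorem mul_inv_inf_mul (a b : G) : a * (a ⊓ b)⁻¹ * b = a ⊔ b := by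
  rw [inv_inf, mul_sup, sup_mul, mul_inv_cancel, one_mul, mul_assoc, inv_mul_cancel, mul_one,
    sup_comm]

theorem Ort.mul_eq {a b : G} (h : Ort a b) : a * b = a ⊔ b := by
  have := mul_inv_inf_mul a b
  unfold Ort at h
  rwa [h, inv_one, mul_one] at this

theorem Ort.comm {a b : G} (h : Ort a b) : a * b = b * a := by
  rw [h.mul_eq, h.symm.mul_eq, sup_comm]

theorem pos_mul_neg (g : G) : (g ⊔ 1) * (g⁻¹ ⊔ 1)⁻¹ = g := by
  have h : g⁻¹ ⊔ 1 = g⁻¹ * (g ⊔ 1) := by
    rw [mul_sup, inv_mul_cancel, mul_one, sup_comm]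
  rw [h]; group

theorem pos_ort_neg (g : G) : Ort (g ⊔ 1) (g⁻¹ ⊔ 1) := by
  have h : g⁻¹ ⊔ 1 = g⁻¹ * (g ⊔ 1) := by
    rw [mul_sup, inv_mul_cancel, mul_one, sup_comm]
  unfold Ort
  have h2 : (g ⊔ 1) ⊓ (g⁻¹ * (g ⊔ 1)) = (1 ⊓ g⁻¹) * (g ⊔ 1) := by
    rw [inf_mul, one_mul]
  rw [h, h2]
  have h3 : (1 : G) ⊓ g⁻¹ = (g ⊔ 1)⁻¹ := by rw [inv_sup, inv_one, inf_comm]
  rw [h3, inv_mul_cancel]

theorem one_of_pow_eq_one {x : G} (hx : 1 ≤ x) {n : ℕ} (hn : n ≠ 0) (h : x ^ n = 1) : x = 1 :=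
  le_antisymm (h ▸ le_self_pow hx hn) hx

/-- conjugation by a power -/
def cz (s : G) (j : ℤ) (x : G) : G := s ^ j * x * (s ^ j)⁻¹

theorem cz_cz (s : G) (i j : ℤ) (x : G) : cz s i (cz s j x) = cz s (i + j) x := by
  unfold cz; rw [zpow_add]; group

theorem cz_zero (s : G) (x : G) : cz s 0 x = x := by simp [cz]

theorem cz_one (s : G) (j : ℤ) : cz s j (1 : G) = 1 := by simp [cz]

theorem cz_mul (s : G) (j : ℤ) (x y : G) : cz s j (x * y) = cz s j x * cz s j y := by
  unfold cz; group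

theorem cz_inv (s : G) (j : ℤ) (x : G) : cz s j x⁻¹ = (cz s j x)⁻¹ := by
  unfold cz; group

theorem cz_zpow (s : G) (j : ℤ) (x : G) (n : ℤ) : cz s j (x ^ n) = (cz s j x) ^ n := by
  unfold cz; rw [conj_zpow]

theorem cz_pow (s : G) (j : ℤ) (x : G) (n : ℕ) : cz s j (x ^ n) = (cz s j x) ^ n := by
  unfold cz; rw [conj_pow]

theorem cz_inf (s : G) (j : ℤ) (x y : G) : cz s j (x ⊓ y) = cz s j x ⊓ cz s j y := by
  unfold cz; rw [mul_inf, inf_mul]

theorem cz_sup (s : G) (j : ℤ) (x y : G) : cz s j (x ⊔ y) = cz s j x ⊔ cz s j y := by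
  unfold cz; rw [mul_sup, sup_mul]

theorem cz_mono (s : G) (j : ℤ) {x y : G} (h : x ≤ y) : cz s j x ≤ cz s j y := by
  unfold cz; exact mul_le_mul_left (mul_le_mul_right h _) _

theorem one_le_cz (s : G) (j : ℤ) {x : G} (h : 1 ≤ x) : 1 ≤ cz s j x := by
  rw [← cz_one s j]; exact cz_mono _ _ h

theorem cz_injective (s : G) (j : ℤ) : Function.Injective (cz s j) := by
  intro x y h
  have := congrArg (cz s (-j)) h
  rwa [cz_cz, cz_cz, neg_add_cancel, cz_zero, cz_zero] at this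

theorem cz_surjective (s : G) (j : ℤ) : Function.Surjective (cz s j) := fun x =>
  ⟨cz s (-j) x, by rw [cz_cz, add_neg_cancel, cz_zero]⟩

theorem cz_ort (s : G) (j : ℤ) {x y : G} : Ort (cz s j x) (cz s j y) ↔ Ort x y := by
  unfold Ort
  rw [← cz_inf, ← cz_one s j, (cz_injective s j).eq_iff, cz_one]

/-- A positive element which is moved off itself by a positive element `s` is dominated by
`s`. -/
theorem le_of_ort {s w : G} (hs : 1 ≤ s) (hw : 1 ≤ w) (h : Ort (s * w * s⁻¹) w) : w ≤ s := by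
  have h1 : w * s⁻¹ ⊔ 1 ≤ w := by
    refine sup_le ?_ hw
    exact mul_le_of_le_one_right' (inv_le_one'.2 hs)
  have h2 : w * s⁻¹ ⊔ 1 ≤ s * w * s⁻¹ := by
    refine sup_le ?_ h.left
    exact mul_le_mul_left (le_mul_of_one_le_left' hs) _
  have h3 : w * s⁻¹ ⊔ 1 ≤ 1 := by
    have := le_inf h2 h1
    unfold Ort at h
    rwa [h] at this
  have h4 : w * s⁻¹ ≤ 1 := le_sup_left.trans h3
  exact mul_inv_le_one_iff_le.1 h4

theorem pow_le_of_ort {s w : G} (hs : 1 ≤ s) (hw : 1 ≤ w) (h : Ort (s * w * s⁻¹) w) (n : ℕ) :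
    w ^ n ≤ s := by
  refine le_of_ort hs (one_le_pow_of_one_le' hw n) ?_
  rw [← conj_pow]
  exact h.pow n n

theorem zpow_le_of_ort {s w : G} (hs : 1 ≤ s) (hw : 1 ≤ w) (h : Ort (s * w * s⁻¹) w) (n : ℤ) :
    w ^ n ≤ s := by
  rcases le_total 0 n with hn | hn
  · obtain ⟨m, rfl⟩ := Int.eq_ofNat_of_zero_le hn
    rw [zpow_natCast]
    exact pow_le_of_ort hs hw h m
  · obtain ⟨m, hm⟩ := Int.eq_ofNat_of_zero_le (Int.neg_nonneg_of_nonpos hn)
    have hn' : n = -(m : ℤ) := by omega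
    rw [hn', zpow_neg, zpow_natCast]
    exact (inv_le_one'.2 (one_le_pow_of_one_le' hw m)).trans hs

/-! ### Polar equivalence and order automorphisms -/

/-- Two positive elements have the same polar. -/
def Peq (a b : G) : Prop := ∀ v, Ort a v ↔ Ort b v

theorem Peq.refl (a : G) : Peq a a := fun _ => Iff.rfl
theorem Peq.symm {a b : G} (h : Peq a b) : Peq b a := fun v => (h v).symm
theorem Peq.trans {a b c : G} (h : Peq a b) (h' : Peq b c) : Peq a c :=
  fun v => (h v).trans (h' v)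

theorem Peq.ort {a b a' b' : G} (h : Peq a a') (h' : Peq b b') (ho : Ort a b) : Ort a' b' :=
  ((h' a').1 ((h b).1 ho).symm).symm

/-- Lattice automorphisms fixing `1`. -/
structure OA (f : G → G) : Prop where
  one : f 1 = 1
  inf : ∀ a b, f (a ⊓ b) = f a ⊓ f b
  sup : ∀ a b, f (a ⊔ b) = f a ⊔ f b
  inj : Function.Injective f
  surj : Function.Surjective f

theorem OA.mono {f : G → G} (hf : OA f) {a b : G} (h : a ≤ b) : f a ≤ f b := by
  have := hf.sup a b
  rw [sup_eq_right.2 h] at this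
  rw [this]; exact le_sup_left

theorem OA.one_le {f : G → G} (hf : OA f) {a : G} (h : 1 ≤ a) : 1 ≤ f a := by
  rw [← hf.one]; exact hf.mono h

theorem OA.ort {f : G → G} (hf : OA f) {a b : G} : Ort (f a) (f b) ↔ Ort a b := by
  unfold Ort
  rw [← hf.inf]
  constructor
  · intro h; apply hf.inj; rw [h, hf.one]
  · intro h; rw [h, hf.one]

theorem OA.peq {f : G → G} (hf : OA f) {a b : G} (h : Peq a b) : Peq (f a) (f b) := by
  intro v
  obtain ⟨v, rfl⟩ := hf.surj v
  rw [hf.ort, hf.ort]; exact h v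

theorem OA.comp {f g : G → G} (hf : OA f) (hg : OA g) : OA (fun x => f (g x)) where
  one := by rw [hg.one, hf.one]
  inf a b := by rw [hg.inf, hf.inf]
  sup a b := by rw [hg.sup, hf.sup]
  inj := hf.inj.comp hg.inj
  surj := hf.surj.comp hg.surj

theorem oa_cz (s : G) (j : ℤ) : OA (cz s j) where
  one := cz_one s j
  inf := cz_inf s j
  sup := cz_sup s j
  inj := cz_injective s j
  surj := cz_surjective s j

/-- `f` fixes the polar of every positive element below `x`. -/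
def FixB (f : G → G) (x : G) : Prop := ∀ u, 1 ≤ u → u ≤ x → Peq (f u) u

theorem FixB.mono {f : G → G} {x y : G} (h : FixB f x) (hy : y ≤ x) : FixB f y :=
  fun u hu hu' => h u hu (hu'.trans hy)

theorem FixB.comp {f g : G → G} {x : G} (hf : OA f) (h : FixB f x) (h' : FixB g x) :
    FixB (fun x => f (g x)) x :=
  fun u hu hu' => (hf.peq (h' u hu hu')).trans (h u hu hu')

theorem refine_one {f : G → G} (hf : OA f) {x : G} (hx : 1 ≤ x) (hx1 : x ≠ 1) :
    FixB f x ∨ ∃ z, 1 ≤ z ∧ z ≠ 1 ∧ z ≤ x ∧ Ort (f z) z := by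
  by_contra hcon
  rw [not_or] at hcon
  obtain ⟨h1, h2'⟩ := hcon
  have h2 : ∀ z, 1 ≤ z → z ≠ 1 → z ≤ x → ¬ Ort (f z) z := fun z hz hz1 hz2 hz3 =>
    h2' ⟨z, hz, hz1, hz2, hz3⟩
  clear h2'
  apply h1
  intro u hu hux v
  constructor
  · intro h
    by_contra h3
    have hz : u ⊓ v ≠ 1 := h3
    have hv := h.right
    refine h2 (u ⊓ v) (le_inf hu hv) hz (inf_le_left.trans hux) ?_
    exact h.mono (hf.one_le (le_inf hu hv)) (hf.mono inf_le_left) (le_inf hu hv) inf_le_right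
  · intro h
    by_contra h3
    have hv := h.right
    obtain ⟨v', rfl⟩ := hf.surj v
    have hv' : 1 ≤ v' := by
      have : f (1 ⊓ v') = f 1 := by rw [hf.inf, hf.one]; exact inf_eq_left.2 hv
      exact inf_eq_left.1 (hf.inj this)
    have hz : u ⊓ v' ≠ 1 := by
      intro h4
      apply h3
      rw [hf.ort]; exact h4
    refine h2 (u ⊓ v') (le_inf hu hv') hz (inf_le_left.trans hux) ?_
    exact (h.mono (le_inf hu hv') inf_le_left (hf.one_le (le_inf hu hv'))
      (hf.mono inf_le_right)).symm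

theorem refine_list (F : List (G → G)) (hF : ∀ f ∈ F, OA f) {x : G} (hx : 1 ≤ x)
    (hx1 : x ≠ 1) : ∃ z, 1 ≤ z ∧ z ≠ 1 ∧ z ≤ x ∧ ∀ f ∈ F, FixB f z ∨ Ort (f z) z := by
  induction F with
  | nil => exact ⟨x, hx, hx1, le_rfl, by simp⟩
  | cons f F ih =>
    obtain ⟨z, hz, hz1, hzx, hzF⟩ := ih (fun f hf => hF f (List.mem_cons_of_mem _ hf))
    have hfo := hF f List.mem_cons_self
    rcases refine_one hfo hz hz1 with h | ⟨w, hw, hw1, hwz, hwo⟩
    · refine ⟨z, hz, hz1, hzx, ?_⟩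
      intro g hg
      rcases List.mem_cons.1 hg with rfl | hg
      · exact Or.inl h
      · exact hzF g hg
    · refine ⟨w, hw, hw1, hwz.trans hzx, ?_⟩
      intro g hg
      rcases List.mem_cons.1 hg with rfl | hg
      · exact Or.inr hwo
      · have hgo := hF g (List.mem_cons_of_mem _ hg)
        rcases hzF g hg with h | h
        · exact Or.inl (h.mono hwz)
        · exact Or.inr (h.mono (hgo.one_le hw) (hgo.mono hwz) hw hwz)

/-! ### Representable elements -/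

/-- A lattice-ordered group is representable when orthogonality is preserved by conjugating one
of the two elements. -/
def Rp (G : Type*) [LGroup G] : Prop := ∀ u v g : G, Ort u v → Ort (g * u * g⁻¹) v

/-- Elements `g` with `u ⊥ v → g u g⁻¹ ⊥ v`. -/
def RR (G : Type*) [LGroup G] : Set G := {g | ∀ u v : G, Ort u v → Ort (g * u * g⁻¹) v}

theorem conj_ort (g : G) {x y : G} : Ort (g * x * g⁻¹) (g * y * g⁻¹) ↔ Ort x y := by
  have := cz_ort g 1 (x := x) (y := y)
  simpa [cz] using this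

theorem RR.one : (1 : G) ∈ RR G := by
  intro u v h
  simpa using h

theorem RR.mul {g h : G} (hg : g ∈ RR G) (hh : h ∈ RR G) : g * h ∈ RR G := by
  intro u v huv
  have := hg _ _ (hh _ _ huv)
  rwa [show g * h * u * (g * h)⁻¹ = g * (h * u * h⁻¹) * g⁻¹ by group]

theorem RR.inv {g : G} (hg : g ∈ RR G) : g⁻¹ ∈ RR G := by
  intro u v huv
  have := (hg _ _ huv.symm).symm
  rw [← conj_ort g]
  rwa [show g * (g⁻¹ * u * g⁻¹⁻¹) * g⁻¹ = u by group]

theorem RR.pow {g : G} (hg : g ∈ RR G) (n : ℕ) : g ^ n ∈ RR G := by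
  induction n with
  | zero => rw [pow_zero]; exact RR.one
  | succ n ih => rw [pow_succ]; exact RR.mul ih hg

theorem RR.conj {g : G} (hg : g ∈ RR G) (k : G) : k * g * k⁻¹ ∈ RR G := by
  intro u v huv
  have h1 : Ort (k⁻¹ * u * k⁻¹⁻¹) (k⁻¹ * v * k⁻¹⁻¹) := (conj_ort k⁻¹).2 huv
  have h2 := hg _ _ h1
  rw [← conj_ort k] at h2
  rwa [show k * (k⁻¹ * v * k⁻¹⁻¹) * k⁻¹ = v by group,
    show k * (g * (k⁻¹ * u * k⁻¹⁻¹) * g⁻¹) * k⁻¹ = k * g * k⁻¹ * u * (k * g * k⁻¹)⁻¹ by group] at h2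

theorem conj_sup_le {g h w : G} (hw : 1 ≤ w) :
    (g ⊔ h) * w * (g ⊔ h)⁻¹ ≤ (g * w * g⁻¹) ⊔ (h * w * h⁻¹) := by
  rw [sup_mul, sup_mul]
  refine sup_le (le_sup_of_le_left ?_) (le_sup_of_le_right ?_)
  · exact mul_le_mul_right (inv_le_inv_iff.2 le_sup_left) _
  · exact mul_le_mul_right (inv_le_inv_iff.2 le_sup_right) _

theorem one_le_conj (g : G) {w : G} (hw : 1 ≤ w) : 1 ≤ g * w * g⁻¹ := by
  have := one_le_cz g 1 hw
  simpa [cz] using this

theorem RR.sup {g h : G} (hg : g ∈ RR G) (hh : h ∈ RR G) : g ⊔ h ∈ RR G := by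
  intro u v huv
  have h1 := (hg _ _ huv).symm.sup (hh _ _ huv).symm
  exact (h1.mono h1.left le_rfl (one_le_conj _ huv.left) (conj_sup_le huv.left)).symm

/-- An element outside `RR G` moves some positive element off itself. -/
theorem exists_moved {g : G} (hg : g ∉ RR G) : ∃ w, 1 ≤ w ∧ w ≠ 1 ∧ Ort (g * w * g⁻¹) w := by
  have hg' : ¬ ∀ u v : G, Ort u v → Ort (g * u * g⁻¹) v := hg
  simp only [not_forall] at hg'
  obtain ⟨u, v, huv, h⟩ := hg'
  have hz1 : 1 ≤ g⁻¹ * v * g := by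
    have := one_le_conj g⁻¹ huv.right
    rwa [inv_inv] at this
  refine ⟨u ⊓ (g⁻¹ * v * g), le_inf huv.left hz1, ?_, ?_⟩
  · intro h1
    apply h
    unfold Ort
    have h2 : g * (u ⊓ (g⁻¹ * v * g)) * g⁻¹ = g * u * g⁻¹ ⊓ v := by
      rw [mul_inf, inf_mul]; congr 1; group
    rw [← h2, h1]; group
  · have h2 : g * (u ⊓ (g⁻¹ * v * g)) * g⁻¹ = g * u * g⁻¹ ⊓ v := by
      rw [mul_inf, inf_mul]; congr 1; group
    rw [h2]
    refine huv.symm.mono ?_ inf_le_right (le_inf huv.left hz1) inf_le_left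
    exact le_inf (one_le_conj g huv.left) huv.right

theorem not_mem_RR_of_moved {g w : G} (hw1 : w ≠ 1) (h : Ort (g * w * g⁻¹) w) : g ∉ RR G := by
  intro hg
  have h1 := hg _ _ h.symm
  have h2 := h1.self
  apply hw1
  have := congrArg (fun x => g⁻¹ * x * g) h2
  simpa [mul_assoc] using this

theorem RR_peq {g : G} (hg : g ∈ RR G) (u : G) : Peq (g * u * g⁻¹) u := by
  intro v
  constructor
  · intro h
    have := (RR.inv hg) _ _ h
    rwa [show g⁻¹ * (g * u * g⁻¹) * g⁻¹⁻¹ = u by group] at this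
  · intro h
    exact hg _ _ h

end lgroup

section mgroup

variable {G : Type*} [MGroup G]

theorem oa_phi : OA (phi : G → G) where
  one := phi_one
  inf := phi_inf
  sup := phi_sup
  inj := fun _ _ h => phi_inj h
  surj := fun x => ⟨phi x, phi_phi x⟩

theorem phi_cz {s : G} (hs : phi s = s) (j : ℤ) (x : G) : phi (cz s j x) = cz s (-j) (phi x) := by
  unfold cz
  rw [phi_mul, phi_mul, phi_inv, phi_zpow, hs, zpow_neg]
  group

theorem RR.phi {g : G} (hg : g ∈ RR G) : phi g ∈ RR G := by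
  intro u v huv
  rw [← oa_phi.ort]
  have h1 : Ort (MG.phi u) (MG.phi v) := oa_phi.ort.2 huv
  have h2 := (RR.inv hg) _ _ h1
  rwa [phi_mul, phi_mul, phi_inv, phi_phi, ← mul_assoc, ← inv_inv g,
    show g⁻¹⁻¹⁻¹ * MG.phi u * g⁻¹⁻¹ = g⁻¹ * MG.phi u * g⁻¹⁻¹ by group]

theorem RR.st {g : G} (hg : g ∈ RR G) : MGroup.st g ∈ RR G := by
  have h1 := RR.inv (RR.phi hg)
  unfold MG.phi at h1
  rwa [inv_inv] at h1

/-- The sub-m-group `RR G`. -/
def subRR (G : Type*) [MGroup G] : MSub G where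
  S := RR G
  one := RR.one
  mul := fun x hx y hy => RR.mul hx hy
  inv := fun x hx => RR.inv hx
  sup := fun x hx y hy => RR.sup hx hy
  st := fun x hx => RR.st hx

theorem rp_subRR : Rp (subRR G).El := by
  intro u v g h
  have h1 : Ort u.val v.val := congrArg MSub.El.val h
  have h2 := g.mem _ _ h1
  exact MSub.El.ext h2

end mgroup

end Pool.Helper55.MG
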