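import Pool.Agent.Helper55.MG.NR

/-! # The representable case: reduction to totally ordered groups -/

set_option linter.unusedVariables false

namespace Pool.Helper55.MG

section lgroup

variable {G : Type*} [LGroup G]

theorem exists_maxfilter {u : G} (hu : 1 ≤ u) (hu1 : u ≠ 1) :
    ∃ M : Set G, (∀ a ∈ M, 1 ≤ a) ∧ (∀ a ∈ M, ∀ b ∈ M, a ⊓ b ∈ M) ∧ (1 : G) ∉ M ∧ u ∈ M ∧
      ∀ a, 1 ≤ a → a ∉ M → ∃ w ∈ M, Ort a w := by
  let S : Set (Set G) := {F | (∀ a ∈ F, 1 ≤ a) ∧ (∀ a ∈ F, ∀ b ∈ F, a ⊓ b ∈ F) ∧ (1 : G) ∉ F ∧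
    u ∈ F}
  have h0 : ({u} : Set G) ∈ S := by
    refine ⟨?_, ?_, ?_, rfl⟩
    · intro a ha
      rw [Set.mem_singleton_iff] at ha
      rw [ha]; exact hu
    · intro a ha b hb
      rw [Set.mem_singleton_iff] at ha hb ⊢
      rw [ha, hb, inf_idem]
    · intro h
      rw [Set.mem_singleton_iff] at h
      exact hu1 h.symm
  obtain ⟨M, -, hM⟩ := zorn_subset_nonempty S (by
    intro c hc hch hne
    refine ⟨⋃₀ c, ⟨?_, ?_, ?_, ?_⟩, fun s hs => Set.subset_sUnion_of_mem hs⟩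
    · rintro a ⟨F, hF, ha⟩
      exact (hc hF).1 a ha
    · rintro a ⟨F, hF, ha⟩ b ⟨F', hF', hb⟩
      rcases hch.total hF hF' with h | h
      · exact ⟨F', hF', (hc hF').2.1 a (h ha) b hb⟩
      · exact ⟨F, hF, (hc hF).2.1 a ha b (h hb)⟩
    · rintro ⟨F, hF, ha⟩
      exact (hc hF).2.2.1 ha
    · obtain ⟨F, hF⟩ := hne
      exact ⟨F, hF, (hc hF).2.2.2⟩) {u} h0
  obtain ⟨hM1, hM2, hM3, hM4⟩ := hM.prop
  refine ⟨M, hM1, hM2, hM3, hM4, ?_⟩
  intro a ha haM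
  by_contra hcon
  have hcon' : ∀ w ∈ M, a ⊓ w ≠ 1 := fun w hw h => hcon ⟨w, hw, h⟩
  let M' : Set G := {b | 1 ≤ b ∧ ∃ w ∈ M, a ⊓ w ≤ b}
  have hMM' : M ⊆ M' := fun b hb => ⟨hM1 b hb, b, hb, inf_le_right⟩
  have hM'S : M' ∈ S := by
    refine ⟨fun b hb => hb.1, ?_, ?_, hMM' hM4⟩
    · rintro b ⟨hb, w, hw, hwb⟩ b' ⟨hb', w', hw', hwb'⟩
      refine ⟨le_inf hb hb', w ⊓ w', hM2 _ hw _ hw', le_inf ?_ ?_⟩
      · exact (inf_le_inf_left _ inf_le_left).trans hwb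
      · exact (inf_le_inf_left _ inf_le_right).trans hwb'
    · rintro ⟨-, w, hw, hw1⟩
      exact hcon' w hw (le_antisymm hw1 (le_inf ha (hM1 w hw)))
  have h1 := hM.le_of_ge hM'S hMM'
  exact haM (h1 ⟨ha, u, hM4, inf_le_left⟩)

theorem mabs_mul_le' (g h : G) : |g * h|ₘ ≤ |g|ₘ * |h|ₘ * |g|ₘ := by
  have hg := one_le_mabs g
  have hh := one_le_mabs h
  refine sup_le ?_ ?_
  · calc g * h ≤ |g|ₘ * |h|ₘ := mul_le_mul' (le_mabs_self g) (le_mabs_self h)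
      _ ≤ |g|ₘ * |h|ₘ * |g|ₘ := le_mul_of_one_le_right' hg
  · calc (g * h)⁻¹ = h⁻¹ * g⁻¹ := mul_inv_rev _ _
      _ ≤ |h|ₘ * |g|ₘ := mul_le_mul' (inv_le_mabs h) (inv_le_mabs g)
      _ ≤ |g|ₘ * (|h|ₘ * |g|ₘ) := le_mul_of_one_le_left' hg
      _ = |g|ₘ * |h|ₘ * |g|ₘ := by rw [mul_assoc]

theorem mabs_conj (k g : G) : |k * g * k⁻¹|ₘ = k * |g|ₘ * k⁻¹ := by
  unfold mabs
  rw [mul_sup, sup_mul]
  congr 1; group

theorem mabs_one' : |(1 : G)|ₘ = 1 := by unfold mabs; simp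

/-- In a representable lattice-ordered group there is a normal convex prime subgroup avoiding a
given strictly positive element. -/
theorem exists_prime (hR : Rp G) {u : G} (hu : 1 ≤ u) (hu1 : u ≠ 1) :
    ∃ P : Subgroup G, P.Normal ∧ (∀ a b : G, 1 ≤ a → a ≤ b → b ∈ P → a ∈ P) ∧
      (∀ a b : G, Ort a b → a ∈ P ∨ b ∈ P) ∧ u ∉ P := by
  obtain ⟨M, hM1, hM2, hM3, hM4, hM5⟩ := exists_maxfilter hu hu1
  have hmem : ∀ g : G, 1 ≤ g → |g|ₘ = g := fun g hg => mabs_of_one_le hg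
  let P : Subgroup G :=
    { carrier := {g | ∃ w ∈ M, Ort |g|ₘ w}
      one_mem' := ⟨u, hM4, by rw [mabs_one']; exact (ort_one hu).symm⟩
      mul_mem' := by
        rintro g h ⟨w, hw, hgw⟩ ⟨w', hw', hhw⟩
        refine ⟨w ⊓ w', hM2 _ hw _ hw', ?_⟩
        have hww : 1 ≤ w ⊓ w' := hM1 _ (hM2 _ hw _ hw')
        have h1 : Ort (w ⊓ w') |g|ₘ := (hgw.mono (one_le_mabs _) le_rfl hww inf_le_left).symm
        have h2 : Ort (w ⊓ w') |h|ₘ := (hhw.mono (one_le_mabs _) le_rfl hww inf_le_right).symm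
        exact (((h1.mul h2).mul h1).mono hww le_rfl (one_le_mabs _) (mabs_mul_le' g h)).symm
      inv_mem' := by
        rintro g ⟨w, hw, hgw⟩
        exact ⟨w, hw, by rwa [mabs_inv]⟩ }
  have hPdef : ∀ g, g ∈ P ↔ ∃ w ∈ M, Ort |g|ₘ w := fun g => Iff.rfl
  refine ⟨P, ⟨?_⟩, ?_, ?_, ?_⟩
  · intro g hg k
    obtain ⟨w, hw, hgw⟩ := (hPdef _).1 hg
    exact (hPdef _).2 ⟨w, hw, by rw [mabs_conj]; exact hR _ _ _ hgw⟩
  · intro a b ha hab hb
    obtain ⟨w, hw, hbw⟩ := (hPdef _).1 hb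
    rw [hmem b (ha.trans hab)] at hbw
    refine (hPdef _).2 ⟨w, hw, ?_⟩
    rw [hmem a ha]
    exact hbw.mono ha hab (hM1 _ hw) le_rfl
  · intro a b hab
    by_cases haM : a ∈ M
    · right
      refine (hPdef _).2 ⟨a, haM, ?_⟩
      rw [hmem b hab.right]; exact hab.symm
    · left
      obtain ⟨w, hw, haw⟩ := hM5 a hab.left haM
      refine (hPdef _).2 ⟨w, hw, ?_⟩
      rw [hmem a hab.left]; exact haw
  · intro h
    obtain ⟨w, hw, huw⟩ := (hPdef _).1 h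
    rw [hmem u hu] at huw
    have := hM2 _ hM4 _ hw
    rw [show u ⊓ w = 1 from huw] at this
    exact hM3 this

/-- The totally ordered quotient by a normal convex prime subgroup. -/
@[reducible] noncomputable def quotLG (P : Subgroup G) [hn : P.Normal]
    (hconv : ∀ a b : G, 1 ≤ a → a ≤ b → b ∈ P → a ∈ P)
    (hprime : ∀ a b : G, Ort a b → a ∈ P ∨ b ∈ P) : LGroup (G ⧸ P) :=
  LGroup.ofCone (G ⧸ P) (fun x => ∃ g : G, 1 ≤ g ∧ (g : G ⧸ P) = x)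
    ⟨1, le_rfl, rfl⟩
    (by
      rintro x y ⟨g, hg, rfl⟩ ⟨h, hh, rfl⟩
      exact ⟨g * h, one_le_mul_of hg hh, rfl⟩)
    (by
      rintro x y ⟨g, hg, rfl⟩
      obtain ⟨k, rfl⟩ := QuotientGroup.mk_surjective y
      exact ⟨k * g * k⁻¹, one_le_conj k hg, rfl⟩)
    (by
      rintro x ⟨g, hg, rfl⟩ ⟨h, hh, hgh⟩
      have h1 : ((g * h : G) : G ⧸ P) = 1 := by
        rw [QuotientGroup.mk_mul, hgh, mul_inv_cancel]
      rw [QuotientGroup.eq_one_iff] at h1 ⊢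
      exact hconv g (g * h) hg (le_mul_of_one_le_right' hh) h1)
    (by
      intro x
      obtain ⟨g, rfl⟩ := QuotientGroup.mk_surjective x
      have h1 : (g : G ⧸ P) = ((g ⊔ 1 : G) : G ⧸ P) * ((g⁻¹ ⊔ 1 : G) : G ⧸ P)⁻¹ := by
        rw [← QuotientGroup.mk_inv, ← QuotientGroup.mk_mul, pos_mul_neg]
      rcases hprime _ _ (pos_ort_neg g) with h | h
      · right
        rw [← QuotientGroup.eq_one_iff] at h
        rw [h1, h, one_mul, inv_inv]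
        exact ⟨_, le_sup_right, rfl⟩
      · left
        rw [← QuotientGroup.eq_one_iff] at h
        rw [h1, h, inv_one, mul_one]
        exact ⟨_, le_sup_right, rfl⟩)

theorem quotLG_tot (P : Subgroup G) [hn : P.Normal]
    (hconv : ∀ a b : G, 1 ≤ a → a ≤ b → b ∈ P → a ∈ P)
    (hprime : ∀ a b : G, Ort a b → a ∈ P ∨ b ∈ P) :
    letI := quotLG P hconv hprime; Tot (G ⧸ P) := by
  apply LGroup.ofCone_tot

theorem quotLG_mk_mono (P : Subgroup G) [hn : P.Normal]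
    (hconv : ∀ a b : G, 1 ≤ a → a ≤ b → b ∈ P → a ∈ P)
    (hprime : ∀ a b : G, Ort a b → a ∈ P ∨ b ∈ P) {g h : G} (hgh : g ≤ h) :
    letI := quotLG P hconv hprime; (g : G ⧸ P) ≤ (h : G ⧸ P) := by
  change ∃ k : G, 1 ≤ k ∧ (k : G ⧸ P) = (g : G ⧸ P)⁻¹ * (h : G ⧸ P)
  refine ⟨g⁻¹ * h, ?_, rfl⟩
  have := mul_le_mul_right hgh g⁻¹
  rwa [inv_mul_cancel] at this

theorem quotLG_mk_sup (P : Subgroup G) [hn : P.Normal]
    (hconv : ∀ a b : G, 1 ≤ a → a ≤ b → b ∈ P → a ∈ P)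
    (hprime : ∀ a b : G, Ort a b → a ∈ P ∨ b ∈ P) (g h : G) :
    letI := quotLG P hconv hprime; ((g ⊔ h : G) : G ⧸ P) = (g : G ⧸ P) ⊔ (h : G ⧸ P) := by
  letI := quotLG P hconv hprime
  have mono : ∀ {a b : G}, a ≤ b → (a : G ⧸ P) ≤ (b : G ⧸ P) :=
    fun h => quotLG_mk_mono P hconv hprime h
  -- `mk k ≤ 1` implies `mk (k ⊔ 1) = 1`
  have key : ∀ k : G, (k : G ⧸ P) ≤ 1 → ((k ⊔ 1 : G) : G ⧸ P) = 1 := by
    intro k hk
    rcases hprime _ _ (pos_ort_neg k) with h | h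
    · rwa [← QuotientGroup.eq_one_iff] at h
    · rw [← QuotientGroup.eq_one_iff] at h
      have h1 : (k : G ⧸ P) = ((k ⊔ 1 : G) : G ⧸ P) := by
        have h2 : (k : G ⧸ P) = ((k ⊔ 1 : G) : G ⧸ P) * ((k⁻¹ ⊔ 1 : G) : G ⧸ P)⁻¹ := by
          rw [← QuotientGroup.mk_inv, ← QuotientGroup.mk_mul, pos_mul_neg]
        rw [h2, h, inv_one, mul_one]
      rw [← h1]
      refine le_antisymm hk ?_
      rw [h1, ← QuotientGroup.mk_one]
      exact mono le_sup_right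
  have key2 : ∀ a b : G, (a : G ⧸ P) ≤ (b : G ⧸ P) →
      ((a ⊔ b : G) : G ⧸ P) = (b : G ⧸ P) := by
    intro a b hab
    have h1 : ((a * b⁻¹ : G) : G ⧸ P) ≤ 1 := by
      rw [QuotientGroup.mk_mul, QuotientGroup.mk_inv]
      have := mul_le_mul_left hab ((b : G ⧸ P)⁻¹)
      rwa [mul_inv_cancel] at this
    have h2 := key _ h1
    have h3 : a ⊔ b = (a * b⁻¹ ⊔ 1) * b := by rw [sup_mul, one_mul]; group
    rw [h3, QuotientGroup.mk_mul, h2, one_mul]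
  rcases quotLG_tot P hconv hprime (g : G ⧸ P) (h : G ⧸ P) with hgh | hgh
  · rw [key2 _ _ hgh]; exact (sup_eq_right.2 hgh).symm
  · rw [sup_comm g h, key2 _ _ hgh]; exact (sup_eq_left.2 hgh).symm

end lgroup

/-! ## Sub-lattice-ordered groups of totally ordered groups -/

/-- A subgroup of a totally ordered group, closed under suprema automatically. -/
structure LSub (H : Type*) [LGroup H] where
  S : Set H
  tot : Tot H
  one : (1 : H) ∈ S
  mul : ∀ x ∈ S, ∀ y ∈ S, x * y ∈ S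
  inv : ∀ x ∈ S, x⁻¹ ∈ S

namespace LSub

variable {H : Type*} [LGroup H] (M : LSub H)

theorem sup : ∀ x ∈ M.S, ∀ y ∈ M.S, x ⊔ y ∈ M.S := by
  intro x hx y hy
  rcases M.tot x y with h | h
  · rwa [sup_eq_right.2 h]
  · rwa [sup_eq_left.2 h]

theorem inf : ∀ x ∈ M.S, ∀ y ∈ M.S, x ⊓ y ∈ M.S := by
  intro x hx y hy
  rcases M.tot x y with h | h
  · rwa [inf_eq_left.2 h]
  · rwa [inf_eq_right.2 h]

/-- The type of elements. -/
@[ext] structure El (M : LSub H) where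
  val : H
  mem : val ∈ M.S

instance : Mul M.El := ⟨fun x y => ⟨x.val * y.val, M.mul _ x.mem _ y.mem⟩⟩
instance : One M.El := ⟨⟨1, M.one⟩⟩
instance : Inv M.El := ⟨fun x => ⟨x.val⁻¹, M.inv _ x.mem⟩⟩

instance : LGroup M.El :=
  { Group.ofLeftAxioms (G := M.El)
      (fun a b c => El.ext (mul_assoc _ _ _))
      (fun a => El.ext (one_mul _))
      (fun a => El.ext (inv_mul_cancel _)) with
    le := fun x y => x.val ≤ y.val
    le_refl := fun x => le_refl _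
    le_trans := fun x y z h1 h2 => le_trans h1 h2
    le_antisymm := fun x y h1 h2 => El.ext (le_antisymm h1 h2)
    sup := fun x y => ⟨x.val ⊔ y.val, M.sup _ x.mem _ y.mem⟩
    le_sup_left := fun x y => le_sup_left (α := H)
    le_sup_right := fun x y => le_sup_right (α := H)
    sup_le := fun x y z h1 h2 => sup_le (α := H) h1 h2
    inf := fun x y => ⟨x.val ⊓ y.val, M.inf _ x.mem _ y.mem⟩
    inf_le_left := fun x y => inf_le_left (α := H)
    inf_le_right := fun x y => inf_le_right (α := H)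
    le_inf := fun x y z h1 h2 => le_inf (α := H) h1 h2
    mul_le_l := fun a b c h => LGroup.mul_le_l (G := H) _ _ _ h
    mul_le_r := fun a b c h => LGroup.mul_le_r (G := H) _ _ _ h }

theorem tot_el : Tot M.El := fun x y => M.tot x.val y.val

end LSub

/-! ## The working setting -/

/-- The working setting: a totally ordered group `H`, a normal subgroup `A` containing all
commutators, and a sub-m-group of `D(H)` satisfying `E` which contains all pairs `(x, x⁻¹)`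
and all pairs `(1, a)` with `a ∈ A`. -/
structure Setting (E : Set (MTerm × MTerm)) (H : Type) [LGroup H] (A : Set H) : Prop where
  tot : Tot H
  one : (1 : H) ∈ A
  mul : ∀ x ∈ A, ∀ y ∈ A, x * y ∈ A
  inv : ∀ x ∈ A, x⁻¹ ∈ A
  conj : ∀ x ∈ A, ∀ y : H, y * x * y⁻¹ ∈ A
  comm : ∀ x y : H, x * y * x⁻¹ * y⁻¹ ∈ A
  ex : ∃ M : MSub (Dbl H), InV E M.El ∧ (∀ x : H, (⟨x, x⁻¹⟩ : Dbl H) ∈ M.S) ∧
    ∀ a ∈ A, (⟨1, a⟩ : Dbl H) ∈ M.S

theorem Setting.dbl {E : Set (MTerm × MTerm)} {H : Type} [LGroup H] {A : Set H}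
    (S : Setting E H A) (K : LSub H) (hK : ∀ k ∈ K.S, k ∈ A) : InV E (Dbl K.El) := by
  intro e he
  obtain ⟨M, hM, hM1, hM2⟩ := S.ex
  refine transfer (fun (a : M.El) (b : Dbl K.El) => a.val = ⟨b.fst.val, b.snd.val⟩)
    rfl ?_ ?_ ?_ ?_ ?_ ?_ (hM e he)
  · intro a b a' b' h h'
    rw [MSub.val_mul, h, h']; rfl
  · intro a b h
    rw [MSub.val_inv, h]; rfl
  · intro a b a' b' h h'
    rw [MSub.val_sup, h, h']; rfl
  · intro a b h
    rw [MSub.val_st, h]; rfl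
  · intro a b b' h h'
    rw [h] at h'
    have h1 := congrArg Dbl.fst h'
    have h2 := congrArg Dbl.snd h'
    exact Dbl.ext (LSub.El.ext h1) (LSub.El.ext h2)
  · intro b
    have h1 := hM2 _ (hK _ b.snd.mem)
    have h2 := M.st _ (hM2 _ (hK _ b.fst.mem))
    have h3 := M.mul _ h1 _ h2
    refine ⟨⟨_, h3⟩, ?_⟩
    apply Dbl.ext
    · change 1 * b.fst.val = b.fst.val
      rw [one_mul]
    · change b.snd.val * 1 = b.snd.val
      rw [mul_one]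

theorem setting_of_dbl {E : Set (MTerm × MTerm)} {K : Type} [LGroup K] (hT : Tot K)
    (hK : InV E (Dbl K)) (A : Set K) (one : (1 : K) ∈ A)
    (mul : ∀ x ∈ A, ∀ y ∈ A, x * y ∈ A)
    (inv : ∀ x ∈ A, x⁻¹ ∈ A)
    (conj : ∀ x ∈ A, ∀ y : K, y * x * y⁻¹ ∈ A)
    (comm : ∀ x y : K, x * y * x⁻¹ * y⁻¹ ∈ A) : Setting E K A where
  tot := hT
  one := one
  mul := mul
  inv := inv
  conj := conj
  comm := comm
  ex := by
    refine ⟨⟨Set.univ, trivial, fun _ _ _ _ => trivial, fun _ _ => trivial,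
      fun _ _ _ _ => trivial, fun _ _ => trivial⟩, ?_, fun _ => trivial, fun _ _ => trivial⟩
    intro e he
    exact MSub.holds _ (hK e he)

/-- The representable case: reduction to the working setting. -/
theorem rep_branch {E : Set (MTerm × MTerm)} {G : Type} [MGroup G] (hG : InV E G)
    (hR : Rp G) (hnc : ∃ x y : G, x * y ≠ y * x) :
    (∃ (K : Type) (_ : LGroup K), Tot K ∧ ¬ Metab K ∧ InV E (Dbl K)) ∨
    ∃ (H : Type) (_ : LGroup H) (A : Set H), Setting E H A ∧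
      (∀ x ∈ A, ∀ y ∈ A, x * y = y * x) ∧ ∃ x y : H, x * y ≠ y * x := by
  -- a commutator with nontrivial positive part
  obtain ⟨x, y, hxy⟩ : ∃ x y : G, x * y * x⁻¹ * y⁻¹ ⊔ 1 ≠ 1 := by
    by_contra hcon
    obtain ⟨x, y, hxy⟩ := hnc
    have h1 : x * y * x⁻¹ * y⁻¹ ≤ 1 := by
      by_contra h
      exact hcon ⟨x, y, fun h' => h (by rw [← h']; exact le_sup_left)⟩
    have h2 : y * x * y⁻¹ * x⁻¹ ≤ 1 := by
      by_contra h
      exact hcon ⟨y, x, fun h' => h (by rw [← h']; exact le_sup_left)⟩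
    have h3 : x * y * x⁻¹ * y⁻¹ = 1 := by
      refine le_antisymm h1 ?_
      have h4 : x * y * x⁻¹ * y⁻¹ = (y * x * y⁻¹ * x⁻¹)⁻¹ := by group
      rw [h4]; exact one_le_inv'.2 h2
    apply hxy
    calc x * y = (x * y * x⁻¹ * y⁻¹) * (y * x) := by group
      _ = y * x := by rw [h3, one_mul]
  obtain ⟨P, hPn, hconv, hprime, hu⟩ := exists_prime hR le_sup_right hxy
  letI instH : LGroup (G ⧸ P) := quotLG P hconv hprime
  have htot : Tot (G ⧸ P) := quotLG_tot P hconv hprime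
  have hsup : ∀ g h : G, ((g ⊔ h : G) : G ⧸ P) = (g : G ⧸ P) ⊔ (h : G ⧸ P) :=
    quotLG_mk_sup P hconv hprime
  have hmul : ∀ g h : G, ((g * h : G) : G ⧸ P) = (g : G ⧸ P) * (h : G ⧸ P) := fun _ _ => rfl
  have hinv : ∀ g : G, ((g⁻¹ : G) : G ⧸ P) = (g : G ⧸ P)⁻¹ := fun _ => rfl
  have hinf : ∀ g h : G, ((g ⊓ h : G) : G ⧸ P) = (g : G ⧸ P) ⊓ (h : G ⧸ P) := by
    intro g h
    have h1 : g ⊓ h = (g⁻¹ ⊔ h⁻¹)⁻¹ := by rw [inv_sup, inv_inv, inv_inv]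
    rw [h1, hinv, hsup, hinv, hinv, inv_sup, inv_inv, inv_inv]
  have hab : ∀ a b : G, 1 ≤ a → a ≤ b → b ∈ P → a ∈ P := hconv
  -- the map to the double
  let Ψ : G → Dbl (G ⧸ P) := fun g => ⟨(g : G ⧸ P), ((st g : G) : G ⧸ P)⟩
  let M : MSub (Dbl (G ⧸ P)) :=
    { S := Set.range Ψ
      one := ⟨1, by
        apply Dbl.ext
        · rfl
        · change ((st (1 : G) : G) : G ⧸ P) = 1
          rw [st_one]; rfl⟩
      mul := by
        rintro _ ⟨g, rfl⟩ _ ⟨h, rfl⟩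
        refine ⟨g * h, ?_⟩
        apply Dbl.ext
        · rfl
        · change ((st (g * h) : G) : G ⧸ P) = _
          rw [MGroup.st_mul]; rfl
      inv := by
        rintro _ ⟨g, rfl⟩
        refine ⟨g⁻¹, ?_⟩
        apply Dbl.ext
        · rfl
        · change ((st (g⁻¹) : G) : G ⧸ P) = _
          rw [st_inv]; rfl
      sup := by
        rintro _ ⟨g, rfl⟩ _ ⟨h, rfl⟩
        refine ⟨g ⊔ h, ?_⟩
        apply Dbl.ext
        · exact hsup g h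
        · change ((st (g ⊔ h) : G) : G ⧸ P) = _
          rw [MGroup.st_sup]; exact hinf _ _
      st := by
        rintro _ ⟨g, rfl⟩
        refine ⟨st g, ?_⟩
        apply Dbl.ext
        · rfl
        · change ((st (st g) : G) : G ⧸ P) = _
          rw [MGroup.st_st]; rfl }
  have hM : InV E M.El := by
    intro e he
    refine transfer (fun (a : G) (b : M.El) => Ψ a = b.val) ?_ ?_ ?_ ?_ ?_ ?_ ?_ (hG e he)
    · apply Dbl.ext
      · rfl
      · change ((st (1 : G) : G) : G ⧸ P) = 1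
        rw [st_one]; rfl
    · intro a b a' b' h h'
      rw [MSub.val_mul, ← h, ← h']
      apply Dbl.ext
      · rfl
      · change ((st (a * a') : G) : G ⧸ P) = _
        rw [MGroup.st_mul]; rfl
    · intro a b h
      rw [MSub.val_inv, ← h]
      apply Dbl.ext
      · rfl
      · change ((st (a⁻¹) : G) : G ⧸ P) = _
        rw [st_inv]; rfl
    · intro a b a' b' h h'
      rw [MSub.val_sup, ← h, ← h']
      apply Dbl.ext
      · exact hsup _ _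
      · change ((st (a ⊔ a') : G) : G ⧸ P) = _
        rw [MGroup.st_sup]; exact hinf _ _
    · intro a b h
      rw [MSub.val_st, ← h]
      apply Dbl.ext
      · rfl
      · change ((st (st a) : G) : G ⧸ P) = _
        rw [MGroup.st_st]; rfl
    · intro a b b' h h'
      rw [h] at h'
      exact MSub.El.ext h'
    · intro b
      obtain ⟨g, hg⟩ := b.mem
      exact ⟨g, hg⟩
  -- the subgroup `K`
  let K : Set (G ⧸ P) := {x | ∃ g : G, (g : G ⧸ P) = x ∧ st g ∈ P}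
  have hK1 : (1 : G ⧸ P) ∈ K := ⟨1, rfl, by rw [st_one]; exact P.one_mem⟩
  have hKm : ∀ x ∈ K, ∀ y ∈ K, x * y ∈ K := by
    rintro _ ⟨g, rfl, hg⟩ _ ⟨h, rfl, hh⟩
    exact ⟨g * h, rfl, by rw [MGroup.st_mul]; exact P.mul_mem hg hh⟩
  have hKi : ∀ x ∈ K, x⁻¹ ∈ K := by
    rintro _ ⟨g, rfl, hg⟩
    exact ⟨g⁻¹, rfl, by rw [st_inv]; exact P.inv_mem hg⟩
  have hKc : ∀ x ∈ K, ∀ y : G ⧸ P, y * x * y⁻¹ ∈ K := by
    rintro _ ⟨g, rfl, hg⟩ y
    obtain ⟨k, rfl⟩ := QuotientGroup.mk_surjective y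
    exact ⟨k * g * k⁻¹, rfl, by
      rw [MGroup.st_mul, MGroup.st_mul, st_inv]; exact hPn.conj_mem _ hg _⟩
  -- `mk (g * st g) ∈ K`
  have hgst : ∀ g : G, ((g * st g : G) : G ⧸ P) ∈ K := by
    intro g
    have hd : st (g * st g) = g⁻¹ * (g * st g) * g⁻¹⁻¹ := by
      rw [MGroup.st_mul, MGroup.st_st]; group
    have h1 : ((g * st g : G) : G ⧸ P) = ((g * st g ⊔ 1 : G) : G ⧸ P) *
        (((g * st g)⁻¹ ⊔ 1 : G) : G ⧸ P)⁻¹ := by
      rw [← QuotientGroup.mk_inv, ← QuotientGroup.mk_mul, pos_mul_neg]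
    rcases hprime _ _ (pos_ort_neg (g * st g)) with h | h
    · refine ⟨((g * st g)⁻¹ ⊔ 1)⁻¹, ?_, ?_⟩
      · rw [h1, (QuotientGroup.eq_one_iff _).2 h, one_mul]; rfl
      · have h2 : st (((g * st g)⁻¹ ⊔ 1)⁻¹) = g⁻¹ * ((g * st g) ⊔ 1) * g⁻¹⁻¹ := by
          rw [st_inv, MGroup.st_sup, st_inv, st_one, hd, inv_inf, inv_inv, inv_one,
            mul_sup, sup_mul]
          congr 1; group
        rw [h2]
        exact hPn.conj_mem _ h _
    · refine ⟨g * st g ⊔ 1, ?_, ?_⟩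
      · rw [h1, (QuotientGroup.eq_one_iff _).2 h, inv_one, mul_one]
      · have h2 : st (g * st g ⊔ 1) = (g⁻¹ * ((g * st g)⁻¹ ⊔ 1) * g⁻¹⁻¹)⁻¹ := by
          rw [MGroup.st_sup, st_one, hd]
          have h3 : (g⁻¹ * ((g * st g)⁻¹ ⊔ 1) * g⁻¹⁻¹)⁻¹
              = g⁻¹ * ((g * st g)⁻¹ ⊔ 1)⁻¹ * g⁻¹⁻¹ := by group
          rw [h3, inv_sup, inv_inv, inv_one, mul_inf, inf_mul]
          congr 1; group
        rw [h2]
        exact P.inv_mem (hPn.conj_mem _ h _)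
  -- commutators are in `K`
  have hcomm : ∀ x y : G ⧸ P, x * y * x⁻¹ * y⁻¹ ∈ K := by
    intro x y
    obtain ⟨g, rfl⟩ := QuotientGroup.mk_surjective x
    obtain ⟨h, rfl⟩ := QuotientGroup.mk_surjective y
    set a : G ⧸ P := (g : G ⧸ P) with ha
    set b : G ⧸ P := (h : G ⧸ P) with hb
    set a' : G ⧸ P := ((st g : G) : G ⧸ P) with ha'
    set b' : G ⧸ P := ((st h : G) : G ⧸ P) with hb'
    have e1 : a * a' ∈ K := hgst g
    have e2 : b * b' ∈ K := hgst h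
    have e3 : (b * a) * (b' * a') ∈ K := by
      have := hgst (h * g)
      rwa [MGroup.st_mul] at this
    -- `a b a⁻¹ b⁻¹`
    have f1 : (a * b * (b * b')⁻¹ * (a * b)⁻¹) ∈ K := by
      exact hKc _ (hKi _ e2) _
    have f2 : a * (a * a') * a⁻¹ ∈ K := hKc _ e1 _
    -- `(b a b' a')⁻¹`
    have f3 := hKi _ e3
    -- `x y x⁻¹ y⁻¹` is a product of conjugates
    have hgoal : a * b * a⁻¹ * b⁻¹ =
        (a * b) * (((a * a')⁻¹) * ((b' * a')⁻¹ * (b' * a')) ) * (a * b)⁻¹ * (a * b) *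
          (a * a') * a⁻¹ * b⁻¹ := by group
    -- work in the quotient by `K`
    let KS : Subgroup (G ⧸ P) :=
      { carrier := K, one_mem' := hK1, mul_mem' := fun hx hy => hKm _ hx _ hy,
        inv_mem' := fun hx => hKi _ hx }
    have : KS.Normal := ⟨fun n hn g => hKc n hn g⟩
    have q1 : (a : (G ⧸ P) ⧸ KS) * (a' : (G ⧸ P) ⧸ KS) = 1 := by
      rw [← QuotientGroup.mk_mul, QuotientGroup.eq_one_iff]; exact e1
    have q2 : (b : (G ⧸ P) ⧸ KS) * (b' : (G ⧸ P) ⧸ KS) = 1 := by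
      rw [← QuotientGroup.mk_mul, QuotientGroup.eq_one_iff]; exact e2
    have q3 : (b : (G ⧸ P) ⧸ KS) * (a : (G ⧸ P) ⧸ KS) * ((b' : (G ⧸ P) ⧸ KS) *
        (a' : (G ⧸ P) ⧸ KS)) = 1 :=
      (QuotientGroup.eq_one_iff (N := KS) (b * a * (b' * a'))).2 e3
    have q4 : (a : (G ⧸ P) ⧸ KS) * b * (a : (G ⧸ P) ⧸ KS)⁻¹ * (b : (G ⧸ P) ⧸ KS)⁻¹ = 1 := by
      have r1 : (a' : (G ⧸ P) ⧸ KS) = (a : (G ⧸ P) ⧸ KS)⁻¹ := eq_inv_of_mul_eq_one_right q1
      have r2 : (b' : (G ⧸ P) ⧸ KS) = (b : (G ⧸ P) ⧸ KS)⁻¹ := eq_inv_of_mul_eq_one_right q2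
      rw [r1, r2] at q3
      have q5 : (b : (G ⧸ P) ⧸ KS) * a * (b : (G ⧸ P) ⧸ KS)⁻¹ * (a : (G ⧸ P) ⧸ KS)⁻¹ = 1 := by
        rw [← q3]; group
      calc (a : (G ⧸ P) ⧸ KS) * b * (a : (G ⧸ P) ⧸ KS)⁻¹ * (b : (G ⧸ P) ⧸ KS)⁻¹
          = ((b : (G ⧸ P) ⧸ KS) * a * (b : (G ⧸ P) ⧸ KS)⁻¹ * (a : (G ⧸ P) ⧸ KS)⁻¹)⁻¹ := by group
        _ = 1 := by rw [q5, inv_one]
    have q6 : ((a * b * a⁻¹ * b⁻¹ : G ⧸ P) : (G ⧸ P) ⧸ KS) = 1 := q4
    rw [QuotientGroup.eq_one_iff] at q6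
    exact q6
  -- pairs
  have hpair1 : ∀ a ∈ K, (⟨1, a⟩ : Dbl (G ⧸ P)) ∈ M.S := by
    rintro _ ⟨g, rfl, hg⟩
    refine ⟨st g, ?_⟩
    apply Dbl.ext
    · change ((st g : G) : G ⧸ P) = 1
      rw [QuotientGroup.eq_one_iff]; exact hg
    · change ((st (st g) : G) : G ⧸ P) = _
      rw [MGroup.st_st]
  have hpair2 : ∀ x : G ⧸ P, (⟨x, x⁻¹⟩ : Dbl (G ⧸ P)) ∈ M.S := by
    intro x
    obtain ⟨g, rfl⟩ := QuotientGroup.mk_surjective x
    have h1 := hpair1 _ (hKi _ (hgst g))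
    have h2 : Ψ g ∈ M.S := ⟨g, rfl⟩
    have h3 := M.mul _ h2 _ h1
    have h4 : Ψ g * (⟨1, ((g * st g : G) : G ⧸ P)⁻¹⟩ : Dbl (G ⧸ P)) =
        ⟨(g : G ⧸ P), (g : G ⧸ P)⁻¹⟩ := by
      apply Dbl.ext
      · change (g : G ⧸ P) * 1 = _
        rw [mul_one]
      · change ((st g : G) : G ⧸ P) * ((g * st g : G) : G ⧸ P)⁻¹ = _
        rw [hmul, mul_inv_rev]; group
    rwa [h4] at h3
  have hS : Setting E (G ⧸ P) K := ⟨htot, hK1, hKm, hKi, hKc, hcomm, M, hM, hpair2, hpair1⟩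
  have hHnc : ∃ x y : G ⧸ P, x * y ≠ y * x := by
    refine ⟨(x : G ⧸ P), (y : G ⧸ P), fun h => hu ?_⟩
    have h1 : ((x * y * x⁻¹ * y⁻¹ : G) : G ⧸ P) = 1 := by
      rw [hmul, hmul, hmul, h, hinv, hinv]; group
    have h2 : ((x * y * x⁻¹ * y⁻¹ ⊔ 1 : G) : G ⧸ P) = 1 := by
      rw [hsup, h1]; exact sup_idem _
    exact (QuotientGroup.eq_one_iff _).1 h2
  by_cases hKcomm : ∀ x ∈ K, ∀ y ∈ K, x * y = y * x
  · right
    exact ⟨G ⧸ P, instH, K, hS, hKcomm, hHnc⟩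
  let KL : LSub (G ⧸ P) := ⟨K, htot, hK1, hKm, hKi⟩
  have hdbl : InV E (Dbl KL.El) := hS.dbl KL (fun k hk => hk)
  by_cases hmet : Metab KL.El
  · right
    have hcc : ∀ x ∈ {z : KL.El | ∃ a b : KL.El, a * b * a⁻¹ * b⁻¹ = z},
        ∀ y ∈ {z : KL.El | ∃ a b : KL.El, a * b * a⁻¹ * b⁻¹ = z}, x * y = y * x := by
      rintro _ ⟨a, b, rfl⟩ _ ⟨c, d, rfl⟩
      exact hmet a b c d
    have hAc := Subgroup.isMulCommutative_closure hcc
    refine ⟨KL.El, inferInstance,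
      (Subgroup.closure {z : KL.El | ∃ a b : KL.El, a * b * a⁻¹ * b⁻¹ = z} : Set KL.El),
      ?_, ?_, ?_⟩
    · refine setting_of_dbl KL.tot_el hdbl _ (Subgroup.one_mem _)
        (fun x hx y hy => Subgroup.mul_mem _ hx hy) (fun x hx => Subgroup.inv_mem _ hx) ?_ ?_
      · intro x hx y
        have hx' : x ∈ Subgroup.closure {z : KL.El | ∃ a b : KL.El, a * b * a⁻¹ * b⁻¹ = z} := hx
        change y * x * y⁻¹ ∈ Subgroup.closure {z : KL.El | ∃ a b : KL.El, a * b * a⁻¹ * b⁻¹ = z}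
        induction hx' using Subgroup.closure_induction with
        | mem z hz =>
          obtain ⟨a, b, rfl⟩ := hz
          refine Subgroup.subset_closure ⟨y * a * y⁻¹, y * b * y⁻¹, ?_⟩
          group
        | one => simpa using Subgroup.one_mem _
        | mul z w hz hw hz' hw' =>
          have := Subgroup.mul_mem _ (hz' hz) (hw' hw)
          rwa [show y * z * y⁻¹ * (y * w * y⁻¹) = y * (z * w) * y⁻¹ by group] at this
        | inv z hz hz' =>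
          have := Subgroup.inv_mem _ (hz' hz)
          rwa [show (y * z * y⁻¹)⁻¹ = y * z⁻¹ * y⁻¹ by group] at this
      · intro x y
        exact Subgroup.subset_closure ⟨x, y, rfl⟩
    · intro x hx y hy
      exact setLike_mul_comm hx hy
    · by_contra hcon
      apply hKcomm
      intro x hx y hy
      by_contra h
      apply hcon
      refine ⟨⟨x, hx⟩, ⟨y, hy⟩, fun h' => h (congrArg LSub.El.val h')⟩
  · left
    exact ⟨KL.El, inferInstance, KL.tot_el, hmet, hdbl⟩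

end Pool.Helper55.MG
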