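import Pool.Agent.Helper55.MG.SetV

/-! # Finding `N` -/

set_option linter.unusedVariables false

namespace Pool.Helper55.MG

open Filter

section tot

variable {H : Type*} [LGroup H]

/-- All powers of `d` are at most `x`. -/
def Ll (d x : H) : Prop := ∀ j : ℤ, d ^ j ≤ x

theorem Ll.one_le {d x : H} (h : Ll d x) : 1 ≤ x := by
  have := h 0
  rwa [zpow_zero] at this

theorem Ll.inv {d x : H} (h : Ll d x) : Ll d⁻¹ x := by
  intro j
  rw [inv_zpow, ← zpow_neg]
  exact h _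

theorem ll_one {x : H} (h : 1 ≤ x) : Ll 1 x := by
  intro j; rw [one_zpow]; exact h

theorem Ll.trans_le {d x y : H} (h : Ll d x) (hxy : x ≤ y) : Ll d y := fun j => (h j).trans hxy

theorem Ll.of_nat {d x : H} (hd : 1 ≤ d) (h : ∀ j : ℕ, d ^ j ≤ x) : Ll d x := by
  intro j
  obtain ⟨n, rfl | rfl⟩ := Int.eq_nat_or_neg j
  · rw [zpow_natCast]; exact h n
  · rw [zpow_neg, zpow_natCast]
    have h0 := h 0
    rw [pow_zero] at h0
    exact (inv_le_one'.2 (one_le_pow_of_one_le' hd n)).trans h0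

theorem Ll.lt {d x : H} (hx : 1 < x) (h : Ll d x) (j : ℤ) : d ^ j < x := by
  refine lt_of_le_of_ne (h j) fun heq => ?_
  have h1 := h (j + j)
  rw [zpow_add, heq] at h1
  have h2 : x < x * x := lt_mul_of_one_lt_right' x hx
  exact absurd h1 (not_le_of_gt h2)

theorem Ll.conj {d x : H} (h : Ll d x) (g : H) : Ll (g * d * g⁻¹) (g * x * g⁻¹) := by
  intro j
  rw [conj_zpow]
  exact mul_le_mul_left (mul_le_mul_right (h j) _) _

theorem sq_le_sq_iff {H : Type*} [LGroup H] (hT : Tot H) {x y : H} (hxy : x * y = y * x) :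
    x * x ≤ y * y ↔ x ≤ y := by
  constructor
  · intro h
    by_contra hc
    have h1 := hT.lt hc
    have h2 : y * y < x * x := mul_lt_mul_of_lt_of_lt h1 h1
    exact absurd h (not_le_of_gt h2)
  · intro h
    exact mul_le_mul' h h

theorem Ll.mul (hT : Tot H) {d e x : H} (hd : Ll d x) (he : Ll e x) (hde : d * e = e * d) :
    Ll (d * e) x := by
  intro j
  rw [(show Commute d e from hde).mul_zpow]
  rcases hT (d ^ j) (e ^ j) with h | h
  · calc d ^ j * e ^ j ≤ e ^ j * e ^ j := mul_le_mul_left h _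
      _ = e ^ (j + j) := by rw [zpow_add]
      _ ≤ x := he _
  · calc d ^ j * e ^ j ≤ d ^ j * d ^ j := mul_le_mul_right h _
      _ = d ^ (j + j) := by rw [zpow_add]
      _ ≤ x := hd _

theorem Ll.zpow {d x : H} (hd : Ll d x) (n : ℤ) : Ll (d ^ n) x := by
  intro j
  rw [← zpow_mul]; exact hd _

theorem Ll.of_sq (hT : Tot H) {d x : H} (hdx : d * x = x * d) (h : Ll d (x * x)) : Ll d x := by
  intro j
  rw [← sq_le_sq_iff hT]
  · rw [← zpow_add]; exact h _
  · exact ((show Commute d x from hdx).zpow_left j).eq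

theorem one_lt_mul_of_inv_lt {x y : H} (h : x⁻¹ < y) : 1 < x * y := by
  have := mul_lt_mul_right h x
  rwa [mul_inv_cancel] at this

theorem Ll.one_lt_mul {d x : H} (hx : 1 < x) (h : Ll d x) : 1 < d * x := by
  refine one_lt_mul_of_inv_lt ?_
  have := h.lt hx (-1)
  rwa [zpow_neg_one] at this

theorem Ll.one_lt_mul' {d x : H} (hx : 1 < x) (h : Ll d x) : 1 < x * d := by
  have h1 : x⁻¹ < d := by
    have := h.lt hx (-1)
    rw [zpow_neg_one] at this
    exact inv_lt_of_inv_lt' this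
  have := mul_lt_mul_right h1 x
  rwa [mul_inv_cancel] at this

theorem le_zpow {x : H} (hx : 1 ≤ x) {n : ℤ} (hn : 0 < n) : x ≤ x ^ n := by
  have := zpow_mono hx (show (1 : ℤ) ≤ n by omega)
  rwa [zpow_one] at this

end tot

/-- Heisenberg pairs, normalised. -/
theorem Setting.heis_norm {E : Set (MTerm × MTerm)} {H : Type} [LGroup H] {A : Set H}
    (S : Setting E H A) {x y c : H} (hy : 1 < y) (hyx : y ≤ x) (hc : x * y * x⁻¹ * y⁻¹ = c)
    (hc1 : 1 < c) (hcx : c * x = x * c) (hcy : c * y = y * c) : InV E MN := by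
  have hx : 1 < x := lt_of_lt_of_le hy hyx
  have hcx' : ∀ n : ℕ, Commute c (x ^ n) := fun n => (show Commute c x from hcx).pow_right n
  have hxy : ∀ n : ℕ, x ^ n * y * (x ^ n)⁻¹ = y * c ^ n := by
    intro n
    induction n with
    | zero => simp
    | succ n ih =>
      have h1 : x ^ (n + 1) * y * (x ^ (n + 1))⁻¹ = x * (x ^ n * y * (x ^ n)⁻¹) * x⁻¹ := by
        rw [pow_succ']; group
      have h2 : x * y * x⁻¹ = y * c := by rw [← hcy, ← hc]; group
      have h3 : x * c ^ n * x⁻¹ = c ^ n := by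
        have : Commute (c ^ n) x := (show Commute c x from hcx).pow_left n
        rw [← this.eq]; group
      rw [h1, ih]
      calc x * (y * c ^ n) * x⁻¹ = (x * y * x⁻¹) * (x * c ^ n * x⁻¹) := by group
        _ = y * c ^ (n + 1) := by rw [h2, h3, mul_assoc, ← pow_succ']
  have hcly : Ll c y := by
    intro j
    have hz : ∀ j : ℤ, x ^ j * y * (x ^ j)⁻¹ = y * c ^ j := by
      intro j
      obtain ⟨n, rfl | rfl⟩ := Int.eq_nat_or_neg j
      · rw [zpow_natCast, zpow_natCast]; exact hxy n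
      · rw [zpow_neg, zpow_neg, zpow_natCast, zpow_natCast, inv_inv]
        have h1 := hxy n
        have h2 : y = (x ^ n)⁻¹ * (y * c ^ n) * x ^ n := by rw [← h1]; group
        have h3 : (x ^ n)⁻¹ * (y * c ^ n) * x ^ n = (x ^ n)⁻¹ * y * x ^ n * c ^ n := by
          have : Commute (c ^ n) (x ^ n) := (show Commute c x from hcx).pow_pow n n
          rw [mul_assoc, mul_assoc, this.eq]; group
        rw [h3] at h2
        conv_rhs => rw [h2]
        group
    have h1 : 1 ≤ y * c ^ (-j) := by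
      rw [← hz]
      exact one_le_conj _ hy.le
    have h2 := mul_le_mul_left h1 (c ^ j)
    rw [one_mul, mul_assoc, ← zpow_add, neg_add_cancel, zpow_zero, mul_one] at h2
    exact h2
  have hclx : Ll c x := hcly.trans_le hyx
  let D : ℕ → HData H := fun m =>
    { a := x ^ m
      k := y
      c := c ^ m
      I := {1}
      one := rfl
      mul := by
        intro u hu v hv
        rw [Set.mem_singleton_iff] at hu hv ⊢
        rw [hu, hv, mul_one]
      inv := by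
        intro u hu
        rw [Set.mem_singleton_iff] at hu ⊢
        rw [hu, inv_one]
      kc := (((show Commute c y from hcy).pow_left m).symm).eq
      kI := by
        intro u hu
        rw [Set.mem_singleton_iff] at hu
        rw [hu, mul_one, one_mul]
      cI := by
        intro u hu
        rw [Set.mem_singleton_iff] at hu
        rw [hu, mul_one, one_mul]
      ak := ⟨1, rfl, by rw [mul_one]; exact hxy m⟩
      ac := ⟨1, rfl, by
        have : Commute (c ^ m) (x ^ m) := (show Commute c x from hcx).pow_pow m m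
        rw [← this.eq]; group⟩
      aI := by
        intro u hu
        rw [Set.mem_singleton_iff] at hu ⊢
        rw [hu]; group
      ak' := ⟨1, rfl, by
        have : Commute (c ^ m) (x ^ m) := (show Commute c x from hcx).pow_pow m m
        have h1 : y = (x ^ m)⁻¹ * (y * c ^ m) * x ^ m := by rw [← hxy m]; group
        have h2 : (x ^ m)⁻¹ * (y * c ^ m) * x ^ m = ((x ^ m)⁻¹ * y * x ^ m) * c ^ m := by
          rw [mul_assoc, mul_assoc, this.eq]; group
        rw [h2] at h1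
        conv_rhs => rw [h1]
        group⟩
      ac' := ⟨1, rfl, by
        have : Commute (c ^ m) (x ^ m) := (show Commute c x from hcx).pow_pow m m
        rw [mul_assoc, this.eq]; group⟩
      aI' := by
        intro u hu
        rw [Set.mem_singleton_iff] at hu ⊢
        rw [hu]; group }
  have hcA : c ∈ A := by rw [← hc]; exact S.comm _ _
  refine S.embedN D ?_ ?_
  · intro m
    change c ^ m ∈ A
    induction m with
    | zero => rw [pow_zero]; exact S.one
    | succ n ih => rw [pow_succ]; exact S.mul _ ih _ hcA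
  · intro t ht
    rcases Heis.pos_cases ht with hn | ⟨hn, hj | ⟨hj, hl⟩⟩
    · filter_upwards [eventually_gt_atTop (t.j.natAbs + 1)] with m hm u hu
      obtain ⟨q, ⟨δ, hδ, rfl⟩, rfl⟩ := hu
      have hδ' : δ = 1 := hδ
      subst hδ'
      change 1 < y ^ t.j * (c ^ m) ^ t.l * 1 * (x ^ m) ^ t.n
      rw [mul_one, ← zpow_natCast c m, ← zpow_mul, ← zpow_natCast x m, ← zpow_mul]
      have h1 : x ^ (-(t.j.natAbs : ℤ)) ≤ y ^ t.j := by
        have h2 : y ^ (-t.j) ≤ x ^ (t.j.natAbs : ℤ) := by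
          calc y ^ (-t.j) ≤ y ^ (t.j.natAbs : ℤ) := zpow_mono hy.le (by omega)
            _ ≤ x ^ (t.j.natAbs : ℤ) := by
              rw [zpow_natCast, zpow_natCast]
              exact pow_le_pow_left' hyx _
        have h3 := inv_le_inv_iff.2 h2
        rwa [← zpow_neg, ← zpow_neg, neg_neg] at h3
      have h2 : x⁻¹ ≤ c ^ ((m : ℤ) * t.l) := by
        have h3 := inv_le_inv_iff.2 (hclx (-((m : ℤ) * t.l)))
        rwa [← zpow_neg, neg_neg] at h3
      have h3 : x ^ (-(t.j.natAbs : ℤ)) * x⁻¹ * x ^ ((m : ℤ) * t.n) ≤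
          y ^ t.j * c ^ ((m : ℤ) * t.l) * x ^ ((m : ℤ) * t.n) :=
        mul_le_mul_left (mul_le_mul' h1 h2) _
      refine lt_of_lt_of_le ?_ h3
      rw [← zpow_neg_one, ← zpow_add, ← zpow_add]
      have h4 : (m : ℤ) ≤ m * t.n := by nlinarith
      have h5 := zpow_mono hx.le (show (1 : ℤ) ≤ -(t.j.natAbs : ℤ) + -1 + m * t.n by omega)
      rw [zpow_one] at h5
      exact lt_of_lt_of_le hx h5
    · refine Eventually.of_forall fun m u hu => ?_
      obtain ⟨q, ⟨δ, hδ, rfl⟩, rfl⟩ := hu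
      have hδ' : δ = 1 := hδ
      subst hδ'
      change 1 < y ^ t.j * (c ^ m) ^ t.l * 1 * (x ^ m) ^ t.n
      rw [mul_one, hn, zpow_zero, mul_one, ← zpow_natCast c m, ← zpow_mul]
      have h1 : 1 < y * c ^ ((m : ℤ) * t.l) := (hcly.zpow _).one_lt_mul' hy
      exact lt_of_lt_of_le h1 (mul_le_mul_left (le_zpow hy.le hj) _)
    · filter_upwards [eventually_gt_atTop 0] with m hm u hu
      obtain ⟨q, ⟨δ, hδ, rfl⟩, rfl⟩ := hu
      have hδ' : δ = 1 := hδ
      subst hδ'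
      change 1 < y ^ t.j * (c ^ m) ^ t.l * 1 * (x ^ m) ^ t.n
      rw [mul_one, hn, hj, zpow_zero, zpow_zero, one_mul, mul_one, ← zpow_natCast c m,
        ← zpow_mul]
      exact lt_of_lt_of_le hc1 (le_zpow hc1.le (by positivity))

/-- Heisenberg pairs. -/
theorem Setting.heis_pair {E : Set (MTerm × MTerm)} {H : Type} [LGroup H] {A : Set H}
    (S : Setting E H A) {x y : H} (hx : 1 < x) (hy : 1 < y) (hxy : x * y ≠ y * x)
    (hcx : (x * y * x⁻¹ * y⁻¹) * x = x * (x * y * x⁻¹ * y⁻¹))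
    (hcy : (x * y * x⁻¹ * y⁻¹) * y = y * (x * y * x⁻¹ * y⁻¹)) : InV E MN := by
  -- first the case `y ≤ x`
  have main : ∀ x y : H, 1 < y → y ≤ x → x * y ≠ y * x →
      (x * y * x⁻¹ * y⁻¹) * x = x * (x * y * x⁻¹ * y⁻¹) →
      (x * y * x⁻¹ * y⁻¹) * y = y * (x * y * x⁻¹ * y⁻¹) → InV E MN := by
    intro x y hy hyx hxy hcx hcy
    have hne : x * y * x⁻¹ * y⁻¹ ≠ 1 := by
      intro h
      apply hxy
      calc x * y = (x * y * x⁻¹ * y⁻¹) * (y * x) := by group
        _ = y * x := by rw [h, one_mul]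
    rcases S.tot.lt_or hne with h | h
    · -- `c < 1`: use the dual
      have hcc : x⁻¹ * y⁻¹ * x⁻¹⁻¹ * y⁻¹⁻¹ = x * y * x⁻¹ * y⁻¹ := by
        have h1 : x⁻¹ * y⁻¹ * x⁻¹⁻¹ * y⁻¹⁻¹ = (y * x)⁻¹ * ((x * y * x⁻¹ * y⁻¹) * (y * x)) := by
          group
        have h2 : (x * y * x⁻¹ * y⁻¹) * (y * x) = (y * x) * (x * y * x⁻¹ * y⁻¹) := by
          rw [← mul_assoc, hcy, mul_assoc, hcx, ← mul_assoc]
        rw [h1, h2]; group
      have hcx' : (x * y * x⁻¹ * y⁻¹) * x⁻¹ = x⁻¹ * (x * y * x⁻¹ * y⁻¹) :=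
        ((show Commute (x * y * x⁻¹ * y⁻¹) x from hcx).inv_right).eq
      have hcy' : (x * y * x⁻¹ * y⁻¹) * y⁻¹ = y⁻¹ * (x * y * x⁻¹ * y⁻¹) :=
        ((show Commute (x * y * x⁻¹ * y⁻¹) y from hcy).inv_right).eq
      refine Setting.heis_norm (H := Hᵒᵈ) S.dual (x := OrderDual.toDual x⁻¹)
        (y := OrderDual.toDual y⁻¹) (c := OrderDual.toDual (x * y * x⁻¹ * y⁻¹)) ?_ ?_ ?_ ?_ ?_ ?_
      · exact inv_lt_one'.2 hy
      · exact inv_le_inv_iff.2 hyx
      · exact hcc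
      · exact h
      · exact hcx'
      · exact hcy'
    · exact S.heis_norm hy hyx rfl h hcx hcy
  rcases S.tot y x with h | h
  · exact main x y hy h hxy hcx hcy
  · have hinv : y * x * y⁻¹ * x⁻¹ = (x * y * x⁻¹ * y⁻¹)⁻¹ := by group
    refine main y x hx h (Ne.symm hxy) ?_ ?_
    · rw [hinv]
      exact ((show Commute (x * y * x⁻¹ * y⁻¹) y from hcy).inv_left).eq
    · rw [hinv]
      exact ((show Commute (x * y * x⁻¹ * y⁻¹) x from hcx).inv_left).eq

/-- The hypothesis that no conjugation by a power of `a` doubles a small element. -/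
def NoDouble {H : Type*} [LGroup H] (A : Set H) (a g : H) : Prop :=
  ∀ x ∈ A, 1 < x → Ll x a → ∀ i : ℕ, 1 ≤ i →
    g ^ i * x * (g ^ i)⁻¹ < x * x ∧ (g ^ i)⁻¹ * x * g ^ i < x * x

theorem NoDouble.inv {H : Type*} [LGroup H] {A : Set H} {a g : H} (h : NoDouble A a g) :
    NoDouble A a g⁻¹ := by
  intro x hx hx1 hxa i hi
  have := h x hx hx1 hxa i hi
  rw [inv_pow, inv_inv]
  exact ⟨this.2, this.1⟩

section growth

variable {E : Set (MTerm × MTerm)} {H : Type} [LGroup H] {A : Set H}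

theorem Setting.growth_pos (S : Setting E H A) (hA : ∀ x ∈ A, ∀ y ∈ A, x * y = y * x)
    {a g : H} (hga : g * a = a * g) (hND : NoDouble A a g) {x : H} (hx : x ∈ A) (hx1 : 1 < x)
    (hxa : Ll x a) (hd : 1 ≤ g * x * g⁻¹ * x⁻¹) (j : ℕ) : (g * x * g⁻¹ * x⁻¹) ^ j ≤ x := by
  by_contra hcon
  have hcon' := S.tot.lt hcon
  set d := g * x * g⁻¹ * x⁻¹ with hddef
  have hdA : d ∈ A := S.comm _ _
  have hdx : g * x * g⁻¹ = d * x := by rw [hddef]; group
  have hd1 : 1 < d := by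
    refine lt_of_le_of_ne hd fun h => ?_
    rw [← h, one_pow] at hcon'
    exact lt_asymm hcon' hx1
  have hag : g * a * g⁻¹ = a := by rw [hga]; group
  have hda : Ll d a := by
    refine Ll.of_nat hd fun n => ?_
    have h1 : d ≤ g * x * g⁻¹ := by rw [hdx]; exact le_mul_of_one_le_right' hx1.le
    calc d ^ n ≤ (g * x * g⁻¹) ^ n := pow_le_pow_left' h1 n
      _ ≤ a := by
        have h2 := (hxa.conj g) n
        rwa [hag, zpow_natCast] at h2
  have hcomm_dx : d * x = x * d := hA _ hdA _ hx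
  -- `y i = g ^ i x g ^ (-i)`
  have hyA : ∀ (z : H), z ∈ A → ∀ i : ℕ, g ^ i * z * (g ^ i)⁻¹ ∈ A := fun z hz i => S.conj _ hz _
  have key : ∀ i : ℕ, d ^ i * (x * x) ≤
      (g ^ i * x * (g ^ i)⁻¹) * (g ^ i * x * (g ^ i)⁻¹) := by
    intro i
    induction i with
    | zero => simp
    | succ i ih =>
      have h1 : g ^ (i + 1) * x * (g ^ (i + 1))⁻¹
          = (g ^ i * d * (g ^ i)⁻¹) * (g ^ i * x * (g ^ i)⁻¹) := by
        have : g ^ (i + 1) * x * (g ^ (i + 1))⁻¹ = g ^ i * (g * x * g⁻¹) * (g ^ i)⁻¹ := by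
          rw [pow_succ]; group
        rw [this, hdx]; group
      have h2 : d ≤ (g ^ i * d * (g ^ i)⁻¹) * (g ^ i * d * (g ^ i)⁻¹) := by
        rcases Nat.eq_zero_or_pos i with h0 | h0
        · rw [h0]
          simp only [pow_zero, inv_one, one_mul, mul_one]
          exact le_mul_of_one_le_right' hd1.le
        · have h3 := (hND d hdA hd1 hda i h0).2.le
          have h4 := mul_le_mul_left (mul_le_mul_right h3 (g ^ i)) (g ^ i)⁻¹
          calc d = g ^ i * ((g ^ i)⁻¹ * d * g ^ i) * (g ^ i)⁻¹ := by group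
            _ ≤ _ := h4
            _ = _ := by group
      have hc1 : (g ^ i * d * (g ^ i)⁻¹) * (g ^ i * x * (g ^ i)⁻¹) =
          (g ^ i * x * (g ^ i)⁻¹) * (g ^ i * d * (g ^ i)⁻¹) :=
        hA _ (hyA _ hdA i) _ (hyA _ hx i)
      rw [h1]
      set u := g ^ i * d * (g ^ i)⁻¹
      set v := g ^ i * x * (g ^ i)⁻¹
      calc d ^ (i + 1) * (x * x) = d * (d ^ i * (x * x)) := by rw [pow_succ']; group
        _ ≤ (u * u) * (v * v) := mul_le_mul' h2 ih
        _ = u * v * (u * v) := by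
          calc (u * u) * (v * v) = u * (u * v) * v := by group
            _ = u * (v * u) * v := by rw [hc1]
            _ = _ := by group
  have h1 := key (2 * (j + 1))
  have h2 := (hND x hx hx1 hxa (2 * (j + 1)) (by omega)).1
  set v := g ^ (2 * (j + 1)) * x * (g ^ (2 * (j + 1)))⁻¹ with hv
  have h3 : v * v < (x * x) * (x * x) := mul_lt_mul_of_lt_of_lt h2 h2
  have h4 : x < d ^ (j + 1) := by
    refine lt_of_lt_of_le hcon' ?_
    rw [pow_succ]; exact le_mul_of_one_le_right' hd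
  have h5 : x * x ≤ d ^ (2 * (j + 1)) := by
    rw [two_mul, pow_add]
    exact mul_le_mul' h4.le h4.le
  have h6 : (x * x) * (x * x) ≤ d ^ (2 * (j + 1)) * (x * x) := mul_le_mul_left h5 _
  exact absurd (h6.trans h1) (not_le_of_gt h3)

theorem Setting.growth (S : Setting E H A) (hA : ∀ x ∈ A, ∀ y ∈ A, x * y = y * x)
    {a g : H} (hga : g * a = a * g) (hND : NoDouble A a g) {x : H} (hx : x ∈ A) (hx1 : 1 < x)
    (hxa : Ll x a) : Ll (g * x * g⁻¹ * x⁻¹) x := by
  rcases S.tot 1 (g * x * g⁻¹ * x⁻¹) with hd | hd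
  · exact Ll.of_nat hd (S.growth_pos hA hga hND hx hx1 hxa hd)
  · set d := g * x * g⁻¹ * x⁻¹ with hddef
    have hdA : d ∈ A := S.comm _ _
    have hga' : g⁻¹ * a = a * g⁻¹ := ((show Commute g a from hga).inv_left).eq
    have hd' : g⁻¹ * x * g⁻¹⁻¹ * x⁻¹ = g⁻¹ * d⁻¹ * g⁻¹⁻¹ := by
      have h1 : (g⁻¹ * x * g⁻¹⁻¹) * (g⁻¹ * d * g⁻¹⁻¹) = (g⁻¹ * d * g⁻¹⁻¹) * (g⁻¹ * x * g⁻¹⁻¹) :=
        hA _ (S.conj _ hx _) _ (S.conj _ hdA _)
      have h2 : (g⁻¹ * d * g⁻¹⁻¹) * (g⁻¹ * x * g⁻¹⁻¹) = x := by rw [hddef]; group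
      rw [h2] at h1
      calc g⁻¹ * x * g⁻¹⁻¹ * x⁻¹
          = g⁻¹ * x * g⁻¹⁻¹ * ((g⁻¹ * x * g⁻¹⁻¹) * (g⁻¹ * d * g⁻¹⁻¹))⁻¹ := by rw [h1]
        _ = (g⁻¹ * x * g⁻¹⁻¹) * (g⁻¹ * d * g⁻¹⁻¹)⁻¹ * (g⁻¹ * x * g⁻¹⁻¹)⁻¹ := by group
        _ = g⁻¹ * d⁻¹ * g⁻¹⁻¹ := by
          have h3 : (g⁻¹ * x * g⁻¹⁻¹) * (g⁻¹ * d * g⁻¹⁻¹)⁻¹ =
              (g⁻¹ * d * g⁻¹⁻¹)⁻¹ * (g⁻¹ * x * g⁻¹⁻¹) :=
            hA _ (S.conj _ hx _) _ (S.inv _ (S.conj _ hdA _))
          rw [h3]; group
    have hd1' : 1 ≤ g⁻¹ * x * g⁻¹⁻¹ * x⁻¹ := by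
      rw [hd']; exact one_le_conj _ (one_le_inv'.2 hd)
    have h1 := S.growth_pos hA hga' hND.inv hx hx1 hxa hd1'
    set d' := g⁻¹ * x * g⁻¹⁻¹ * x⁻¹ with hd'def
    have hd'A : d' ∈ A := S.comm _ _
    have h2 : Ll d' x := Ll.of_nat hd1' h1
    have h3 : d⁻¹ = g * d' * g⁻¹ := by rw [hd']; group
    have h4 : Ll d⁻¹ x := by
      refine Ll.of_nat (one_le_inv'.2 hd) fun n => ?_
      by_cases hd'1 : d' = 1
      · rw [h3, hd'1]
        simp only [mul_one, mul_inv_cancel, one_pow]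
        exact hx1.le
      · have h5 : 1 < d' := lt_of_le_of_ne hd1' (Ne.symm hd'1)
        have h6 : Ll d' a := by
          intro j; exact (h2 j).trans (by have := hxa 1; rwa [zpow_one] at this)
        have h7 := (hND d' hd'A h5 h6 1 le_rfl).1.le
        rw [pow_one, ← h3] at h7
        calc (d⁻¹) ^ n ≤ (d' * d') ^ n := pow_le_pow_left' h7 n
          _ = d' ^ (2 * n : ℕ) := by rw [← pow_two, ← pow_mul]
          _ ≤ x := h1 _
    have := h4.inv
    rwa [inv_inv] at this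

/-- Case 1b, positive commutator. -/
theorem Setting.case1b (S : Setting E H A) (hA : ∀ x ∈ A, ∀ y ∈ A, x * y = y * x)
    {a k : H} (ha : 1 < a) (hk : k ∈ A) (hk1 : 1 < k) (hka : Ll k a)
    (hc1 : 1 < a * k * a⁻¹ * k⁻¹) (hND : NoDouble A a a) : InV E MN := by
  set c := a * k * a⁻¹ * k⁻¹ with hcdef
  have hcA : c ∈ A := S.comm _ _
  have hck : Ll c k := S.growth hA rfl hND hk hk1 hka
  have hca : Ll c a := hck.trans_le (by have := hka 1; rwa [zpow_one] at this)
  have hck' : c ≤ k := by have := hck 1; rwa [zpow_one] at this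
  have hca' : c ≤ a := by have := hca 1; rwa [zpow_one] at this
  have hg1 : Ll (a * c * a⁻¹ * c⁻¹) c := S.growth hA rfl hND hcA hc1 hca
  have hg2 : Ll (a⁻¹ * c * a⁻¹⁻¹ * c⁻¹) c :=
    S.growth hA (by group) hND.inv hcA hc1 hca
  rw [inv_inv] at hg2
  have hsm : ∀ e : H, Ll e c → e * c ≤ c * c := fun e he => by
    have := he 1
    rw [zpow_one] at this
    exact mul_le_mul_left this _
  let D : HData H :=
    { a := a
      k := k
      c := c
      I := {δ | δ ∈ A ∧ Ll δ c}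
      one := ⟨S.one, ll_one hc1.le⟩
      mul := fun x hx y hy => ⟨S.mul _ hx.1 _ hy.1, hx.2.mul S.tot hy.2 (hA _ hx.1 _ hy.1)⟩
      inv := fun x hx => ⟨S.inv _ hx.1, hx.2.inv⟩
      kc := hA _ hk _ hcA
      kI := fun x hx => hA _ hk _ hx.1
      cI := fun x hx => hA _ hcA _ hx.1
      ak := ⟨1, ⟨S.one, ll_one hc1.le⟩, by
        rw [mul_one, hA _ hk _ hcA, hcdef]; group⟩
      ac := ⟨a * c * a⁻¹ * c⁻¹, ⟨S.comm _ _, hg1⟩, by
        rw [hA _ hcA _ (S.comm a c)]; group⟩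
      aI := by
        rintro x ⟨hx, hxc⟩
        refine ⟨S.conj _ hx _, ?_⟩
        refine Ll.of_sq S.tot (hA _ (S.conj _ hx _) _ hcA) ?_
        refine (hxc.conj a).trans_le ?_
        have : a * c * a⁻¹ = (a * c * a⁻¹ * c⁻¹) * c := by group
        rw [this]
        exact hsm _ hg1
      ak' := ⟨(a⁻¹ * c * a * c⁻¹)⁻¹, ⟨S.inv _ (by
          have := S.comm a⁻¹ c
          rwa [inv_inv] at this), hg2.inv⟩, by
        have h1 : k = (a⁻¹ * c * a) * (a⁻¹ * k * a) := by rw [hcdef]; group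
        have h2 : (a⁻¹ * c * a) ∈ A := by
          have := S.conj _ hcA a⁻¹
          rwa [inv_inv] at this
        have h3 : (a⁻¹ * k * a) = (a⁻¹ * c * a)⁻¹ * k := by
          rw [eq_inv_mul_iff_mul_eq]; exact h1.symm
        rw [h3, hA _ (S.inv _ h2) _ hk]
        have h4 : (a⁻¹ * c * a * c⁻¹)⁻¹ = c * (a⁻¹ * c * a)⁻¹ := by group
        rw [h4]; group⟩
      ac' := ⟨a⁻¹ * c * a * c⁻¹, ⟨by
          have := S.comm a⁻¹ c
          rwa [inv_inv] at this, hg2⟩, by
        have h1 := hA _ hcA _ (S.comm a⁻¹ c)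
        rw [inv_inv] at h1
        rw [h1]; group⟩
      aI' := by
        rintro x ⟨hx, hxc⟩
        have h0 := S.conj _ hx a⁻¹
        rw [inv_inv] at h0
        refine ⟨h0, ?_⟩
        refine Ll.of_sq S.tot (hA _ h0 _ hcA) ?_
        have h1 := hxc.conj a⁻¹
        rw [inv_inv] at h1
        refine h1.trans_le ?_
        have : a⁻¹ * c * a = (a⁻¹ * c * a * c⁻¹) * c := by group
        rw [this]
        exact hsm _ hg2 }
  have hzA : ∀ z : H, z ∈ A → ∀ n : ℤ, z ^ n ∈ A := by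
    intro z hz n
    have hnat : ∀ n : ℕ, z ^ n ∈ A := by
      intro n
      induction n with
      | zero => rw [pow_zero]; exact S.one
      | succ n ih => rw [pow_succ]; exact S.mul _ ih _ hz
    obtain ⟨m, rfl | rfl⟩ := Int.eq_nat_or_neg n
    · rw [zpow_natCast]; exact hnat m
    · rw [zpow_neg, zpow_natCast]; exact S.inv _ (hnat m)
  refine S.embedN (fun _ => D) (fun _ => hcA) ?_
  intro t ht
  refine Eventually.of_forall fun m u hu => ?_
  obtain ⟨q, ⟨δ, ⟨hδA, hδ⟩, rfl⟩, rfl⟩ := hu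
  have hδA' : δ ∈ A := hδA
  have hδ' : Ll δ c := hδ
  change 1 < k ^ t.j * c ^ t.l * δ * a ^ t.n
  rcases Heis.pos_cases ht with hn | ⟨hn, hj | ⟨hj, hl⟩⟩
  · have h1 : Ll (k ^ t.j * c ^ t.l * δ) a := by
      refine Ll.mul S.tot (Ll.mul S.tot (hka.zpow _) (hca.zpow _) ?_) (hδ'.trans_le hca') ?_
      · exact hA _ (hzA _ hk _) _ (hzA _ hcA _)
      · exact hA _ (S.mul _ (hzA _ hk _) _ (hzA _ hcA _)) _ hδA'
    have h2 := h1.one_lt_mul ha
    exact lt_of_lt_of_le h2 (mul_le_mul_right (le_zpow ha.le hn) _)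
  · rw [hn, zpow_zero, mul_one, mul_assoc]
    have h1 : Ll (c ^ t.l * δ) k :=
      Ll.mul S.tot (hck.zpow _) (hδ'.trans_le hck') (hA _ (hzA _ hcA _) _ hδA')
    have h2 := h1.one_lt_mul' hk1
    exact lt_of_lt_of_le h2 (mul_le_mul_left (le_zpow hk1.le hj) _)
  · rw [hn, hj, zpow_zero, zpow_zero, one_mul, mul_one]
    have h2 := hδ'.one_lt_mul' hc1
    exact lt_of_lt_of_le h2 (mul_le_mul_left (le_zpow hc1.le hl) _)

end growth

end Pool.Helper55.MG
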