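import Pool.Agent.Helper55.MG.Rep

/-! # Totally ordered groups with an abelian normal subgroup containing all commutators -/

set_option linter.unusedVariables false

namespace Pool.Helper55.MG

open Filter

theorem Tot.lt {H : Type*} [LGroup H] (hT : Tot H) {x y : H} (h : ¬ x ≤ y) : y < x := by
  rcases hT x y with h' | h'
  · exact absurd h' h
  · exact lt_of_le_not_ge h' h

theorem Tot.lt_or {H : Type*} [LGroup H] (hT : Tot H) {x y : H} (h : x ≠ y) : x < y ∨ y < x := by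
  rcases hT x y with h' | h'
  · exact Or.inl (lt_of_le_of_ne h' h)
  · exact Or.inr (lt_of_le_of_ne h' h.symm)

/-- The embedding criterion in the working setting. -/
theorem Setting.embed {E : Set (MTerm × MTerm)} {H : Type} [LGroup H] {A : Set H}
    (S : Setting E H A) {T : Type} [LGroup T] (hT : Tot T) (MT : MSub (Dbl T)) (C : Set T)
    (hMT : ∀ z ∈ MT.S, z.fst * z.snd ∈ C) (R : ℕ → H → T → Prop)
    (hone : ∀ m, R m 1 1)
    (hmul : ∀ m x t x' t', R m x t → R m x' t' → R m (x * x') (t * t'))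
    (hinv : ∀ m x t, R m x t → R m x⁻¹ t⁻¹)
    (hpos : ∀ t, 1 < t → ∀ᶠ m in atTop, ∀ x, R m x t → 1 < x)
    (htot : ∀ m t, ∃ x, R m x t)
    (hC : ∀ m, ∀ t ∈ C, ∃ a ∈ A, R m a t) : InV E MT.El := by
  intro e he
  obtain ⟨M, hM, hM1, hM2⟩ := S.ex
  have hlt : ∀ t t' : T, t < t' → ∀ᶠ m in atTop, ∀ x x', R m x t → R m x' t' → x < x' := by
    intro t t' h
    have h1 : 1 < t⁻¹ * t' := by
      have := mul_lt_mul_right h t⁻¹
      rwa [inv_mul_cancel] at this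
    filter_upwards [hpos _ h1] with m hm x x' hx hx'
    have h2 := hm _ (hmul m _ _ _ _ (hinv m _ _ hx) hx')
    have := mul_lt_mul_right h2 x
    rwa [mul_one, ← mul_assoc, mul_inv_cancel, one_mul] at this
  have hsup : ∀ t t' : T, ∀ᶠ m in atTop, ∀ x x', R m x t → R m x' t' →
      R m (x ⊔ x') (t ⊔ t') := by
    intro t t'
    by_cases htt : t = t'
    · subst htt
      refine Eventually.of_forall fun m x x' hx hx' => ?_
      rw [sup_idem]
      rcases S.tot x x' with h | h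
      · rwa [sup_eq_right.2 h]
      · rwa [sup_eq_left.2 h]
    · rcases hT.lt_or htt with h | h
      · filter_upwards [hlt _ _ h] with m hm x x' hx hx'
        rw [sup_eq_right.2 h.le, sup_eq_right.2 (hm x x' hx hx').le]
        exact hx'
      · filter_upwards [hlt _ _ h] with m hm x x' hx hx'
        rw [sup_eq_left.2 h.le, sup_eq_left.2 (hm x' x hx' hx).le]
        exact hx
  have hinf : ∀ t t' : T, ∀ᶠ m in atTop, ∀ x x', R m x t → R m x' t' →
      R m (x ⊓ x') (t ⊓ t') := by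
    intro t t'
    filter_upwards [hsup t⁻¹ t'⁻¹] with m hm x x' hx hx'
    have h1 := hinv m _ _ (hm _ _ (hinv m _ _ hx) (hinv m _ _ hx'))
    rwa [inv_sup, inv_sup, inv_inv, inv_inv, inv_inv, inv_inv] at h1
  have hfun : ∀ t t' : T, (∀ᶠ m in atTop, ∃ x, R m x t ∧ R m x t') → t = t' := by
    intro t t' h
    by_contra hne
    rcases hT.lt_or hne with h' | h'
    · obtain ⟨m, ⟨x, hx, hx'⟩, hm⟩ := (h.and (hlt _ _ h')).exists
      exact lt_irrefl _ (hm x x hx hx')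
    · obtain ⟨m, ⟨x, hx, hx'⟩, hm⟩ := (h.and (hlt _ _ h')).exists
      exact lt_irrefl _ (hm x x hx' hx)
  refine transfer_seq (A := fun _ => M.El)
    (fun a b => ∀ᶠ m in atTop, R m (a m).val.fst b.val.fst ∧ R m (a m).val.snd b.val.snd)
    ?_ ?_ ?_ ?_ ?_ ?_ ?_ (fun _ => hM e he)
  · exact Eventually.of_forall fun m => ⟨hone m, hone m⟩
  · intro a b a' b' h h'
    filter_upwards [h, h'] with m hm hm'
    exact ⟨hmul m _ _ _ _ hm.1 hm'.1, hmul m _ _ _ _ hm.2 hm'.2⟩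
  · intro a b h
    filter_upwards [h] with m hm
    exact ⟨hinv m _ _ hm.1, hinv m _ _ hm.2⟩
  · intro a b a' b' h h'
    filter_upwards [h, h', hsup b.val.fst b'.val.fst, hinf b.val.snd b'.val.snd]
      with m hm hm' h1 h2
    exact ⟨h1 _ _ hm.1 hm'.1, h2 _ _ hm.2 hm'.2⟩
  · intro a b h
    filter_upwards [h] with m hm
    exact ⟨hm.2, hm.1⟩
  · intro a b b' h h'
    apply MSub.El.ext
    apply Dbl.ext
    · refine hfun _ _ ?_
      filter_upwards [h, h'] with m hm hm'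
      exact ⟨_, hm.1, hm'.1⟩
    · refine hfun _ _ ?_
      filter_upwards [h, h'] with m hm hm'
      exact ⟨_, hm.2, hm'.2⟩
  · intro b
    choose x hx using fun m => htot m b.val.fst
    choose a ha1 ha2 using fun m => hC m _ (hMT _ b.mem)
    refine ⟨fun m => ⟨_, M.mul _ (hM1 (x m)) _ (hM2 _ (ha1 m))⟩, ?_⟩
    refine Eventually.of_forall fun m => ⟨?_, ?_⟩
    · change R m (x m * 1) _
      rw [mul_one]; exact hx m
    · change R m ((x m)⁻¹ * a m) _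
      have h1 := hmul m _ _ _ _ (hinv m _ _ (hx m)) (ha2 m)
      rwa [← mul_assoc, inv_mul_cancel, one_mul] at h1

/-- The working setting for the reversed order. -/
theorem Setting.dual {E : Set (MTerm × MTerm)} {H : Type} [LGroup H] {A : Set H}
    (S : Setting E H A) : Setting E Hᵒᵈ (OrderDual.ofDual ⁻¹' A) where
  tot := fun x y => (S.tot (OrderDual.ofDual y) (OrderDual.ofDual x))
  one := S.one
  mul := fun x hx y hy => S.mul _ hx _ hy
  inv := fun x hx => S.inv _ hx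
  conj := fun x hx y => S.conj _ hx _
  comm := fun x y => S.comm _ _
  ex := by
    obtain ⟨M, hM, hM1, hM2⟩ := S.ex
    let M' : MSub (Dbl Hᵒᵈ) :=
      { S := {z | (⟨OrderDual.ofDual z.snd, OrderDual.ofDual z.fst⟩ : Dbl H) ∈ M.S}
        one := M.one
        mul := fun x hx y hy => M.mul _ hx _ hy
        inv := fun x hx => M.inv _ hx
        sup := fun x hx y hy => M.sup _ hx _ hy
        st := fun x hx => M.st _ hx }
    refine ⟨M', ?_, ?_, ?_⟩
    · intro e he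
      refine transfer (fun (a : M.El) (b : M'.El) =>
        a.val = ⟨OrderDual.ofDual b.val.snd, OrderDual.ofDual b.val.fst⟩)
        rfl ?_ ?_ ?_ ?_ ?_ ?_ (hM e he)
      · intro a b a' b' h h'
        rw [MSub.val_mul, h, h']; rfl
      · intro a b h
        rw [MSub.val_inv, h]; rfl
      · intro a b a' b' h h'
        rw [MSub.val_sup, h, h']; rfl
      · intro a b h
        rw [MSub.val_st, h]; rfl
      · intro a b b' h h'
        rw [h] at h'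
        have h1 := congrArg Dbl.fst h'
        have h2 := congrArg Dbl.snd h'
        exact MSub.El.ext (Dbl.ext h2 h1)
      · intro b
        exact ⟨⟨_, b.mem⟩, rfl⟩
    · intro x
      have h1 := hM1 (OrderDual.ofDual x)⁻¹
      rw [inv_inv] at h1
      exact h1
    · intro a ha
      exact M.st _ (hM2 _ ha)

/-! ### Heisenberg relations -/

/-- Conjugation relations for the embedding of the Heisenberg group modulo a small subgroup. -/
structure HData (H : Type) [LGroup H] where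
  a : H
  k : H
  c : H
  I : Set H
  one : (1 : H) ∈ I
  mul : ∀ x ∈ I, ∀ y ∈ I, x * y ∈ I
  inv : ∀ x ∈ I, x⁻¹ ∈ I
  kc : k * c = c * k
  kI : ∀ x ∈ I, k * x = x * k
  cI : ∀ x ∈ I, c * x = x * c
  ak : ∃ x ∈ I, a * k * a⁻¹ = k * c * x
  ac : ∃ x ∈ I, a * c * a⁻¹ = c * x
  aI : ∀ x ∈ I, a * x * a⁻¹ ∈ I
  ak' : ∃ x ∈ I, a⁻¹ * k * a = k * c⁻¹ * x
  ac' : ∃ x ∈ I, a⁻¹ * c * a = c * x
  aI' : ∀ x ∈ I, a⁻¹ * x * a ∈ I

namespace HData

variable {H : Type} [LGroup H] (D : HData H)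

/-- Elements of the form `k ^ j * c ^ l * δ` with `δ ∈ I`. -/
def Q (j l : ℤ) (x : H) : Prop := ∃ δ ∈ D.I, x = D.k ^ j * D.c ^ l * δ

theorem comm_kc (i j : ℤ) : D.k ^ i * D.c ^ j = D.c ^ j * D.k ^ i :=
  ((show Commute D.k D.c from D.kc).zpow_zpow i j).eq

theorem comm_kI (i : ℤ) {x : H} (hx : x ∈ D.I) : D.k ^ i * x = x * D.k ^ i :=
  ((show Commute D.k x from D.kI x hx).zpow_left i).eq

theorem comm_cI (i : ℤ) {x : H} (hx : x ∈ D.I) : D.c ^ i * x = x * D.c ^ i :=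
  ((show Commute D.c x from D.cI x hx).zpow_left i).eq

theorem Q.mul {j l j' l' : ℤ} {x y : H} (hx : D.Q j l x) (hy : D.Q j' l' y) :
    D.Q (j + j') (l + l') (x * y) := by
  obtain ⟨δ, hδ, rfl⟩ := hx
  obtain ⟨δ', hδ', rfl⟩ := hy
  refine ⟨δ * δ', D.mul _ hδ _ hδ', ?_⟩
  rw [zpow_add, zpow_add]
  calc D.k ^ j * D.c ^ l * δ * (D.k ^ j' * D.c ^ l' * δ')
      = D.k ^ j * D.c ^ l * (δ * D.k ^ j') * D.c ^ l' * δ' := by group
    _ = D.k ^ j * (D.c ^ l * D.k ^ j') * (δ * D.c ^ l') * δ' := by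
        rw [← D.comm_kI j' hδ]; group
    _ = _ := by rw [← D.comm_kc, ← D.comm_cI l' hδ]; group

theorem Q.inv {j l : ℤ} {x : H} (hx : D.Q j l x) : D.Q (-j) (-l) x⁻¹ := by
  obtain ⟨δ, hδ, rfl⟩ := hx
  refine ⟨δ⁻¹, D.inv _ hδ, ?_⟩
  rw [mul_inv_rev, mul_inv_rev, ← zpow_neg, ← zpow_neg, ← D.comm_kc,
    ← mul_assoc, ← D.comm_kI _ (D.inv _ hδ), mul_assoc, ← D.comm_cI _ (D.inv _ hδ), mul_assoc]

theorem Q.one : D.Q 0 0 1 := ⟨1, D.one, by simp⟩

theorem Q.npow {j l : ℤ} {x : H} (hx : D.Q j l x) (n : ℕ) : D.Q (n * j) (n * l) (x ^ n) := by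
  induction n with
  | zero => simpa using Q.one D
  | succ n ih =>
    rw [pow_succ]
    have := Q.mul D ih hx
    rwa [show ((n + 1 : ℕ) : ℤ) * j = n * j + j by push_cast; ring,
      show ((n + 1 : ℕ) : ℤ) * l = n * l + l by push_cast; ring]

theorem Q.zpow {j l : ℤ} {x : H} (hx : D.Q j l x) (n : ℤ) : D.Q (n * j) (n * l) (x ^ n) := by
  obtain ⟨m, rfl | rfl⟩ := Int.eq_nat_or_neg n
  · rw [zpow_natCast]; exact Q.npow D hx m
  · rw [zpow_neg, zpow_natCast]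
    have := Q.inv D (Q.npow D hx m)
    rwa [show -((m : ℤ)) * j = -(m * j) by ring, show -((m : ℤ)) * l = -(m * l) by ring]

theorem Q.conj {j l : ℤ} {x : H} (hx : D.Q j l x) : D.Q j (l + j) (D.a * x * D.a⁻¹) := by
  obtain ⟨δ, hδ, rfl⟩ := hx
  obtain ⟨x1, hx1, h1⟩ := D.ak
  obtain ⟨x2, hx2, h2⟩ := D.ac
  have q1 : D.Q 1 1 (D.a * D.k * D.a⁻¹) := ⟨x1, hx1, by rw [h1]; simp⟩
  have q2 : D.Q 0 1 (D.a * D.c * D.a⁻¹) := ⟨x2, hx2, by rw [h2]; simp⟩
  have q3 : D.Q 0 0 (D.a * δ * D.a⁻¹) := ⟨_, D.aI _ hδ, by simp⟩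
  have h4 := Q.mul D (Q.mul D (Q.zpow D q1 j) (Q.zpow D q2 l)) q3
  rw [conj_zpow, conj_zpow] at h4
  have h5 : D.a * D.k ^ j * D.a⁻¹ * (D.a * D.c ^ l * D.a⁻¹) * (D.a * δ * D.a⁻¹)
      = D.a * (D.k ^ j * D.c ^ l * δ) * D.a⁻¹ := by group
  rw [h5] at h4
  rwa [show j * 1 + l * 0 + 0 = j by ring, show j * 1 + l * 1 + 0 = l + j by ring] at h4

theorem Q.conj' {j l : ℤ} {x : H} (hx : D.Q j l x) : D.Q j (l - j) (D.a⁻¹ * x * D.a) := by
  obtain ⟨δ, hδ, rfl⟩ := hx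
  obtain ⟨x1, hx1, h1⟩ := D.ak'
  obtain ⟨x2, hx2, h2⟩ := D.ac'
  have q1 : D.Q 1 (-1) (D.a⁻¹ * D.k * D.a) := ⟨x1, hx1, by rw [h1]; simp⟩
  have q2 : D.Q 0 1 (D.a⁻¹ * D.c * D.a) := ⟨x2, hx2, by rw [h2]; simp⟩
  have q3 : D.Q 0 0 (D.a⁻¹ * δ * D.a) := ⟨_, D.aI' _ hδ, by simp⟩
  have h4 := Q.mul D (Q.mul D (Q.zpow D q1 j) (Q.zpow D q2 l)) q3
  have hc : ∀ (u : H) (n : ℤ), (D.a⁻¹ * u * D.a) ^ n = D.a⁻¹ * u ^ n * D.a := by
    intro u n
    have := conj_zpow (a := D.a⁻¹) (b := u) (i := n)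
    rwa [inv_inv] at this
  rw [hc, hc] at h4
  have h5 : D.a⁻¹ * D.k ^ j * D.a * (D.a⁻¹ * D.c ^ l * D.a) * (D.a⁻¹ * δ * D.a)
      = D.a⁻¹ * (D.k ^ j * D.c ^ l * δ) * D.a := by group
  rw [h5] at h4
  rwa [show j * 1 + l * 0 + 0 = j by ring, show j * -1 + l * 1 + 0 = l - j by ring] at h4

theorem Q.zconj {j l : ℤ} {x : H} (hx : D.Q j l x) (n : ℤ) :
    D.Q j (l + n * j) (D.a ^ n * x * (D.a ^ n)⁻¹) := by
  have hpos : ∀ n : ℕ, D.Q j (l + n * j) (D.a ^ n * x * (D.a ^ n)⁻¹) := by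
    intro n
    induction n with
    | zero => simpa using hx
    | succ n ih =>
      have := Q.conj D ih
      rw [show l + (n : ℤ) * j + j = l + ((n + 1 : ℕ) : ℤ) * j by push_cast; ring] at this
      rwa [show D.a * (D.a ^ n * x * (D.a ^ n)⁻¹) * D.a⁻¹
        = D.a ^ (n + 1) * x * (D.a ^ (n + 1))⁻¹ by rw [pow_succ']; group] at this
  have hneg : ∀ n : ℕ, D.Q j (l - n * j) ((D.a ^ n)⁻¹ * x * (D.a ^ n)) := by
    intro n
    induction n with
    | zero => simpa using hx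
    | succ n ih =>
      have := Q.conj' D ih
      rw [show l - (n : ℤ) * j - j = l - ((n + 1 : ℕ) : ℤ) * j by push_cast; ring] at this
      rwa [show D.a⁻¹ * ((D.a ^ n)⁻¹ * x * (D.a ^ n)) * D.a
        = (D.a ^ (n + 1))⁻¹ * x * (D.a ^ (n + 1)) by rw [pow_succ]; group] at this
  obtain ⟨m, rfl | rfl⟩ := Int.eq_nat_or_neg n
  · rw [zpow_natCast]; exact hpos m
  · have := hneg m
    rw [zpow_neg, zpow_natCast, inv_inv]
    rwa [show l + -((m : ℤ)) * j = l - m * j by ring]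

/-- The relation with the Heisenberg group. -/
def Rel (x : H) (t : Heis) : Prop := ∃ q, D.Q t.j t.l q ∧ x = q * D.a ^ t.n

theorem rel_one : D.Rel 1 1 := ⟨1, Q.one D, by simp⟩

theorem rel_mul {x y : H} {t u : Heis} (hx : D.Rel x t) (hy : D.Rel y u) :
    D.Rel (x * y) (t * u) := by
  obtain ⟨q, hq, rfl⟩ := hx
  obtain ⟨r, hr, rfl⟩ := hy
  refine ⟨q * (D.a ^ t.n * r * (D.a ^ t.n)⁻¹), ?_, ?_⟩
  · have := Q.mul D hq (Q.zconj D hr t.n)
    rw [Heis.mul_j, Heis.mul_l]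
    rwa [show t.l + (u.l + t.n * u.j) = t.l + u.l + t.n * u.j by ring] at this
  · rw [Heis.mul_n, zpow_add]; group

theorem rel_inv {x : H} {t : Heis} (hx : D.Rel x t) : D.Rel x⁻¹ t⁻¹ := by
  obtain ⟨q, hq, rfl⟩ := hx
  refine ⟨D.a ^ (-t.n) * q⁻¹ * (D.a ^ (-t.n))⁻¹, ?_, ?_⟩
  · have := Q.zconj D (Q.inv D hq) (-t.n)
    rw [Heis.inv_j, Heis.inv_l]
    rwa [show -t.l + -t.n * -t.j = t.n * t.j - t.l by ring] at this
  · rw [Heis.inv_n, mul_inv_rev, zpow_neg]; group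

theorem rel_tot (t : Heis) : ∃ x, D.Rel x t :=
  ⟨_, _, ⟨1, D.one, rfl⟩, rfl⟩

end HData

/-- Embedding criterion for `N`. -/
theorem Setting.embedN {E : Set (MTerm × MTerm)} {H : Type} [LGroup H] {A : Set H}
    (S : Setting E H A) (D : ℕ → HData H) (hc : ∀ m, (D m).c ∈ A)
    (hpos : ∀ t : Heis, 1 < t → ∀ᶠ m in atTop, ∀ x, (D m).Rel x t → 1 < x) :
    InV E MN := by
  refine S.embed Heis.tot subN {x | x.n = 0 ∧ x.j = 0} (fun z hz => hz)
    (fun m => (D m).Rel) (fun m => (D m).rel_one) (fun m _ _ _ _ h h' => (D m).rel_mul h h')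
    (fun m _ _ h => (D m).rel_inv h) hpos (fun m t => (D m).rel_tot t) ?_
  rintro m t ⟨h1, h2⟩
  have hcz : ∀ n : ℕ, (D m).c ^ n ∈ A := by
    intro n
    induction n with
    | zero => rw [pow_zero]; exact S.one
    | succ n ih => rw [pow_succ]; exact S.mul _ ih _ (hc m)
  refine ⟨(D m).c ^ t.l, ?_, (D m).c ^ t.l, ⟨1, (D m).one, ?_⟩, ?_⟩
  · obtain ⟨n, hn | hn⟩ := Int.eq_nat_or_neg t.l
    · rw [hn, zpow_natCast]; exact hcz n
    · rw [hn, zpow_neg, zpow_natCast]; exact S.inv _ (hcz n)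
  · rw [h2]; simp
  · rw [h1]; simp

theorem Heis.pos_cases {t : Heis} (ht : 1 < t) :
    0 < t.n ∨ t.n = 0 ∧ (0 < t.j ∨ t.j = 0 ∧ 0 < t.l) := by
  have h1 := (Heis.one_le_iff t).1 ht.le
  have h2 : t ≠ 1 := ne_of_gt ht
  rcases h1 with h | ⟨h, h' | ⟨h', h''⟩⟩
  · exact Or.inl h
  · exact Or.inr ⟨h, Or.inl h'⟩
  · refine Or.inr ⟨h, Or.inr ⟨h', ?_⟩⟩
    rcases lt_or_eq_of_le h'' with h3 | h3
    · exact h3
    · exact absurd (Heis.ext h h' h3.symm) h2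

end Pool.Helper55.MG
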