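import Pool.Agent.Helper55.MG.SetN

/-! # Finding `W`, and the classification in the working setting -/

set_option linter.unusedVariables false

namespace Pool.Helper55.MG

open Filter

/-- Products of powers of commuting elements, indexed by finitely supported functions. -/
theorem exists_prodFun {H : Type*} [Group H] (A : Set H) (one : (1 : H) ∈ A)
    (mul : ∀ x ∈ A, ∀ y ∈ A, x * y ∈ A) (inv : ∀ x ∈ A, x⁻¹ ∈ A)
    (hA : ∀ x ∈ A, ∀ y ∈ A, x * y = y * x) (v : ℤ → H) (hv : ∀ i, v i ∈ A) :
    ∃ P : (ℤ →₀ ℤ) → H, (∀ f, P f ∈ A) ∧ P 0 = 1 ∧ (∀ f g, P (f + g) = P f * P g) ∧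
      ∀ i z, P (Finsupp.single i z) = v i ^ z := by
  let AS : Subgroup H :=
    { carrier := A, one_mem' := one, mul_mem' := fun hx hy => mul _ hx _ hy,
      inv_mem' := fun hx => inv _ hx }
  letI : CommGroup AS :=
    { (inferInstance : Group AS) with
      mul_comm := fun x y => Subtype.ext (hA _ x.2 _ y.2) }
  let L : (ℤ →₀ ℤ) →ₗ[ℤ] Additive AS :=
    Finsupp.linearCombination ℤ (fun i => Additive.ofMul (⟨v i, hv i⟩ : AS))
  refine ⟨fun f => ((Additive.toMul (L f) : AS) : H), fun f => (Additive.toMul (L f)).2, ?_, ?_, ?_⟩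
  · change ((Additive.toMul (L 0) : AS) : H) = 1
    rw [map_zero]; rfl
  · intro f g
    change ((Additive.toMul (L (f + g)) : AS) : H) = _
    rw [map_add]; rfl
  · intro i z
    change ((Additive.toMul (L (Finsupp.single i z)) : AS) : H) = _
    rw [Finsupp.linearCombination_single]
    rfl

/-- Finding `W`. -/
theorem Setting.findW {E : Set (MTerm × MTerm)} {H : Type} [LGroup H] {A : Set H}
    (S : Setting E H A) (hA : ∀ x ∈ A, ∀ y ∈ A, x * y = y * x) {b y : H} (hb : 1 < b)
    (hy : y ∈ A) (hy1 : 1 < y) (hyb : Ll y b) (hdb : y * y ≤ b * y * b⁻¹) : InV E MW := by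
  -- growth
  have hpow : ∀ m : ℕ, y ^ (2 ^ m) ≤ b ^ m * y * (b ^ m)⁻¹ := by
    intro m
    induction m with
    | zero => simp
    | succ m ih =>
      have h1 : b ^ (m + 1) * y * (b ^ (m + 1))⁻¹ = b * (b ^ m * y * (b ^ m)⁻¹) * b⁻¹ := by
        rw [pow_succ']; group
      rw [h1]
      calc y ^ (2 ^ (m + 1)) = (y * y) ^ (2 ^ m) := by
            rw [← pow_two, ← pow_mul, pow_succ']
        _ ≤ (b * y * b⁻¹) ^ (2 ^ m) := pow_le_pow_left' hdb _
        _ = b * y ^ (2 ^ m) * b⁻¹ := by rw [conj_pow]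
        _ ≤ _ := mul_le_mul_left (mul_le_mul_right ih _) _
  have hmon : ∀ m : ℕ, y ≤ b ^ m * y * (b ^ m)⁻¹ := by
    intro m
    refine le_trans ?_ (hpow m)
    exact le_self_pow hy1.le (by positivity)
  let v : ℕ → ℤ → H := fun m i => b ^ ((m : ℤ) * i) * y * (b ^ ((m : ℤ) * i))⁻¹
  have hvA : ∀ m i, v m i ∈ A := fun m i => S.conj _ hy _
  have hv1 : ∀ m i, 1 < v m i := by
    intro m i
    have h1 : 1 ≤ v m i := one_le_conj _ hy1.le
    refine lt_of_le_of_ne h1 fun h => hy1.ne ?_
    have : y = (b ^ ((m : ℤ) * i))⁻¹ * v m i * b ^ ((m : ℤ) * i) := by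
      simp only [v]; group
    rw [this, ← h]; group
  have hvconj : ∀ (m : ℕ) (i n : ℤ), b ^ ((m : ℤ) * n) * v m i * (b ^ ((m : ℤ) * n))⁻¹
      = v m (i + n) := by
    intro m i n
    simp only [v]
    rw [show (m : ℤ) * (i + n) = m * n + m * i by ring, zpow_add]; group
  have hvstep : ∀ m i, v m i ≤ v m (i + 1) := by
    intro m i
    have h1 := hmon m
    have h2 := mul_le_mul_left (mul_le_mul_right h1 (b ^ ((m : ℤ) * i))) (b ^ ((m : ℤ) * i))⁻¹
    refine h2.trans (le_of_eq ?_)
    simp only [v]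
    rw [show (m : ℤ) * (i + 1) = m * i + m by ring, zpow_add, zpow_natCast]; group
  have hvpow : ∀ m i, (v m i) ^ (2 ^ m) ≤ v m (i + 1) := by
    intro m i
    have h1 := hpow m
    have h2 := mul_le_mul_left (mul_le_mul_right h1 (b ^ ((m : ℤ) * i))) (b ^ ((m : ℤ) * i))⁻¹
    rw [← conj_pow] at h2
    refine h2.trans (le_of_eq ?_)
    simp only [v]
    rw [show (m : ℤ) * (i + 1) = m * i + m by ring, zpow_add, zpow_natCast]; group
  have hvmono : ∀ m (i j : ℤ), i ≤ j → v m i ≤ v m j := by
    intro m i j hij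
    obtain ⟨n, hn⟩ := Int.eq_ofNat_of_zero_le (Int.sub_nonneg.2 hij)
    have h1 : ∀ n : ℕ, v m i ≤ v m (i + n) := by
      intro n
      induction n with
      | zero => simp
      | succ n ih =>
        refine ih.trans ?_
        have := hvstep m (i + n)
        rwa [show i + (n : ℤ) + 1 = i + ((n + 1 : ℕ) : ℤ) by push_cast; ring] at this
    have h2 := h1 n
    rwa [show i + (n : ℤ) = j by omega] at h2
  have hvb : ∀ m i, Ll (v m i) b := by
    intro m i
    have h1 := hyb.conj (b ^ ((m : ℤ) * i))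
    have h2 : b ^ ((m : ℤ) * i) * b * (b ^ ((m : ℤ) * i))⁻¹ = b := by
      have : b ^ ((m : ℤ) * i) * b = b * b ^ ((m : ℤ) * i) :=
        ((Commute.refl b).zpow_left _).eq
      rw [this]; group
    rwa [h2] at h1
  choose P hPA hP0 hPadd hPs using fun m : ℕ =>
    exists_prodFun A S.one S.mul S.inv hA (v m) (hvA m)
  have hPneg : ∀ m f, P m (-f) = (P m f)⁻¹ := by
    intro m f
    rw [eq_inv_iff_mul_eq_one, ← hPadd, neg_add_cancel, hP0]
  have hPsh : ∀ m (f : ℤ →₀ ℤ) (n : ℤ), P m (sh n f)
      = b ^ ((m : ℤ) * n) * P m f * (b ^ ((m : ℤ) * n))⁻¹ := by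
    intro m f n
    induction f using Finsupp.induction_linear with
    | zero =>
      have : sh n (0 : ℤ →₀ ℤ) = 0 := by ext i; simp
      rw [this, hP0]; group
    | add f g hf hg =>
      have : sh n (f + g) = sh n f + sh n g := by ext i; simp
      rw [this, hPadd, hPadd, hf, hg]; group
    | single i z =>
      have : sh n (Finsupp.single i z) = Finsupp.single (i + n) z := by
        ext j
        rw [sh_apply, Finsupp.single_apply, Finsupp.single_apply]
        congr 1
        apply propext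
        constructor <;> intro h <;> omega
      rw [this, hPs, hPs, ← hvconj, conj_zpow]
  have hPb : ∀ m f, Ll (P m f) b := by
    intro m f
    induction f using Finsupp.induction_linear with
    | zero => rw [hP0]; exact ll_one hb.le
    | add f g hf hg =>
      rw [hPadd]
      exact hf.mul S.tot hg (hA _ (hPA m f) _ (hPA m g))
    | single i z => rw [hPs]; exact (hvb m i).zpow z
  have hPbd : ∀ (f : ℤ →₀ ℤ) (j : ℤ), (∀ i, j < i → f i = 0) →
      ∃ s : ℕ, ∀ m, P m f ≤ (v m j) ^ s := by
    intro f j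
    induction f using Finsupp.induction with
    | zero => intro _; exact ⟨0, fun m => by rw [hP0, pow_zero]⟩
    | single_add i z f hi hz ih =>
      intro hf
      have hij : i ≤ j := by
        by_contra h
        have h1 := hf i (by omega)
        rw [Finsupp.add_apply, Finsupp.single_eq_same, Finsupp.notMem_support_iff.1 hi,
          add_zero] at h1
        exact hz h1
      obtain ⟨s, hs⟩ := ih (by
        intro i' hi'
        have h1 := hf i' hi'
        rwa [Finsupp.add_apply, Finsupp.single_eq_of_ne (by omega), zero_add] at h1)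
      refine ⟨z.natAbs + s, fun m => ?_⟩
      rw [hPadd, hPs, pow_add]
      refine mul_le_mul' ?_ (hs m)
      calc (v m i) ^ z ≤ (v m i) ^ (z.natAbs : ℤ) := zpow_mono (hv1 m i).le (by omega)
        _ = (v m i) ^ z.natAbs := by rw [zpow_natCast]
        _ ≤ (v m j) ^ z.natAbs := pow_le_pow_left' (hvmono m i j hij) _
  refine S.embed Wr.tot subW {t | t.n = 0} (fun z hz => hz)
    (fun m x t => x = P m t.f * b ^ ((m : ℤ) * t.n)) ?_ ?_ ?_ ?_ ?_ ?_
  · intro m
    simp [hP0]
  · rintro m _ t _ t' rfl rfl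
    rw [Wr.mul_f, Wr.mul_n, hPadd, hPsh, mul_add, zpow_add]; group
  · rintro m _ t rfl
    rw [Wr.inv_f, Wr.inv_n, hPneg, hPsh, mul_inv_rev]
    have : (m : ℤ) * -t.n = -(m * t.n) := by ring
    rw [this, zpow_neg]; group
  · intro t ht
    have h1 := (Wr.one_le_iff t).1 ht.le
    rcases h1 with hn | ⟨hn, hf⟩
    · filter_upwards [eventually_gt_atTop 0] with m hm x hx
      subst hx
      have h2 := (hPb m t.f).one_lt_mul hb
      refine lt_of_lt_of_le h2 (mul_le_mul_right (le_zpow hb.le ?_) _)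
      positivity
    · rcases hf with hf | ⟨j, hj, hj'⟩
      · exact absurd (Wr.ext hf hn) (ne_of_gt ht)
      · obtain ⟨s, hs⟩ := hPbd (-(t.f.erase j)) (j - 1) (by
          intro i hi
          rw [Finsupp.neg_apply]
          by_cases hij : i = j
          · subst hij; rw [Finsupp.erase_same, neg_zero]
          · rw [Finsupp.erase_ne hij, hj' i (by omega), neg_zero])
        filter_upwards [eventually_gt_atTop s] with m hm x hx
        subst hx
        rw [hn, mul_zero, zpow_zero, mul_one]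
        have h2 : t.f = Finsupp.single j (t.f j) + t.f.erase j :=
          (Finsupp.single_add_erase j t.f).symm
        have h3 : P m t.f = (v m j) ^ (t.f j) * P m (t.f.erase j) := by
          conv_lhs => rw [h2]
          rw [hPadd, hPs]
        have h4 : ((v m (j - 1)) ^ s)⁻¹ ≤ P m (t.f.erase j) := by
          have := hs m
          rw [hPneg] at this
          have h5 := inv_le_inv_iff.2 this
          rwa [inv_inv] at h5
        have h5 : (v m (j - 1)) ^ (2 ^ m) ≤ v m j := by
          have := hvpow m (j - 1)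
          rwa [sub_add_cancel] at this
        have h6 : s < 2 ^ m := hm.trans Nat.lt_two_pow_self
        rw [h3]
        calc (1 : H) < v m (j - 1) := hv1 m _
          _ = (v m (j - 1)) ^ (s + 1) * ((v m (j - 1)) ^ s)⁻¹ := by rw [pow_succ]; group
          _ ≤ (v m (j - 1)) ^ (2 ^ m) * ((v m (j - 1)) ^ s)⁻¹ := by
              refine mul_le_mul_left ?_ _
              have := zpow_mono (hv1 m (j - 1)).le
                (show ((s + 1 : ℕ) : ℤ) ≤ ((2 ^ m : ℕ) : ℤ) by exact_mod_cast h6)
              rwa [zpow_natCast, zpow_natCast] at this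
          _ ≤ (v m j) ^ (t.f j) * P m (t.f.erase j) := by
              refine mul_le_mul' (h5.trans ?_) h4
              exact le_zpow (hv1 m j).le hj
  · intro m t
    exact ⟨_, rfl⟩
  · intro m t ht
    refine ⟨P m t.f, hPA m _, ?_⟩
    have : t.n = 0 := ht
    rw [this]; simp

/-- The classification in the working setting. -/
theorem Setting.main {E : Set (MTerm × MTerm)} {H : Type} [LGroup H] {A : Set H}
    (S : Setting E H A) (hA : ∀ x ∈ A, ∀ y ∈ A, x * y = y * x)
    (hnc : ∃ x y : H, x * y ≠ y * x) : InV E MN ∨ InV E MW := by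
  -- reduction to positive elements
  have hpos : ∀ (P : H → Prop), (∀ z, P z → P z⁻¹) → ∀ w : H, (∃ z, P z ∧ z * w ≠ w * z) →
      ∃ z, P z ∧ 1 < z ∧ z * w ≠ w * z := by
    rintro P hP w ⟨z, hz, hzw⟩
    have hz1 : z ≠ 1 := by rintro rfl; exact hzw (by simp)
    rcases S.tot.lt_or hz1 with h | h
    · refine ⟨z⁻¹, hP z hz, one_lt_inv'.2 h, fun h' => hzw ?_⟩
      have := ((show Commute z⁻¹ w from h').inv_left).eq
      rwa [inv_inv] at this
    · exact ⟨z, hz, h, hzw⟩
  by_cases hcase1 : ∃ a k : H, 1 < a ∧ k ∈ A ∧ 1 < k ∧ a * k ≠ k * a ∧ Ll k a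
  · obtain ⟨a, k, ha, hkA, hk, hak, hka⟩ := hcase1
    by_cases hND : NoDouble A a a
    · left
      set c := a * k * a⁻¹ * k⁻¹ with hc
      have hne : c ≠ 1 := by
        intro h
        apply hak
        calc a * k = (a * k * a⁻¹ * k⁻¹) * (k * a) := by group
          _ = k * a := by rw [← hc, h, one_mul]
      have hcA : c ∈ A := S.comm _ _
      rcases S.tot.lt_or hne with h | h
      · -- dual
        have hc' : a⁻¹ * k⁻¹ * a⁻¹⁻¹ * k⁻¹⁻¹ = a⁻¹ * c * a := by
          have h1 : a⁻¹ * c * a ∈ A := by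
            have := S.conj _ hcA a⁻¹
            rwa [inv_inv] at this
          have h2 : a⁻¹ * k⁻¹ * a⁻¹⁻¹ * k⁻¹⁻¹ = k⁻¹ * (a⁻¹ * c * a) * k := by
            rw [hc]
            have h3 : (a⁻¹ * k * a) * k⁻¹ = k⁻¹ * (a⁻¹ * k * a) := by
              have h4 : a⁻¹ * k * a ∈ A := by
                have := S.conj _ hkA a⁻¹
                rwa [inv_inv] at this
              exact hA _ h4 _ (S.inv _ hkA)
            have h5 : a⁻¹ * k⁻¹ * a⁻¹⁻¹ * k⁻¹⁻¹ = (k⁻¹ * (a⁻¹ * k * a))⁻¹ := by group
            rw [h5, ← h3]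
            have h6 : k⁻¹ * (a⁻¹ * (a * k * a⁻¹ * k⁻¹) * a) * k = (a⁻¹ * k⁻¹ * a) * k := by
              group
            rw [h6]
            have h7 : (a⁻¹ * k * a * k⁻¹)⁻¹ = k * (a⁻¹ * k⁻¹ * a) := by group
            rw [h7]
            have h8 : a⁻¹ * k⁻¹ * a ∈ A := by
              have := S.conj _ (S.inv _ hkA) a⁻¹
              rwa [inv_inv] at this
            exact hA _ hkA _ h8
          rw [h2, hA _ (S.inv _ hkA) _ h1]; group
        have hc'' : a⁻¹ * c * a < 1 := by
          have h1 : a⁻¹ * c * a ≤ 1 := by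
            have := mul_le_mul_left (mul_le_mul_right h.le a⁻¹) a
            rwa [mul_one, inv_mul_cancel] at this
          refine lt_of_le_of_ne h1 fun h2 => hne ?_
          calc c = a * (a⁻¹ * c * a) * a⁻¹ := by group
            _ = 1 := by rw [h2]; group
        refine Setting.case1b (H := Hᵒᵈ) S.dual (A := OrderDual.ofDual ⁻¹' A) ?_
          (a := OrderDual.toDual a⁻¹) (k := OrderDual.toDual k⁻¹) ?_ ?_ ?_ ?_ ?_ ?_
        · exact fun x hx y hy => hA _ hx _ hy
        · exact inv_lt_one'.2 ha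
        · exact S.inv _ hkA
        · exact inv_lt_one'.2 hk
        · intro j
          have h1 := hka j
          have h2 := inv_le_inv_iff.2 h1
          rw [← inv_zpow] at h2
          exact h2
        · change a⁻¹ * k⁻¹ * a⁻¹⁻¹ * k⁻¹⁻¹ < 1
          rw [hc']; exact hc''
        · intro x hx hx1 hxa i hi
          have hx1' : OrderDual.ofDual x < 1 := hx1
          have h1 := hND (OrderDual.ofDual x)⁻¹ (S.inv _ hx) (one_lt_inv'.2 hx1') (by
            intro j
            have h2 := inv_le_inv_iff.2 (show a⁻¹ ≤ (OrderDual.ofDual x) ^ j from hxa j)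
            rw [inv_inv, ← inv_zpow] at h2
            exact h2) i hi
          obtain ⟨h2, h3⟩ := h1
          constructor
          · change (OrderDual.ofDual x) * (OrderDual.ofDual x) <
              (a⁻¹) ^ i * (OrderDual.ofDual x) * ((a⁻¹) ^ i)⁻¹
            have h4 := inv_lt_inv_iff.2 h3
            have e1 : ((OrderDual.ofDual x)⁻¹ * (OrderDual.ofDual x)⁻¹)⁻¹
                = (OrderDual.ofDual x) * (OrderDual.ofDual x) := by
              rw [mul_inv_rev, inv_inv]
            have e2 : ((a ^ i)⁻¹ * (OrderDual.ofDual x)⁻¹ * a ^ i)⁻¹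
                = (a⁻¹) ^ i * (OrderDual.ofDual x) * ((a⁻¹) ^ i)⁻¹ := by
              rw [inv_pow]; group
            rwa [e1, e2] at h4
          · change (OrderDual.ofDual x) * (OrderDual.ofDual x) <
              ((a⁻¹) ^ i)⁻¹ * (OrderDual.ofDual x) * (a⁻¹) ^ i
            have h4 := inv_lt_inv_iff.2 h2
            have e1 : ((OrderDual.ofDual x)⁻¹ * (OrderDual.ofDual x)⁻¹)⁻¹
                = (OrderDual.ofDual x) * (OrderDual.ofDual x) := by
              rw [mul_inv_rev, inv_inv]
            have e2 : ((a ^ i) * (OrderDual.ofDual x)⁻¹ * (a ^ i)⁻¹)⁻¹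
                = ((a⁻¹) ^ i)⁻¹ * (OrderDual.ofDual x) * (a⁻¹) ^ i := by
              rw [inv_pow]; group
            rwa [e1, e2] at h4
      · exact S.case1b hA ha hkA hk hka h hND
    · right
      unfold NoDouble at hND
      simp only [not_forall] at hND
      obtain ⟨x, hxA, hx1, hxa, i, hi, hnd⟩ := hND
      rw [not_and_or] at hnd
      have hai : a ≤ a ^ i := le_self_pow ha.le (by omega)
      have hai1 : 1 < a ^ i := lt_of_lt_of_le ha hai
      rcases hnd with h | h
      · refine S.findW hA hai1 hxA hx1 (hxa.trans_le hai) ?_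
        rcases S.tot (x * x) (a ^ i * x * (a ^ i)⁻¹) with h' | h'
        · exact h'
        · rcases eq_or_lt_of_le h' with h2 | h2
          · exact h2.ge
          · exact absurd h2 h
      · have h' : x * x ≤ (a ^ i)⁻¹ * x * a ^ i := by
          rcases S.tot (x * x) ((a ^ i)⁻¹ * x * a ^ i) with h' | h'
          · exact h'
          · rcases eq_or_lt_of_le h' with h2 | h2
            · exact h2.ge
            · exact absurd h2 h
        refine Setting.findW (H := Hᵒᵈ) S.dual (A := OrderDual.ofDual ⁻¹' A) ?_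
          (b := OrderDual.toDual (a ^ i)⁻¹) (y := OrderDual.toDual x⁻¹) ?_ ?_ ?_ ?_ ?_
        · exact fun x hx y hy => hA _ hx _ hy
        · exact inv_lt_one'.2 hai1
        · exact S.inv _ hxA
        · exact inv_lt_one'.2 hx1
        · intro j
          have h1 := (hxa.trans_le hai) j
          have h2 := inv_le_inv_iff.2 h1
          rw [← inv_zpow] at h2
          exact h2
        · change (a ^ i)⁻¹ * x⁻¹ * (a ^ i)⁻¹⁻¹ ≤ x⁻¹ * x⁻¹
          have h4 := inv_le_inv_iff.2 h'
          have e1 : (x * x)⁻¹ = x⁻¹ * x⁻¹ := by group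
          have e2 : ((a ^ i)⁻¹ * x * a ^ i)⁻¹ = (a ^ i)⁻¹ * x⁻¹ * (a ^ i)⁻¹⁻¹ := by group
          rwa [e1, e2] at h4
  · left
    by_cases hcen : ∃ a k : H, k ∈ A ∧ a * k ≠ k * a
    · obtain ⟨a₀, k₀, hk₀, hak₀⟩ := hcen
      obtain ⟨k, hkA, hk, hka⟩ := hpos (fun z => z ∈ A) S.inv a₀ ⟨k₀, hk₀, Ne.symm hak₀⟩
      obtain ⟨a, -, ha, hak⟩ := hpos (fun _ => True) (fun _ _ => trivial) k
        ⟨a₀, trivial, Ne.symm hka⟩
      have hcA : a * k * a⁻¹ * k⁻¹ ∈ A := S.comm _ _
      have hck : (a * k * a⁻¹ * k⁻¹) * k = k * (a * k * a⁻¹ * k⁻¹) := hA _ hcA _ hkA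
      have hca : (a * k * a⁻¹ * k⁻¹) * a = a * (a * k * a⁻¹ * k⁻¹) := by
        by_contra hne
        set c := a * k * a⁻¹ * k⁻¹ with hc
        -- all powers of `c` are at most `a`
        have hcl : Ll c a := by
          intro j
          have h1 : k ^ j * a * (k ^ j)⁻¹ = c ^ (-j) * a := by
            have h2 : k⁻¹ * c = c * k⁻¹ := hA _ (S.inv _ hkA) _ hcA
            have h3 : a * k⁻¹ * a⁻¹ = c⁻¹ * k⁻¹ := by
              have h4 : a * k⁻¹ * a⁻¹ = (c * k)⁻¹ := by rw [hc]; group
              rw [h4, hck, mul_inv_rev]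
            have h5 : a * (k ^ j)⁻¹ * a⁻¹ = c ^ (-j) * (k ^ j)⁻¹ := by
              rw [← inv_zpow, ← conj_zpow, h3,
                (show Commute c⁻¹ k⁻¹ from hA _ (S.inv _ hcA) _ (S.inv _ hkA)).mul_zpow,
                inv_zpow, zpow_neg]
            have h6 : k ^ j * (c ^ (-j)) = c ^ (-j) * k ^ j :=
              ((show Commute k c from hck.symm).zpow_zpow j (-j)).eq
            calc k ^ j * a * (k ^ j)⁻¹ = k ^ j * (a * (k ^ j)⁻¹ * a⁻¹) * a := by group
              _ = (k ^ j * c ^ (-j)) * (k ^ j)⁻¹ * a := by rw [h5]; group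
              _ = c ^ (-j) * a := by rw [h6]; group
          have h2 : 1 ≤ c ^ (-j) * a := by rw [← h1]; exact one_le_conj _ ha.le
          have h3 := mul_le_mul_right h2 (c ^ j)
          rwa [mul_one, ← mul_assoc, ← zpow_add, add_neg_cancel, zpow_zero, one_mul] at h3
        have hc1 : c ≠ 1 := by
          intro h; apply hne; rw [h]; simp
        rcases S.tot.lt_or hc1 with h | h
        · refine hcase1 ⟨a, c⁻¹, ha, S.inv _ hcA, one_lt_inv'.2 h, fun h' => hne ?_, hcl.inv⟩
          have := ((show Commute a c⁻¹ from h').inv_right).eq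
          rw [inv_inv] at this
          exact this.symm
        · exact hcase1 ⟨a, c, ha, hcA, h, fun h' => hne h'.symm, hcl⟩
      exact S.heis_pair ha hk hak hca hck
    · have hcen' : ∀ a k : H, k ∈ A → a * k = k * a := by
        intro a k hk
        by_contra h
        exact hcen ⟨a, k, hk, h⟩
      obtain ⟨x₀, y₀, hxy₀⟩ := hnc
      obtain ⟨x, -, hx, hxy⟩ := hpos (fun _ => True) (fun _ _ => trivial) y₀
        ⟨x₀, trivial, hxy₀⟩
      obtain ⟨y, -, hy, hyx⟩ := hpos (fun _ => True) (fun _ _ => trivial) x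
        ⟨y₀, trivial, Ne.symm hxy⟩
      exact S.heis_pair hx hy (Ne.symm hyx) (hcen' _ _ (S.comm x y)).symm
        (hcen' _ _ (S.comm x y)).symm

/-- The main theorem on noncommutative m-groups: every variety containing one contains one of
the special m-groups or the double of a non-metabelian totally ordered group. -/
theorem main_T1 {E : Set (MTerm × MTerm)} {G : Type} [MGroup G] (hG : InV E G)
    (hnc : ∃ x y : G, x * y ≠ y * x) :
    (∃ p : ℕ, p.Prime ∧ InV E (Sc p 0)) ∨ InV E (Sc 2 1) ∨ InV E MN ∨ InV E MW ∨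
      ∃ (K : Type) (_ : LGroup K), Tot K ∧ ¬ Metab K ∧ InV E (Dbl K) := by
  by_cases hE : RepComm E
  · rcases nonrep hE hG hnc with h | h
    · exact Or.inl h
    · exact Or.inr (Or.inl h)
  · unfold RepComm at hE
    simp only [not_forall] at hE
    obtain ⟨G', _, hG', hR, x, y, hxy⟩ := hE
    rcases rep_branch hG' hR ⟨x, y, hxy⟩ with h | ⟨H, _, A, hS, hA, hnc'⟩
    · exact Or.inr (Or.inr (Or.inr (Or.inr h)))
    · rcases hS.main hA hnc' with h | h
      · exact Or.inr (Or.inr (Or.inl h))
      · exact Or.inr (Or.inr (Or.inr (Or.inl h)))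

end Pool.Helper55.MG
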