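import Pool.Agent.Helper55.MG.Trans

/-! # Solvable totally ordered groups in covers -/

set_option linter.unusedVariables false

namespace Pool.Helper55.MG

open scoped commutatorElement

theorem solvable_of_metab {K : Type*} [Group K] (h : Metab K) : Group.IsSolvable K := by
  refine ⟨⟨2, ?_⟩⟩
  rw [derivedSeries_succ, derivedSeries_succ, derivedSeries_zero]
  rw [Subgroup.commutator_eq_bot_iff_le_centralizer]
  -- the commutator subgroup is commutative
  have hcomm : ∀ x ∈ ⁅(⊤ : Subgroup K), (⊤ : Subgroup K)⁆, ∀ y ∈ ⁅(⊤ : Subgroup K), (⊤ : Subgroup K)⁆,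
      x * y = y * x := by
    have hset : ⁅(⊤ : Subgroup K), (⊤ : Subgroup K)⁆ =
        Subgroup.closure {z : K | ∃ a b : K, a * b * a⁻¹ * b⁻¹ = z} := by
      rw [Subgroup.commutator_def]
      congr 1
      ext z
      constructor
      · rintro ⟨a, -, b, -, rfl⟩
        exact ⟨a, b, rfl⟩
      · rintro ⟨a, b, rfl⟩
        exact ⟨a, trivial, b, trivial, rfl⟩
    rw [hset]
    have hcc : ∀ x ∈ {z : K | ∃ a b : K, a * b * a⁻¹ * b⁻¹ = z},
        ∀ y ∈ {z : K | ∃ a b : K, a * b * a⁻¹ * b⁻¹ = z}, x * y = y * x := by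
      rintro _ ⟨a, b, rfl⟩ _ ⟨c, d, rfl⟩
      exact h a b c d
    have hAc := Subgroup.isMulCommutative_closure hcc
    intro x hx y hy
    exact setLike_mul_comm hx hy
  intro x hx
  rw [Subgroup.mem_centralizer_iff]
  intro y hy
  exact hcomm y hy x hx

/-- A solvable non-metabelian group has a metabelian noncommutative subgroup. -/
theorem exists_metab_sub {K : Type*} [Group K] (hs : Group.IsSolvable K) (h : ¬ Metab K) :
    ∃ D : Subgroup K, (∃ x ∈ D, ∃ y ∈ D, x * y ≠ y * x) ∧
      ∀ x ∈ D, ∀ y ∈ D, ∀ z ∈ D, ∀ w ∈ D, (x * y * x⁻¹ * y⁻¹) * (z * w * z⁻¹ * w⁻¹) =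
        (z * w * z⁻¹ * w⁻¹) * (x * y * x⁻¹ * y⁻¹) := by
  classical
  obtain ⟨hex'⟩ := hs
  have hn := Nat.find_spec hex'
  have hmin : ∀ m, m < Nat.find hex' → derivedSeries K m ≠ ⊥ := fun m hm => Nat.find_min hex' hm
  set n := Nat.find hex' with hndef
  have hcommel : ∀ (D : Subgroup K), (∀ x ∈ D, ∀ y ∈ D, x * y = y * x) → ⁅D, D⁆ = ⊥ := by
    intro D hD
    rw [Subgroup.commutator_eq_bot_iff_le_centralizer]
    intro x hx
    rw [Subgroup.mem_centralizer_iff]
    intro y hy
    exact hD y hy x hx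
  have h2 : 2 ≤ n := by
    by_contra hlt
    apply h
    have h1 : derivedSeries K 1 = ⊥ := by
      rcases Nat.eq_zero_or_pos n with h0 | h0
      · rw [h0] at hn
        rw [eq_bot_iff, ← hn]
        rw [derivedSeries_zero]; exact le_top
      · have : n = 1 := by omega
        rwa [this] at hn
    rw [derivedSeries_succ, derivedSeries_zero] at h1
    intro x y z w
    have hx : ∀ a b : K, a * b * a⁻¹ * b⁻¹ = 1 := by
      intro a b
      have : ⁅a, b⁆ ∈ (⊥ : Subgroup K) := by
        rw [← h1]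
        exact Subgroup.commutator_mem_commutator trivial trivial
      rw [Subgroup.mem_bot] at this
      exact this
    rw [hx, hx]
  obtain ⟨k, hk⟩ : ∃ k, n = k + 2 := ⟨n - 2, by omega⟩
  refine ⟨derivedSeries K k, ?_, ?_⟩
  · by_contra hcon
    refine hmin (k + 1) (by omega) ?_
    rw [derivedSeries_succ]
    apply hcommel
    intro x hx y hy
    by_contra hxy
    exact hcon ⟨x, hx, y, hy, hxy⟩
  · intro x hx y hy z hz w hw
    have h1 : ⁅x, y⁆ ∈ derivedSeries K (k + 1) := Subgroup.commutator_mem_commutator hx hy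
    have h3 : ⁅z, w⁆ ∈ derivedSeries K (k + 1) := Subgroup.commutator_mem_commutator hz hw
    have h4 : ⁅⁅x, y⁆, ⁅z, w⁆⁆ ∈ derivedSeries K (k + 2) :=
      Subgroup.commutator_mem_commutator h1 h3
    rw [← hk, hn, Subgroup.mem_bot] at h4
    exact commutatorElement_eq_one_iff_mul_comm.1 h4

end Pool.Helper55.MG
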