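import Pool.Agent.Helper55.MG.Basic
import Pool.Agent.Helper55.MG.Models

/-! # Substructures and metabelian groups -/

set_option linter.unusedVariables false

namespace Pool.Helper55.MG

theorem MSub.holds {G : Type*} [MGroup G] (M : MSub G) {e : MTerm × MTerm} (h : MHolds G e) :
    MHolds M.El e := by
  refine transfer (fun (a : G) (b : M.El) => a = b.val) rfl ?_ ?_ ?_ ?_ ?_ ?_ h
  · rintro _ b _ b' rfl rfl; rfl
  · rintro _ b rfl; rfl
  · rintro _ b _ b' rfl rfl; rfl
  · rintro _ b rfl; rfl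
  · rintro _ b b' rfl h; exact MSub.El.ext h
  · intro b; exact ⟨_, rfl⟩

/-- The group `K` is metabelian: commutators commute with each other. -/
def Metab (K : Type*) [Group K] : Prop :=
  ∀ x y z w : K, (x * y * x⁻¹ * y⁻¹) * (z * w * z⁻¹ * w⁻¹) =
    (z * w * z⁻¹ * w⁻¹) * (x * y * x⁻¹ * y⁻¹)

theorem LGroup.ofCone_tot (H : Type*) [Group H] (P : H → Prop)
    (one : P 1)
    (mul : ∀ x y, P x → P y → P (x * y)) (conj : ∀ x y, P x → P (y * x * y⁻¹))
    (anti : ∀ x, P x → P x⁻¹ → x = 1) (tot : ∀ x, P x ∨ P x⁻¹) :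
    letI := LGroup.ofCone H P one mul conj anti tot; Tot H := by
  intro x y
  rcases tot (x⁻¹ * y) with h | h
  · exact Or.inl h
  · exact Or.inr (by
      change P (y⁻¹ * x)
      simpa using h)

end Pool.Helper55.MG
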