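import Pool.Agent.Helper55.MG.Ident

/-! # Identities of doubles and identities of lattice-ordered groups -/

set_option linter.unusedVariables false

namespace Pool.Helper55.MG

/-! ### Translations of terms -/

mutual
/-- first coordinate of a term in `D(H)` -/
def MTerm.tr1 : MTerm → LTerm
  | .var n => .var (2 * n)
  | .one => .one
  | .mul s t => .mul s.tr1 t.tr1
  | .inv s => .inv s.tr1
  | .sup s t => .sup s.tr1 t.tr1
  | .inf s t => .inf s.tr1 t.tr1
  | .st s => s.tr2

/-- second coordinate of a term in `D(H)` -/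
def MTerm.tr2 : MTerm → LTerm
  | .var n => .var (2 * n + 1)
  | .one => .one
  | .mul s t => .mul s.tr2 t.tr2
  | .inv s => .inv s.tr2
  | .sup s t => .inf s.tr2 t.tr2
  | .inf s t => .sup s.tr2 t.tr2
  | .st s => s.tr1
end

theorem MTerm.eval_tr {H : Type*} [LGroup H] (v : ℕ → Dbl H) (w : ℕ → H)
    (h1 : ∀ n, w (2 * n) = (v n).fst) (h2 : ∀ n, w (2 * n + 1) = (v n).snd) (t : MTerm) :
    (t.eval v).fst = t.tr1.eval w ∧ (t.eval v).snd = t.tr2.eval w := by
  induction t with
  | var n => exact ⟨(h1 n).symm, (h2 n).symm⟩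
  | one => exact ⟨rfl, rfl⟩
  | mul s t hs ht =>
    exact ⟨congrArg₂ (· * ·) hs.1 ht.1, congrArg₂ (· * ·) hs.2 ht.2⟩
  | inv s hs => exact ⟨congrArg (·⁻¹) hs.1, congrArg (·⁻¹) hs.2⟩
  | sup s t hs ht =>
    exact ⟨congrArg₂ (· ⊔ ·) hs.1 ht.1, congrArg₂ (· ⊓ ·) hs.2 ht.2⟩
  | inf s t hs ht =>
    exact ⟨congrArg₂ (· ⊓ ·) hs.1 ht.1, congrArg₂ (· ⊔ ·) hs.2 ht.2⟩
  | st s hs => exact ⟨hs.2, hs.1⟩

/-- An identity holds in `D(H)` iff its two translations hold in `H`. -/
theorem dbl_holds_iff {H : Type*} [LGroup H] (e : MTerm × MTerm) :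
    MHolds (Dbl H) e ↔ LHolds H (e.1.tr1, e.2.tr1) ∧ LHolds H (e.1.tr2, e.2.tr2) := by
  constructor
  · intro h
    have key : ∀ w : ℕ → H, e.1.tr1.eval w = e.2.tr1.eval w ∧
        e.1.tr2.eval w = e.2.tr2.eval w := by
      intro w
      let v : ℕ → Dbl H := fun n => ⟨w (2 * n), w (2 * n + 1)⟩
      have h1 := MTerm.eval_tr v w (fun _ => rfl) (fun _ => rfl) e.1
      have h2 := MTerm.eval_tr v w (fun _ => rfl) (fun _ => rfl) e.2
      have h3 := h v
      exact ⟨by rw [← h1.1, ← h2.1, h3], by rw [← h1.2, ← h2.2, h3]⟩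
    exact ⟨fun w => (key w).1, fun w => (key w).2⟩
  · rintro ⟨h1, h2⟩ v
    let w : ℕ → H := fun n => if n % 2 = 0 then (v (n / 2)).fst else (v (n / 2)).snd
    have e1 : ∀ n, w (2 * n) = (v n).fst := by
      intro n
      simp only [w]
      rw [if_pos (by omega)]
      congr 2; omega
    have e2 : ∀ n, w (2 * n + 1) = (v n).snd := by
      intro n
      simp only [w]
      rw [if_neg (by omega)]
      congr 2; omega
    have h3 := MTerm.eval_tr v w e1 e2 e.1
    have h4 := MTerm.eval_tr v w e1 e2 e.2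
    apply Dbl.ext
    · rw [h3.1, h4.1]; exact h1 w
    · rw [h3.2, h4.2]; exact h2 w

/-- Star-free terms. -/
def LTerm.toM : LTerm → MTerm
  | .var n => .var n
  | .one => .one
  | .mul s t => .mul s.toM t.toM
  | .inv s => .inv s.toM
  | .sup s t => .sup s.toM t.toM
  | .inf s t => .inf s.toM t.toM

theorem LTerm.eval_toM {G : Type*} [MGroup G] (v : ℕ → G) (t : LTerm) :
    t.toM.eval v = t.eval v := by
  induction t with
  | var n => rfl
  | one => rfl
  | mul s t hs ht => exact congrArg₂ (· * ·) hs ht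
  | inv s hs => exact congrArg (·⁻¹) hs
  | sup s t hs ht => exact congrArg₂ (· ⊔ ·) hs ht
  | inf s t hs ht => exact congrArg₂ (· ⊓ ·) hs ht

/-- The dual term. -/
def LTerm.dual : LTerm → LTerm
  | .var n => .var n
  | .one => .one
  | .mul s t => .mul s.dual t.dual
  | .inv s => .inv s.dual
  | .sup s t => .inf s.dual t.dual
  | .inf s t => .sup s.dual t.dual

theorem LTerm.dual_dual (t : LTerm) : t.dual.dual = t := by
  induction t with
  | var n => rfl
  | one => rfl
  | mul s t hs ht => exact congrArg₂ LTerm.mul hs ht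
  | inv s hs => exact congrArg LTerm.inv hs
  | sup s t hs ht => exact congrArg₂ LTerm.sup hs ht
  | inf s t hs ht => exact congrArg₂ LTerm.inf hs ht

theorem LTerm.eval_dual {H : Type*} [LGroup H] (v : ℕ → H) (t : LTerm) :
    t.dual.eval v = OrderDual.ofDual (t.eval (G := Hᵒᵈ) (fun n => OrderDual.toDual (v n))) := by
  induction t with
  | var n => rfl
  | one => rfl
  | mul s t hs ht => exact congrArg₂ (· * ·) hs ht
  | inv s hs => exact congrArg (·⁻¹) hs
  | sup s t hs ht => exact congrArg₂ (· ⊓ ·) hs ht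
  | inf s t hs ht => exact congrArg₂ (· ⊔ ·) hs ht

theorem lholds_dual {H : Type*} [LGroup H] (e : LTerm × LTerm) :
    LHolds Hᵒᵈ e ↔ LHolds H (e.1.dual, e.2.dual) := by
  constructor
  · intro h v
    change e.1.dual.eval v = e.2.dual.eval v
    rw [LTerm.eval_dual, LTerm.eval_dual, h]
  · intro h v
    have h1 : e.1.dual.eval (fun n => OrderDual.ofDual (v n)) =
      e.2.dual.eval (fun n => OrderDual.ofDual (v n)) := h _
    rw [LTerm.eval_dual, LTerm.eval_dual] at h1
    exact h1

/-- Renaming of variables. -/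
def LTerm.ren (f : ℕ → ℕ) : LTerm → LTerm
  | .var n => .var (f n)
  | .one => .one
  | .mul s t => .mul (s.ren f) (t.ren f)
  | .inv s => .inv (s.ren f)
  | .sup s t => .sup (s.ren f) (t.ren f)
  | .inf s t => .inf (s.ren f) (t.ren f)

theorem LTerm.eval_ren {H : Type*} [LGroup H] (f : ℕ → ℕ) (v : ℕ → H) (t : LTerm) :
    (t.ren f).eval v = t.eval (fun n => v (f n)) := by
  induction t with
  | var n => rfl
  | one => rfl
  | mul s t hs ht => exact congrArg₂ (· * ·) hs ht
  | inv s hs => exact congrArg (·⁻¹) hs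
  | sup s t hs ht => exact congrArg₂ (· ⊔ ·) hs ht
  | inf s t hs ht => exact congrArg₂ (· ⊓ ·) hs ht

/-- `|s t⁻¹|` -/
def LTerm.gap (e : LTerm × LTerm) : LTerm :=
  .sup (.mul e.1 (.inv e.2)) (.inv (.mul e.1 (.inv e.2)))

theorem LTerm.eval_gap {H : Type*} [LGroup H] (v : ℕ → H) (e : LTerm × LTerm) :
    (LTerm.gap e).eval v = |e.1.eval v * (e.2.eval v)⁻¹|ₘ := rfl

theorem LTerm.gap_eq_one {H : Type*} [LGroup H] {v : ℕ → H} {e : LTerm × LTerm} :
    (LTerm.gap e).eval v = 1 ↔ e.1.eval v = e.2.eval v := by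
  rw [LTerm.eval_gap]
  constructor
  · intro h
    have h1 : e.1.eval v * (e.2.eval v)⁻¹ = 1 := by
      refine le_antisymm ?_ ?_
      · rw [← h]; exact le_mabs_self _
      · have := inv_le_mabs (e.1.eval v * (e.2.eval v)⁻¹)
        rw [h] at this
        exact inv_le_one'.1 this
    exact mul_inv_eq_one.1 h1
  · intro h
    rw [h, mul_inv_cancel]; exact mabs_one'

theorem LTerm.one_le_gap {H : Type*} [LGroup H] (v : ℕ → H) (e : LTerm × LTerm) :
    1 ≤ (LTerm.gap e).eval v := one_le_mabs _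

/-- If a totally ordered group satisfies every identity valid in `V` and in its dual, then it
satisfies all identities of `V` or all identities of the dual of `V`. -/
theorem lemmaJ (Θ : Set (LTerm × LTerm))
    {K : Type} [LGroup K] (hK : Tot K)
    (h : ∀ r : LTerm × LTerm, (∀ H : LGrp, (∀ e ∈ Θ, LHolds H.carrier e) →
      LHolds H.carrier r ∧ LHolds H.carrier (r.1.dual, r.2.dual)) → LHolds K r) :
    (∀ e ∈ Θ, LHolds K e) ∨ ∀ e ∈ Θ, LHolds Kᵒᵈ e := by
  by_contra hcon
  rw [not_or] at hcon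
  obtain ⟨h1, h2⟩ := hcon
  simp only [not_forall] at h1 h2
  obtain ⟨e1, he1, hf1⟩ := h1
  obtain ⟨e2, he2, hf2⟩ := h2
  rw [lholds_dual] at hf2
  unfold LHolds at hf1 hf2
  simp only [not_forall] at hf1 hf2
  obtain ⟨v1, hv1⟩ := hf1
  obtain ⟨v2, hv2⟩ := hf2
  let g1 : LTerm := (LTerm.gap e1).ren (fun n => 2 * n)
  let g2 : LTerm := (LTerm.gap (e2.1.dual, e2.2.dual)).ren (fun n => 2 * n + 1)
  let r : LTerm × LTerm := (.inf g1 g2, .one)
  have hr : LHolds K r := by
    apply h
    intro H hH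
    have k1 : ∀ v : ℕ → H.carrier, e1.1.eval v = e1.2.eval v := hH e1 he1
    have k2 : ∀ v : ℕ → H.carrier, e2.1.eval v = e2.2.eval v := hH e2 he2
    constructor
    · intro v
      change g1.eval v ⊓ g2.eval v = 1
      have e1' : g1.eval v = 1 := by
        simp only [g1]
        rw [LTerm.eval_ren, LTerm.gap_eq_one]; exact k1 _
      rw [e1']
      refine inf_eq_left.2 ?_
      simp only [g2]
      rw [LTerm.eval_ren]
      exact LTerm.one_le_gap _ _
    · intro v
      change g1.dual.eval v ⊔ g2.dual.eval v = 1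
      have e2' : g2.dual.eval v = 1 := by
        rw [LTerm.eval_dual]
        simp only [g2]
        rw [LTerm.eval_ren]
        have : (LTerm.gap (e2.1.dual, e2.2.dual)).eval (G := H.carrierᵒᵈ)
            (fun n => OrderDual.toDual (v (2 * n + 1))) = 1 := by
          rw [LTerm.gap_eq_one]
          have h3 : LHolds H.carrierᵒᵈ (e2.1.dual, e2.2.dual) := by
            rw [lholds_dual, LTerm.dual_dual, LTerm.dual_dual]
            exact k2
          exact h3 _
        exact this
      rw [e2']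
      refine sup_eq_right.2 ?_
      rw [LTerm.eval_dual]
      simp only [g1]
      rw [LTerm.eval_ren]
      exact LTerm.one_le_gap (H := H.carrierᵒᵈ) _ _
  let v : ℕ → K := fun n => if n % 2 = 0 then v1 (n / 2) else v2 (n / 2)
  have hv := hr v
  change g1.eval v ⊓ g2.eval v = 1 at hv
  have c1 : g1.eval v ≠ 1 := by
    simp only [g1]
    rw [LTerm.eval_ren, Ne, LTerm.gap_eq_one]
    have : (fun n => v (2 * n)) = v1 := by
      funext n
      simp only [v]
      rw [if_pos (by omega)]
      congr 1; omega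
    rw [this]; exact hv1
  have c2 : g2.eval v ≠ 1 := by
    simp only [g2]
    rw [LTerm.eval_ren, Ne, LTerm.gap_eq_one]
    have : (fun n => v (2 * n + 1)) = v2 := by
      funext n
      simp only [v]
      rw [if_neg (by omega)]
      congr 1; omega
    rw [this]; exact hv2
  rcases hK (g1.eval v) (g2.eval v) with h3 | h3
  · rw [inf_eq_left.2 h3] at hv; exact c1 hv
  · rw [inf_eq_right.2 h3] at hv; exact c2 hv

end Pool.Helper55.MG
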